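import Pool.Agent.Lib.ThmQ.Main

/-! # Theorem Q: crossing a set of value 5 with prescribed first and last edge -/

set_option autoImplicit false

namespace ThmQ

open Finset Classical

variable {V E : Type*} {s t : E → V}

/-- the value with two marked root edges, at `w1` and at `w2` -/
noncomputable def v2 (s t : E → V) (A : Finset E) (ρ : V → ℕ) (w1 w2 : V) (W : Finset V) : ℕ :=
  ct s t A W + ∑ v ∈ W, ρ v + (if w1 ∈ W then 1 else 0) + (if w2 ∈ W then 1 else 0)

namespace Cross

/-- sources and targets of the extended graph: `inl e` old edges, `inr true` the edge from `w2` to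
the new vertex, `inr false` unused -/
def s' (s : E → V) (w2 : V) : E ⊕ Bool → Option V
  | Sum.inl e => some (s e)
  | Sum.inr _ => some w2

def t' (t : E → V) : E ⊕ Bool → Option V
  | Sum.inl e => some (t e)
  | Sum.inr _ => none

def r' (ρ : V → ℕ) : Option V → ℕ
  | some v => ρ v
  | none => 2

/-- old vertices of a set -/
noncomputable def od (W : Finset (Option V)) : Finset V :=
  W.preimage some (Option.some_injective V).injOn

theorem mem_od {W : Finset (Option V)} {v : V} : v ∈ od W ↔ some v ∈ W := by
  unfold od
  rw [mem_preimage]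

noncomputable def ol (P : Finset (E ⊕ Bool)) : Finset E :=
  P.preimage Sum.inl Sum.inl_injective.injOn

theorem mem_ol {P : Finset (E ⊕ Bool)} {e : E} : e ∈ ol P ↔ Sum.inl e ∈ P := by
  unfold ol
  rw [mem_preimage]

theorem cr_inl {w2 : V} {W : Finset (Option V)} {e : E} :
    Cr (s' s w2) (t' t) W (Sum.inl e) ↔ Cr s t (od W) e := by
  unfold Cr
  simp only [mem_od, s', t']

theorem ct_split (w2 : V) (P : Finset (E ⊕ Bool)) (hP : Sum.inr false ∉ P) (W : Finset (Option V)) :
    ct (s' s w2) (t' t) P W = ct s t (ol P) (od W) +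
      if Sum.inr true ∈ P ∧ ((w2 ∈ od W ∧ none ∉ W) ∨ (w2 ∉ od W ∧ none ∈ W)) then 1 else 0 := by
  have h1 : P.filter (Cr (s' s w2) (t' t) W) =
      ((ol P).filter (Cr s t (od W))).map ⟨Sum.inl, Sum.inl_injective⟩ ∪
      (if Sum.inr true ∈ P ∧ ((w2 ∈ od W ∧ none ∉ W) ∨ (w2 ∉ od W ∧ none ∈ W)) then
        {Sum.inr true} else ∅) := by
    ext x
    simp only [mem_filter, mem_union, mem_map, Function.Embedding.coeFn_mk]
    rcases x with e | b
    · rw [cr_inl]
      constructor
      · rintro ⟨h1, h2⟩
        exact Or.inl ⟨e, ⟨mem_ol.2 h1, h2⟩, rfl⟩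
      · rintro (⟨e', ⟨h1, h2⟩, h3⟩ | h)
        · obtain rfl := Sum.inl.inj h3
          exact ⟨mem_ol.1 h1, h2⟩
        · split_ifs at h with h4
          · simp at h
          · simp at h
    · have hcr : Cr (s' s w2) (t' t) W (Sum.inr b) ↔
          ((w2 ∈ od W ∧ none ∉ W) ∨ (w2 ∉ od W ∧ none ∈ W)) := by
        unfold Cr
        simp only [mem_od, s', t']
      rw [hcr]
      cases b with
      | false =>
        constructor
        · rintro ⟨h1, _⟩
          exact absurd h1 hP
        · rintro (⟨e', _, h3⟩ | h)
          · simp at h3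
          · split_ifs at h with h4
            · simp at h
            · simp at h
      | true =>
        constructor
        · rintro ⟨h1, h2⟩
          right
          rw [if_pos ⟨h1, h2⟩]
          exact mem_singleton_self _
        · rintro (⟨e', _, h3⟩ | h)
          · simp at h3
          · split_ifs at h with h4
            · exact h4
            · simp at h
  unfold ct
  rw [h1, card_union_of_disjoint, card_map]
  · congr 1
    split_ifs <;> simp
  · rw [disjoint_left]
    intro x hx hx'
    rw [mem_map] at hx
    obtain ⟨e, _, rfl⟩ := hx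
    split_ifs at hx' <;> simp at hx'

theorem sum_split (ρ : V → ℕ) (W : Finset (Option V)) :
    ∑ v ∈ W, r' ρ v = ∑ v ∈ od W, ρ v + if none ∈ W then 2 else 0 := by
  have h1 : W = (od W).map ⟨some, Option.some_injective V⟩ ∪ (if none ∈ W then {none} else ∅) := by
    ext x
    simp only [mem_union, mem_map, Function.Embedding.coeFn_mk]
    rcases x with _ | v
    · constructor
      · intro h
        right
        rw [if_pos h]
        exact mem_singleton_self _
      · rintro (⟨e', _, h3⟩ | h)
        · simp at h3
        · split_ifs at h with h4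
          · exact h4
          · simp at h
    · constructor
      · intro h
        exact Or.inl ⟨v, mem_od.2 h, rfl⟩
      · rintro (⟨e', h2, h3⟩ | h)
        · obtain rfl := Option.some.inj h3
          exact mem_od.1 h2
        · split_ifs at h <;> simp at h
  conv_lhs => rw [h1]
  rw [sum_union, sum_map]
  · congr 1
    split_ifs <;> simp [r']
  · rw [disjoint_left]
    intro x hx hx'
    rw [mem_map] at hx
    obtain ⟨e, _, rfl⟩ := hx
    split_ifs at hx' <;> simp at hx'

end Cross

open ThmQ.Cross in
/-- CROSSING: all odd sets have value at least 5 and `N` has value 5: there is a trail entering by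
the root edge at `w1` and leaving by the root edge at `w2`, all odd sets keep value at least 3 -/
theorem cross {N : Finset V} {es : Finset E} {ρ : V → ℕ} {w1 w2 : V}
    (ends : ∀ e ∈ es, s e ∈ N ∧ t e ∈ N) (h1N : w1 ∈ N) (h2N : w2 ∈ N)
    (hL : ∀ W ⊆ N, Odd (v2 s t es ρ w1 w2 W) → 5 ≤ v2 s t es ρ w1 w2 W)
    (h5 : v2 s t es ρ w1 w2 N = 5) :
    ∃ P ⊆ es, Bd s t P w1 w2 ∧ Acyc s t P ∧
      ∀ W ⊆ N, Odd (v2 s t es ρ w1 w2 W) → 3 ≤ ct s t (es \ P) W + ∑ v ∈ W, ρ v := by
  set es' : Finset (E ⊕ Bool) := insert (Sum.inr true) (es.map ⟨Sum.inl, Sum.inl_injective⟩)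
    with hes'
  set N' : Finset (Option V) := insert none (N.map ⟨some, Option.some_injective V⟩) with hN'
  have hfes : Sum.inr false ∉ es' := by
    rw [hes']
    simp
  have htes : Sum.inr true ∈ es' := mem_insert_self _ _
  have hoes : ol es' = es := by
    ext e
    rw [mem_ol, hes']
    simp
  have hodN : ∀ W ⊆ N', od W ⊆ N := by
    intro W hW v hv
    have h1 := hW (mem_od.1 hv)
    rw [hN'] at h1
    simpa using h1
  -- values
  have hval : ∀ W, vl (s' s w2) (t' t) es' (r' ρ) (some w1) W =
      if none ∈ W then ct s t es (od W) + ∑ v ∈ od W, ρ v + (if w1 ∈ od W then 1 else 0) + 2 +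
        (if w2 ∈ od W then 0 else 1) else v2 s t es ρ w1 w2 (od W) := by
    intro W
    unfold vl v2
    rw [ct_split w2 es' hfes, sum_split, hoes]
    simp only [htes, true_and, ← mem_od (V := V)]
    by_cases h1 : none ∈ W <;> by_cases h2 : w2 ∈ od W <;> simp [h1, h2] <;> omega
  have hInst : Inst (s' s w2) (t' t) N' es' (r' ρ) (some w1) {none} (Sum.inr false) := by
    refine ⟨?_, ?_, ?_, ?_, ?_, ?_, ?_⟩
    · intro e he
      rw [hes', mem_insert, mem_map] at he
      rcases he with rfl | ⟨e, he, rfl⟩
      · refine ⟨?_, ?_⟩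
        · rw [hN']
          simp [s', h2N]
        · rw [hN']
          simp [t']
      · have := ends e he
        refine ⟨?_, ?_⟩
        · rw [hN']
          simp [s', this.1]
        · rw [hN']
          simp [t', this.2]
    · rw [hN']
      simp [h1N]
    · rw [hN']
      simp
    · intro h
      exact absurd h hfes
    · intro W hW ho
      rw [hval] at ho ⊢
      by_cases h1 : none ∈ W
      · rw [if_pos h1] at ho ⊢
        by_cases h2 : w2 ∈ od W
        · rw [if_pos h2] at ho ⊢
          have h3 : v2 s t es ρ w1 w2 (od W) = ct s t es (od W) + ∑ v ∈ od W, ρ v +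
            (if w1 ∈ od W then 1 else 0) + 1 := by
            unfold v2
            rw [if_pos h2]
          obtain ⟨k, hk⟩ := ho
          omega
        · rw [if_neg h2]
          omega
      · rw [if_neg h1] at ho ⊢
        have := hL (od W) (hodN W hW) ho
        omega
    · intro W hW ho hT
      have h1 : none ∉ W := fun h => disjoint_left.1 hT h (mem_singleton_self _)
      rw [hval, if_neg h1] at ho ⊢
      exact hL (od W) (hodN W hW) ho
    · intro Ω hΩ hw1 hT
      have h1 : none ∉ Ω := fun h => disjoint_left.1 hT h (mem_singleton_self _)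
      by_contra hn
      have hn' : ∀ e ∈ es', e ≠ Sum.inr false → ¬ Cr (s' s w2) (t' t) Ω e :=
        fun e he hne hc => hn ⟨e, he, hne, hc⟩
      have h2 : w2 ∉ od Ω := by
        intro h
        refine hn' _ htes (by simp) (Or.inl ⟨?_, ?_⟩)
        · exact mem_od.1 h
        · exact h1
      have h3 : ∀ e ∈ es, ¬ Cr s t (od Ω) e := by
        intro e he hc
        exact hn' (Sum.inl e) (mem_insert_of_mem (mem_map.2 ⟨e, he, rfl⟩)) (by simp)
          (cr_inl.2 hc)
      have hw1' : w1 ∈ od Ω := mem_od.2 hw1
      have hsub : od Ω ⊆ N := hodN Ω hΩ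
      have h4 : ct s t es (od Ω) = 0 := by
        unfold ct
        rw [card_eq_zero, filter_eq_empty_iff]
        exact fun e he => h3 e he
      have h6 : ct s t es (N \ od Ω) = 0 := by
        rw [ct_compl ends, h4]
      have h7 : ct s t es N = 0 := by
        unfold ct
        rw [card_eq_zero, filter_eq_empty_iff]
        intro e he
        have := ends e he
        unfold Cr
        tauto
      have h8 := sum_sdiff (f := ρ) hsub
      have hU2 : w2 ∈ N \ od Ω := mem_sdiff.2 ⟨h2N, h2⟩
      have hU1 : w1 ∉ N \ od Ω := fun h => (mem_sdiff.1 h).2 hw1'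
      have e1 : v2 s t es ρ w1 w2 (od Ω) = ∑ v ∈ od Ω, ρ v + 1 := by
        unfold v2
        rw [h4, if_pos hw1', if_neg h2]
        omega
      have e2 : v2 s t es ρ w1 w2 (N \ od Ω) = ∑ v ∈ N \ od Ω, ρ v + 1 := by
        unfold v2
        rw [h6, if_neg hU1, if_pos hU2]
        omega
      have e3 : v2 s t es ρ w1 w2 N = ∑ v ∈ N, ρ v + 2 := by
        unfold v2
        rw [h7, if_pos h1N, if_pos h2N]
        omega
      have g1 := hL (od Ω) hsub
      have g2 := hL (N \ od Ω) sdiff_subset
      rcases Nat.even_or_odd (v2 s t es ρ w1 w2 (od Ω)) with h | h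
      · have h' : Odd (v2 s t es ρ w1 w2 (N \ od Ω)) := by
          rw [Nat.odd_iff]
          rw [Nat.even_iff] at h
          omega
        have := g2 h'
        omega
      · have := g1 h
        omega
  obtain ⟨P', u, hP', hac⟩ := main hInst
  have hu : u = none := by
    have := hP'.uT
    rwa [mem_singleton] at this
  subst hu
  have hfP : Sum.inr false ∉ P' := hP'.phi
  have htP : Sum.inr true ∈ P' := by
    have h1 := hP'.touch none (mem_singleton_self _)
    rw [if_pos ⟨rfl, by simp⟩, ct_split w2 P' hfP] at h1
    have h2 : od ({none} : Finset (Option V)) = ∅ := by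
      ext v
      rw [mem_od]
      simp
    rw [h2] at h1
    have h3 : ct s t (ol P') ∅ = 0 := by
      unfold ct
      rw [card_eq_zero, filter_eq_empty_iff]
      intro e _
      unfold Cr
      simp
    rw [h3] at h1
    by_contra h4
    rw [if_neg (fun h => h4 h.1)] at h1
    omega
  have hoeP : ol P' ⊆ es := by
    intro e he
    have h1 := hP'.sub (mem_ol.1 he)
    rw [← hoes]
    exact mem_ol.2 h1
  have hods : ∀ v : V, od ({some v} : Finset (Option V)) = {v} := by
    intro v
    ext x
    rw [mem_od]
    simp
  refine ⟨ol P', hoeP, fun v => ?_, fun B hB hE => ?_, fun W hW ho => ?_⟩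
  · have h1 := hP'.bd (some v)
    rw [ct_split w2 P' hfP, hods] at h1
    simp only [htP, true_and, mem_singleton, reduceCtorEq, not_false_eq_true, and_true, and_false,
      or_false, if_false, add_zero, Option.some.injEq] at h1
    push_cast at h1
    rw [← h1]
    have h2 : (if w2 = v then (1 : ZMod 2) else 0) = if v = w2 then 1 else 0 :=
      if_congr eq_comm rfl rfl
    rw [h2]
    have h3 := two_z (if v = w2 then 1 else 0)
    linear_combination -h3
  · have h1 : B.map ⟨Sum.inl, Sum.inl_injective⟩ = (∅ : Finset (E ⊕ Bool)) := by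
      refine hac _ ?_ fun v => ?_
      · intro x hx
        obtain ⟨e, he, rfl⟩ := mem_map.1 hx
        exact mem_ol.1 (hB he)
      · have h2 : ol (B.map ⟨Sum.inl, Sum.inl_injective⟩ : Finset (E ⊕ Bool)) = B := by
          ext e
          rw [mem_ol]
          simp
        rw [ct_split w2 _ (by simp), h2]
        simp only [mem_map, Function.Embedding.coeFn_mk, reduceCtorEq, and_false, exists_false,
          false_and, if_false, add_zero]
        rcases v with _ | v
        · have h2 : od ({none} : Finset (Option V)) = ∅ := by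
            ext v
            rw [mem_od]
            simp
          rw [h2]
          have h3 : ct s t B ∅ = 0 := by
            unfold ct
            rw [card_eq_zero, filter_eq_empty_iff]
            intro e _
            unfold Cr
            simp
          rw [h3, Nat.cast_zero]
        · rw [hods]
          exact hE v
    rw [map_eq_empty] at h1
    exact h1
  · have hodW : od (W.map ⟨some, Option.some_injective V⟩) = W := by
      ext v
      rw [mem_od]
      simp
    have hnW : none ∉ W.map ⟨some, Option.some_injective V⟩ := by simp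
    obtain ⟨X, hX, h1⟩ : ∃ X : Finset (E ⊕ Bool), (∀ x, x ∈ X ↔ x ∈ es' ∧ x ∉ P') ∧
        3 ≤ vl (s' s w2) (t' t) X (r' ρ) none (W.map ⟨some, Option.some_injective V⟩) := by
      have h0 := hP'.val (W.map ⟨some, Option.some_injective V⟩) (by
        intro x hx
        obtain ⟨v, hv, rfl⟩ := mem_map.1 hx
        rw [hN']
        exact mem_insert_of_mem (mem_map.2 ⟨v, hW hv, rfl⟩)) (by
        rw [hval, if_neg hnW, hodW]
        exact ho)
      refine ⟨_, ?_, h0⟩
      intro x
      exact @mem_sdiff _ (fun a b => Classical.propDecidable (a = b)) _ _ x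
    unfold vl at h1
    rw [ct_split w2 X (fun h => hfes ((hX _).1 h).1), sum_split, hodW, if_neg hnW, if_neg hnW] at h1
    rw [if_neg (fun h => ((hX _).1 h.1).2 htP)] at h1
    have h2 : ol X = es \ ol P' := by
      ext e
      rw [mem_ol, mem_sdiff, hX, mem_ol, ← mem_ol, hoes]
    rw [h2] at h1
    omega

end ThmQ
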