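import Pool.Agent.Lib.ThmQ.Dart
import Pool.Agent.Lib.ThmQ.Cross

/-! # Theorem Q: an acyclic set with boundary `{p} + {q}` is a path; dart form of the crossing -/

set_option autoImplicit false

namespace ThmQ

open Finset Classical

variable {V E D : Type*} {s t : E → V}

theorem Bd.swap {A : Finset E} {p q : V} (h : Bd s t A p q) : Bd s t A q p := fun v => by
  rw [h v, add_comm]

theorem Acyc.two {A : Finset E} {p q v : V} (ha : Acyc s t A) (hb : Bd s t A p q)
    (hv : ct s t A {v} ≠ 0) (hp : v ≠ p) (hq : v ≠ q) : ct s t A {v} = 2 := by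
  obtain ⟨D, hD, hDb⟩ := ha.part_to hb hv
  have ha1 : Acyc s t D := fun B hB => ha B (hB.trans hD)
  have ha2 : Acyc s t (A \ D) := fun B hB => ha B (hB.trans sdiff_subset)
  have h1 := ha1.one hDb hp
  have hb2 : Bd s t (A \ D) q v := by
    intro x
    have h3 := ct_sdiff (s := s) (t := t) hD {x}
    have h4 := hb x
    rw [← h3] at h4
    push_cast at h4
    rw [hDb x] at h4
    have key : ∀ a P Q X : ZMod 2, a + (P + X) = P + Q → a = Q + X := by decide
    exact key _ _ _ _ h4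
  have h2 := ha2.one hb2 hq
  have h3 := ct_sdiff (s := s) (t := t) hD {v}
  omega

theorem Acyc.conn {A : Finset E} {p q : V} (ha : Acyc s t A) (hb : Bd s t A p q) {X : Finset V}
    (h1 : ∃ e ∈ A, s e ∈ X ∨ t e ∈ X) (h2 : ∃ e ∈ A, s e ∉ X ∨ t e ∉ X) :
    ∃ e ∈ A, Cr s t X e := by
  by_contra hn
  have hn' : ∀ e ∈ A, ¬ Cr s t X e := fun e he hc => hn ⟨e, he, hc⟩
  have h0 : ct s t A X = 0 := by
    unfold ct
    rw [card_eq_zero, filter_eq_empty_iff]
    exact fun e he => hn' e he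
  have hpar := hb.par X
  rw [h0, Nat.cast_zero] at hpar
  by_cases hp : p ∈ X
  · have hq : q ∈ X := by
      by_contra hq
      rw [if_pos hp, if_neg hq] at hpar
      exact absurd hpar (by decide)
    obtain ⟨e, he, h3⟩ := h2
    set X' : Finset V := (A.image s ∪ A.image t) \ X with hX'
    have hm : ∀ e ∈ A, (s e ∈ X' ↔ s e ∉ X) ∧ (t e ∈ X' ↔ t e ∉ X) := by
      intro e he
      rw [hX', mem_sdiff, mem_sdiff, mem_union, mem_union]
      have m1 : s e ∈ A.image s := mem_image_of_mem _ he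
      have m2 : t e ∈ A.image t := mem_image_of_mem _ he
      tauto
    have h0' : ct s t A X' = 0 := by
      unfold ct
      rw [card_eq_zero, filter_eq_empty_iff]
      intro e he hc
      apply hn' e he
      have := hm e he
      unfold Cr at hc ⊢
      tauto
    have hp' : p ∉ X' := fun h => (mem_sdiff.1 h).2 hp
    have hq' : q ∉ X' := fun h => (mem_sdiff.1 h).2 hq
    have h4 := ha.untouched hb hp' hq' h0' e he
    have := hm e he
    tauto
  · have hq : q ∉ X := by
      intro hq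
      rw [if_neg hp, if_pos hq] at hpar
      exact absurd hpar (by decide)
    obtain ⟨e, he, h3⟩ := h1
    have h4 := ha.untouched hb hp hq h0 e he
    tauto

/-- a path of darts from `p` to `q` (acyclic, boundary `{p} + {q}`) -/
structure DPath (al : D → D) (nd : D → V) (P : Finset D) (p q : V) : Prop where
  clo : ∀ d ∈ P, al d ∈ P
  al_al : ∀ d ∈ P, al (al d) = d
  al_ne : ∀ d ∈ P, al d ≠ d
  bd : ∀ v, (dct al nd P {v} : ZMod 2) = (if v = p then 1 else 0) + (if v = q then 1 else 0)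
  acyc : ∀ B ⊆ P, (∀ d ∈ B, al d ∈ B) → (∀ v, (dct al nd B {v} : ZMod 2) = 0) → B = ∅

theorem DSol.path {al : D → D} {nd : D → V} {N : Finset V} {ds : Finset D} {ρ : V → ℕ} {w1 : V}
    {T : Finset V} {φ : D} (hI : DInst al nd N ds ρ w1 T φ) {P : Finset D} {u : V}
    (h : DSol al nd N ds ρ w1 T φ P u) : DPath al nd P w1 u :=
  ⟨h.clo, fun d hd => hI.al_al d (h.sub hd), fun d hd => hI.al_ne d (h.sub hd), h.bd, h.acyc⟩

namespace DPath

variable {al : D → D} {nd : D → V} {P : Finset D} {p q : V}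

/-- a set of representatives of the edges of a path -/
theorem rep (h : DPath al nd P p q) : ∃ R ⊆ P, (∀ d ∈ P, d ∈ R ∨ al d ∈ R) ∧
    (∀ W, ct nd (fun d => nd (al d)) R W = dct al nd P W) ∧
    Bd nd (fun d => nd (al d)) R p q ∧ Acyc nd (fun d => nd (al d)) R := by
  obtain ⟨R, hRs, hR⟩ := exists_rep h.clo h.al_al h.al_ne
  have hct : ∀ A ⊆ P, (∀ d ∈ A, al d ∈ A) → ∀ W,
      ct nd (fun d => nd (al d)) (A ∩ R) W = dct al nd A W :=
    fun A hA hAc W => ct_rep h.clo h.al_al hRs hR hA hAc W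
  have hctds : ∀ W, ct nd (fun d => nd (al d)) R W = dct al nd P W := by
    intro W
    rw [← hct P (Subset.refl _) h.clo W, inter_eq_right.2 hRs]
  refine ⟨R, hRs, fun d hd => (hR d hd).1, hctds, fun v => ?_, fun B hB hE => ?_⟩
  · rw [hctds]
    exact h.bd v
  · have hBP : B ⊆ P := hB.trans hRs
    have hB' : B ∪ B.image al = ∅ := by
      have hsub : B ∪ B.image al ⊆ P := by
        refine union_subset hBP ?_
        intro d hd
        obtain ⟨e, he, rfl⟩ := mem_image.1 hd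
        exact h.clo e (hBP he)
      have hc : ∀ d ∈ B ∪ B.image al, al d ∈ B ∪ B.image al := by
        intro d hd
        rw [mem_union] at hd ⊢
        rcases hd with hd | hd
        · exact Or.inr (mem_image_of_mem _ hd)
        · obtain ⟨e, he, rfl⟩ := mem_image.1 hd
          rw [h.al_al e (hBP he)]
          exact Or.inl he
      refine h.acyc _ hsub hc fun v => ?_
      rw [← hct _ hsub hc]
      have h1 : (B ∪ B.image al) ∩ R = B := by
        ext d
        rw [mem_inter, mem_union]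
        constructor
        · rintro ⟨h | h, h2⟩
          · exact h
          · obtain ⟨e, he, rfl⟩ := mem_image.1 h
            exact absurd ⟨hB he, h2⟩ (hR e (hBP he)).2
        · intro h
          exact ⟨Or.inl h, hB h⟩
      rw [h1]
      exact hE v
    exact (union_eq_empty.1 hB').1

theorem noloop (h : DPath al nd P p q) {d : D} (hd : d ∈ P) : nd (al d) ≠ nd d := by
  obtain ⟨R, hRs, hR, _, _, hac⟩ := h.rep
  rcases hR d hd with h1 | h1
  · exact fun h2 => hac.noloop h1 h2.symm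
  · intro h2
    apply hac.noloop h1
    show nd (al d) = nd (al (al d))
    rw [h.al_al d hd]
    exact h2

theorem dct_eq (h : DPath al nd P p q) (v : V) :
    dct al nd P {v} = (P.filter fun d => nd d = v).card := by
  unfold dct
  congr 1
  ext d
  simp only [mem_filter, mem_singleton]
  constructor
  · rintro ⟨h1, h2, _⟩
    exact ⟨h1, h2⟩
  · rintro ⟨h1, h2⟩
    exact ⟨h1, h2, fun h3 => h.noloop h1 (h3.trans h2.symm)⟩

theorem deg (h : DPath al nd P p q) {v : V} (hp : v ≠ p) (hq : v ≠ q) :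
    (P.filter fun d => nd d = v).card = 0 ∨ (P.filter fun d => nd d = v).card = 2 := by
  rw [← h.dct_eq]
  obtain ⟨R, _, _, hct, hb, hac⟩ := h.rep
  rw [← hct]
  by_cases h1 : ct nd (fun d => nd (al d)) R {v} = 0
  · exact Or.inl h1
  · exact Or.inr (hac.two hb h1 hp hq)

theorem deg_q (h : DPath al nd P p q) (hpq : q ≠ p) : (P.filter fun d => nd d = q).card = 1 := by
  rw [← h.dct_eq]
  obtain ⟨R, _, _, hct, hb, hac⟩ := h.rep
  rw [← hct]
  exact hac.one hb hpq

theorem deg_p (h : DPath al nd P p q) (hpq : q ≠ p) : (P.filter fun d => nd d = p).card = 1 := by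
  rw [← h.dct_eq]
  obtain ⟨R, _, _, hct, hb, hac⟩ := h.rep
  rw [← hct]
  exact hac.one hb.swap hpq.symm

theorem empty (h : DPath al nd P p q) (hpq : q = p) : P = ∅ := by
  refine h.acyc P (Subset.refl _) h.clo fun v => ?_
  rw [h.bd v, hpq, two_z]

theorem conn (h : DPath al nd P p q) {X : Finset V} (h1 : ∃ d ∈ P, nd d ∈ X)
    (h2 : ∃ d ∈ P, nd d ∉ X) : ∃ d ∈ P, nd d ∈ X ∧ nd (al d) ∉ X := by
  obtain ⟨R, hRs, hR, hct, hb, hac⟩ := h.rep
  obtain ⟨e, he, hc⟩ := hac.conn hb (X := X) (by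
    obtain ⟨d, hd, h3⟩ := h1
    rcases hR d hd with h4 | h4
    · exact ⟨d, h4, Or.inl h3⟩
    · refine ⟨al d, h4, Or.inr ?_⟩
      show nd (al (al d)) ∈ X
      rwa [h.al_al d hd]) (by
    obtain ⟨d, hd, h3⟩ := h2
    rcases hR d hd with h4 | h4
    · exact ⟨d, h4, Or.inl h3⟩
    · refine ⟨al d, h4, Or.inr ?_⟩
      show nd (al (al d)) ∉ X
      rwa [h.al_al d hd])
  rcases hc with ⟨h3, h4⟩ | ⟨h3, h4⟩
  · exact ⟨e, hRs he, h3, h4⟩
  · refine ⟨al e, h.clo e (hRs he), h4, ?_⟩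
    rw [h.al_al e (hRs he)]
    exact h3

end DPath

/-- value with two marked root edges, dart form -/
noncomputable def dv2 (al : D → D) (nd : D → V) (A : Finset D) (ρ : V → ℕ) (w1 w2 : V)
    (W : Finset V) : ℕ :=
  dct al nd A W + ∑ v ∈ W, ρ v + (if w1 ∈ W then 1 else 0) + (if w2 ∈ W then 1 else 0)

/-- CROSSING, dart form -/
theorem cross_dart {al : D → D} {nd : D → V} {N : Finset V} {ds : Finset D} {ρ : V → ℕ}
    {w1 w2 : V} (al_mem : ∀ d ∈ ds, al d ∈ ds) (al_al : ∀ d ∈ ds, al (al d) = d)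
    (al_ne : ∀ d ∈ ds, al d ≠ d) (nd_mem : ∀ d ∈ ds, nd d ∈ N) (h1N : w1 ∈ N) (h2N : w2 ∈ N)
    (hL : ∀ W ⊆ N, Odd (dv2 al nd ds ρ w1 w2 W) → 5 ≤ dv2 al nd ds ρ w1 w2 W)
    (h5 : dv2 al nd ds ρ w1 w2 N = 5) :
    ∃ P ⊆ ds, DPath al nd P w1 w2 ∧
      ∀ W ⊆ N, Odd (dv2 al nd ds ρ w1 w2 W) → 3 ≤ dct al nd (ds \ P) W + ∑ v ∈ W, ρ v := by
  obtain ⟨R, hRs, hR⟩ := exists_rep al_mem al_al al_ne
  have hct : ∀ A ⊆ ds, (∀ d ∈ A, al d ∈ A) → ∀ W,
      ct nd (fun d => nd (al d)) (A ∩ R) W = dct al nd A W :=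
    fun A hA hAc W => ct_rep al_mem al_al hRs hR hA hAc W
  have hctds : ∀ W, ct nd (fun d => nd (al d)) R W = dct al nd ds W := by
    intro W
    rw [← hct ds (Subset.refl _) al_mem W, inter_eq_right.2 hRs]
  have hv2 : ∀ W, v2 nd (fun d => nd (al d)) R ρ w1 w2 W = dv2 al nd ds ρ w1 w2 W := by
    intro W
    unfold v2 dv2
    rw [hctds]
  obtain ⟨P, hPR, hPb, hPa, hPv⟩ := cross (s := nd) (t := fun d => nd (al d)) (N := N) (es := R)
    (ρ := ρ) (w1 := w1) (w2 := w2)
    (fun e he => ⟨nd_mem e (hRs he), nd_mem _ (al_mem e (hRs he))⟩) h1N h2N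
    (fun W hW ho => by rw [hv2] at ho ⊢; exact hL W hW ho) (by rw [hv2]; exact h5)
  have hPds : P ⊆ ds := hPR.trans hRs
  have hP'ds : P ∪ P.image al ⊆ ds := by
    refine union_subset hPds ?_
    intro d hd
    obtain ⟨e, he, rfl⟩ := mem_image.1 hd
    exact al_mem e (hPds he)
  have hP'c : ∀ d ∈ P ∪ P.image al, al d ∈ P ∪ P.image al := by
    intro d hd
    rw [mem_union] at hd ⊢
    rcases hd with hd | hd
    · exact Or.inr (mem_image_of_mem _ hd)
    · obtain ⟨e, he, rfl⟩ := mem_image.1 hd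
      rw [al_al e (hPds he)]
      exact Or.inl he
  have hP'R : (P ∪ P.image al) ∩ R = P := by
    ext d
    rw [mem_inter, mem_union]
    constructor
    · rintro ⟨h | h, h2⟩
      · exact h
      · obtain ⟨e, he, rfl⟩ := mem_image.1 h
        exact absurd ⟨hPR he, h2⟩ (hR e (hPds he)).2
    · intro h
      exact ⟨Or.inl h, hPR h⟩
  refine ⟨P ∪ P.image al, hP'ds, ⟨hP'c, fun d hd => al_al d (hP'ds hd),
    fun d hd => al_ne d (hP'ds hd), fun v => ?_, fun B hB hBc hBe => ?_⟩, fun W hW ho => ?_⟩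
  · rw [← hct _ hP'ds hP'c, hP'R]
    exact hPb v
  · have h1 : B ∩ R = ∅ := by
      refine hPa (B ∩ R) ?_ fun v => ?_
      · intro d hd
        have h2 := mem_inter.1 hd
        rw [← hP'R]
        exact mem_inter.2 ⟨hB h2.1, h2.2⟩
      · rw [hct B (hB.trans hP'ds) hBc]
        exact hBe v
    rw [eq_empty_iff_forall_notMem]
    intro d hd
    rcases (hR d (hP'ds (hB hd))).1 with h2 | h2
    · have : d ∈ B ∩ R := mem_inter.2 ⟨hd, h2⟩
      rw [h1] at this
      exact notMem_empty _ this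
    · have : al d ∈ B ∩ R := mem_inter.2 ⟨hBc d hd, h2⟩
      rw [h1] at this
      exact notMem_empty _ this
  · have h1 := hPv W hW (by rw [hv2]; exact ho)
    have h2 : ct nd (fun d => nd (al d)) (R \ P) W = dct al nd (ds \ (P ∪ P.image al)) W := by
      rw [← hct (ds \ (P ∪ P.image al)) sdiff_subset (fun d hd => by
        rw [mem_sdiff] at hd ⊢
        refine ⟨al_mem d hd.1, fun h => hd.2 ?_⟩
        have := hP'c _ h
        rwa [al_al d hd.1] at this)]
      congr 1
      ext d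
      rw [mem_inter, mem_sdiff, mem_sdiff]
      constructor
      · rintro ⟨h3, h4⟩
        refine ⟨⟨hRs h3, fun h5 => h4 ?_⟩, h3⟩
        rw [← hP'R]
        exact mem_inter.2 ⟨h5, h3⟩
      · rintro ⟨⟨h3, h4⟩, h5⟩
        exact ⟨h5, fun h => h4 (mem_union_left _ h)⟩
    rw [← h2]
    exact h1

end ThmQ
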