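import Pool.Agent.Lib.ThmQ.Defs

/-! # Theorem Q: counting crossing edges -/

set_option autoImplicit false

namespace ThmQ

open Finset Classical

variable {V E : Type*} {s t : E → V}

theorem ct_union {A B : Finset E} (h : Disjoint A B) (W : Finset V) :
    ct s t (A ∪ B) W = ct s t A W + ct s t B W := by
  unfold ct
  rw [filter_union, card_union_of_disjoint]
  exact disjoint_filter_filter h

theorem ct_sdiff {A B : Finset E} (h : B ⊆ A) (W : Finset V) :
    ct s t (A \ B) W + ct s t B W = ct s t A W := by
  rw [← ct_union sdiff_disjoint, sdiff_union_of_subset h]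

theorem ct_mono {A B : Finset E} (h : B ⊆ A) (W : Finset V) : ct s t B W ≤ ct s t A W :=
  card_le_card (filter_subset_filter _ h)

theorem ct_insert {A : Finset E} {e : E} (h : e ∉ A) (W : Finset V) :
    ct s t (insert e A) W = ct s t A W + if Cr s t W e then 1 else 0 := by
  unfold ct
  rw [filter_insert]
  split_ifs with h1
  · rw [card_insert_of_notMem]
    intro h2
    exact h (mem_filter.1 h2).1
  · rfl

theorem ct_eq_sum (A : Finset E) (W : Finset V) :
    ct s t A W = ∑ e ∈ A, if Cr s t W e then 1 else 0 := by
  unfold ct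
  rw [card_filter]

theorem ct_empty (W : Finset V) : ct s t (∅ : Finset E) W = 0 := by
  unfold ct
  simp

theorem cr_singleton {v : V} {e : E} :
    Cr s t {v} e ↔ (s e = v ∧ t e ≠ v) ∨ (s e ≠ v ∧ t e = v) := by
  unfold Cr
  simp only [mem_singleton]

/-- parity: the number of crossing edges is the sum of the degrees modulo 2 -/
theorem ct_parity (A : Finset E) (W : Finset V) :
    (ct s t A W : ZMod 2) = ∑ v ∈ W, (ct s t A {v} : ZMod 2) := by
  simp only [ct_eq_sum, Nat.cast_sum]
  rw [sum_comm]
  refine sum_congr rfl fun e _ => ?_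
  have h1 : ∀ v, ((if Cr s t {v} e then 1 else 0 : ℕ) : ZMod 2) =
      (if v = s e then 1 else 0) + (if v = t e then 1 else 0) := by
    intro v
    by_cases h2 : v = s e
    · by_cases h3 : v = t e
      · have : ¬ Cr s t {v} e := by
          rw [cr_singleton, ← h2, ← h3]
          simp
        rw [if_neg this, if_pos h2, if_pos h3]
        norm_num
        decide
      · have : Cr s t {v} e := by
          rw [cr_singleton, ← h2]
          left
          exact ⟨rfl, fun h => h3 h.symm⟩
        rw [if_pos this, if_pos h2, if_neg h3]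
        norm_num
    · by_cases h3 : v = t e
      · have : Cr s t {v} e := by
          rw [cr_singleton, ← h3]
          right
          exact ⟨fun h => h2 h.symm, rfl⟩
        rw [if_pos this, if_neg h2, if_pos h3]
        norm_num
      · have : ¬ Cr s t {v} e := by
          rw [cr_singleton]
          rintro (h | h)
          · exact h2 h.1.symm
          · exact h3 h.2.symm
        rw [if_neg this, if_neg h2, if_neg h3]
        norm_num
  simp only [h1, sum_add_distrib, sum_ite_eq']
  unfold Cr
  by_cases h2 : s e ∈ W <;> by_cases h3 : t e ∈ W <;> simp [h2, h3]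
  decide

theorem Bd.par {A : Finset E} {p q : V} (h : Bd s t A p q) (W : Finset V) :
    (ct s t A W : ZMod 2) = (if p ∈ W then 1 else 0) + (if q ∈ W then 1 else 0) := by
  rw [ct_parity]
  simp only [h _, sum_add_distrib, sum_ite_eq']

/-- complement inside `N` -/
theorem ct_compl {N : Finset V} {A : Finset E} (h : ∀ e ∈ A, s e ∈ N ∧ t e ∈ N) (W : Finset V) :
    ct s t A (N \ W) = ct s t A W := by
  unfold ct
  congr 1
  ext e
  simp only [mem_filter, Cr, mem_sdiff]
  constructor
  · rintro ⟨he, h1⟩
    refine ⟨he, ?_⟩
    have := h e he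
    tauto
  · rintro ⟨he, h1⟩
    refine ⟨he, ?_⟩
    have := h e he
    tauto

theorem odd_iff_zmod {n : ℕ} : Odd n ↔ (n : ZMod 2) = 1 := by
  rw [ZMod.natCast_eq_one_iff_odd]

theorem even_iff_zmod {n : ℕ} : Even n ↔ (n : ZMod 2) = 0 := by
  rw [ZMod.natCast_eq_zero_iff_even]

end ThmQ
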