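import Pool.Agent.Lib.ThmQ.Basic

/-! # Theorem Q: edges crossing `Y`, parity of the value -/

set_option autoImplicit false

namespace ThmQ

open Finset Classical

variable {V E : Type*} {s t : E → V}

/-! ## edges crossing `Y` -/

/-- the end in `Y` of an edge crossing `Y` -/
noncomputable def ye (s t : E → V) (Y : Finset V) (e : E) : V := if s e ∈ Y then s e else t e

/-- the end outside `Y` of an edge crossing `Y` -/
noncomputable def oe (s t : E → V) (Y : Finset V) (e : E) : V := if s e ∈ Y then t e else s e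

theorem ye_mem {Y : Finset V} {e : E} (h : Cr s t Y e) : ye s t Y e ∈ Y := by
  unfold ye
  rcases h with h | h
  · rw [if_pos h.1]; exact h.1
  · rw [if_neg h.1]; exact h.2

theorem oe_mem {Y : Finset V} {e : E} (h : Cr s t Y e) : oe s t Y e ∉ Y := by
  unfold oe
  rcases h with h | h
  · rw [if_pos h.1]; exact h.2
  · rw [if_neg h.1]; exact h.1

theorem cr_yo (Y W : Finset V) (e : E) : Cr s t W e ↔
    (ye s t Y e ∈ W ∧ oe s t Y e ∉ W) ∨ (ye s t Y e ∉ W ∧ oe s t Y e ∈ W) := by
  unfold Cr ye oe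
  by_cases h : s e ∈ Y
  · rw [if_pos h, if_pos h]
  · rw [if_neg h, if_neg h]
    tauto

/-- number of edges of `C` whose end in `Y` lies in `W` -/
noncomputable def cY (s t : E → V) (Y : Finset V) (C : Finset E) (W : Finset V) : ℕ :=
  (C.filter fun e => ye s t Y e ∈ W).card

/-- number of edges of `C` whose end outside `Y` lies in `W` -/
noncomputable def cO (s t : E → V) (Y : Finset V) (C : Finset E) (W : Finset V) : ℕ :=
  (C.filter fun e => oe s t Y e ∈ W).card

theorem cY_le (Y : Finset V) (C : Finset E) (W : Finset V) :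
    cY s t Y C W ≤ ct s t C W + cO s t Y C W := by
  unfold cY cO ct
  rw [card_filter, card_filter, card_filter, ← sum_add_distrib]
  refine sum_le_sum fun e _ => ?_
  rw [if_congr (cr_yo Y W e) rfl rfl]
  by_cases h1 : ye s t Y e ∈ W <;> by_cases h2 : oe s t Y e ∈ W <;> simp [h1, h2]

theorem cO_le (Y : Finset V) (C : Finset E) (W : Finset V) :
    cO s t Y C W ≤ ct s t C W + cY s t Y C W := by
  unfold cY cO ct
  rw [card_filter, card_filter, card_filter, ← sum_add_distrib]
  refine sum_le_sum fun e _ => ?_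
  rw [if_congr (cr_yo Y W e) rfl rfl]
  by_cases h1 : ye s t Y e ∈ W <;> by_cases h2 : oe s t Y e ∈ W <;> simp [h1, h2]

theorem ctC_inter {Y : Finset V} {C : Finset E} (hC : ∀ e ∈ C, Cr s t Y e) (W : Finset V) :
    ct s t C (W ∩ Y) = cY s t Y C W := by
  unfold cY ct
  congr 1
  ext e
  simp only [mem_filter]
  constructor
  · rintro ⟨he, h⟩
    refine ⟨he, ?_⟩
    rw [cr_yo Y] at h
    have h1 := ye_mem (hC e he)
    have h2 := oe_mem (hC e he)
    simp only [mem_inter] at h
    tauto
  · rintro ⟨he, h⟩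
    refine ⟨he, ?_⟩
    rw [cr_yo Y]
    have h1 := ye_mem (hC e he)
    have h2 := oe_mem (hC e he)
    simp only [mem_inter]
    tauto

theorem ctC_union {Y : Finset V} {C : Finset E} (hC : ∀ e ∈ C, Cr s t Y e) (W : Finset V) :
    ct s t C (W ∪ Y) + cO s t Y C W = C.card := by
  unfold cO ct
  rw [card_filter, card_filter, ← sum_add_distrib, card_eq_sum_ones]
  refine sum_congr rfl fun e he => ?_
  rw [if_congr (cr_yo Y _ e) rfl rfl]
  have h1 := ye_mem (hC e he)
  have h2 := oe_mem (hC e he)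
  by_cases h3 : oe s t Y e ∈ W <;> simp [h1, h2, h3]

theorem ctC_sdiff {Y : Finset V} {C : Finset E} (hC : ∀ e ∈ C, Cr s t Y e) (W : Finset V) :
    ct s t C (W \ Y) = cO s t Y C W := by
  unfold cO ct
  congr 1
  ext e
  simp only [mem_filter]
  constructor
  · rintro ⟨he, h⟩
    refine ⟨he, ?_⟩
    rw [cr_yo Y] at h
    have h1 := ye_mem (hC e he)
    have h2 := oe_mem (hC e he)
    simp only [mem_sdiff] at h
    tauto
  · rintro ⟨he, h⟩
    refine ⟨he, ?_⟩
    rw [cr_yo Y]
    have h1 := ye_mem (hC e he)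
    have h2 := oe_mem (hC e he)
    simp only [mem_sdiff]
    tauto

theorem cY_compl {Y N : Finset V} {C : Finset E} (hC : ∀ e ∈ C, Cr s t Y e) (hYN : Y ⊆ N)
    (W : Finset V) : cY s t Y C (N \ W) + cY s t Y C W = C.card := by
  unfold cY
  rw [card_filter, card_filter, ← sum_add_distrib, card_eq_sum_ones]
  refine sum_congr rfl fun e he => ?_
  have h1 := hYN (ye_mem (hC e he))
  by_cases h3 : ye s t Y e ∈ W <;> simp [h1, h3]

/-- edges inside `Y` -/
theorem ct_inn {Y : Finset V} {A : Finset E} (hA : ∀ e ∈ A, s e ∈ Y ∧ t e ∈ Y) (W : Finset V) :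
    ct s t A (W ∩ Y) = ct s t A W ∧ ct s t A (W ∪ Y) = 0 ∧ ct s t A (W \ Y) = 0 := by
  unfold ct
  refine ⟨?_, ?_, ?_⟩
  · congr 1
    ext e
    simp only [mem_filter, Cr, mem_inter]
    constructor
    · rintro ⟨he, h⟩
      have := hA e he
      exact ⟨he, by tauto⟩
    · rintro ⟨he, h⟩
      have := hA e he
      exact ⟨he, by tauto⟩
  · rw [card_eq_zero, filter_eq_empty_iff]
    intro e he
    have := hA e he
    simp only [Cr, mem_union]
    tauto
  · rw [card_eq_zero, filter_eq_empty_iff]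
    intro e he
    have := hA e he
    simp only [Cr, mem_sdiff]
    tauto

/-- edges outside `Y` -/
theorem ct_outt {Y : Finset V} {A : Finset E} (hA : ∀ e ∈ A, s e ∉ Y ∧ t e ∉ Y) (W : Finset V) :
    ct s t A (W ∩ Y) = 0 ∧ ct s t A (W ∪ Y) = ct s t A W ∧ ct s t A (W \ Y) = ct s t A W := by
  unfold ct
  refine ⟨?_, ?_, ?_⟩
  · rw [card_eq_zero, filter_eq_empty_iff]
    intro e he
    have := hA e he
    simp only [Cr, mem_inter]
    tauto
  · congr 1
    ext e
    simp only [mem_filter, Cr, mem_union]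
    constructor
    · rintro ⟨he, h⟩
      have := hA e he
      exact ⟨he, by tauto⟩
    · rintro ⟨he, h⟩
      have := hA e he
      exact ⟨he, by tauto⟩
  · congr 1
    ext e
    simp only [mem_filter, Cr, mem_sdiff]
    constructor
    · rintro ⟨he, h⟩
      have := hA e he
      exact ⟨he, by tauto⟩
    · rintro ⟨he, h⟩
      have := hA e he
      exact ⟨he, by tauto⟩

/-- parity of the value -/
theorem vl_parity (A : Finset E) (ρ : V → ℕ) (z : V) (W : Finset V) :
    (vl s t A ρ z W : ZMod 2) =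
      ∑ v ∈ W, ((ct s t A {v} : ZMod 2) + (ρ v : ZMod 2) + (if v = z then 1 else 0)) := by
  unfold vl
  push_cast
  rw [ct_parity, sum_add_distrib, sum_add_distrib]
  congr 1
  rw [sum_ite_eq' W z (fun _ => (1 : ZMod 2))]

theorem vl_union_par {A : Finset E} {ρ : V → ℕ} {z : V} {X Y : Finset V} (h : Disjoint X Y) :
    (vl s t A ρ z (X ∪ Y) : ZMod 2) = (vl s t A ρ z X : ZMod 2) + (vl s t A ρ z Y : ZMod 2) := by
  rw [vl_parity, vl_parity, vl_parity, sum_union h]

/-- `f_Q` and `d` have the same parity -/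
theorem vl_Q_par {es Q : Finset E} (hQ : Q ⊆ es) {w1 w : V} (hb : Bd s t Q w1 w) (ρ : V → ℕ)
    (W : Finset V) : (vl s t (es \ Q) ρ w W : ZMod 2) = (vl s t es ρ w1 W : ZMod 2) := by
  have h1 := ct_sdiff (s := s) (t := t) hQ W
  have h2 := hb.par W
  unfold vl
  rw [← h1]
  push_cast
  rw [h2]
  by_cases h3 : w1 ∈ W <;> by_cases h4 : w ∈ W <;> simp [h3, h4] <;> ring_nf <;>
    (try (have h5 : (2 : ZMod 2) = 0 := by decide
          simp [h5]))

end ThmQ
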