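import Pool.Agent.Lib.ThmQ.Forest
import Pool.Agent.Lib.ThmQ.Cut

/-! # Theorem Q: case A -/

set_option autoImplicit false

namespace ThmQ

open Finset Classical

variable {V E : Type*} {s t : E → V}

theorem caseA {N : Finset V} {es : Finset E} {ρ : V → ℕ} {w1 : V} {T : Finset V} {φ : E}
    (hI : Inst s t N es ρ w1 T φ) (hIH : IH V E es.card) {Q : Finset E} {w : V}
    (hS : St s t N es ρ w1 T φ Q w) (hac : Acyc s t Q) (hwT : w ∉ T) {Y : Finset V} (hYN : Y ⊆ N)
    (hYo : Odd (vl s t es ρ w1 Y)) (hwY : w ∈ Y) (hY3 : vl s t (es \ Q) ρ w Y = 3)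
    (hR : ∀ Ω : Finset V, w ∈ Ω →
      (∀ e ∈ es, e ≠ φ → s e ∈ Y → t e ∈ Y → ¬ Cr s t Ω e) →
      ∃ e ∈ es, e ∉ Q ∧ ((s e ∈ Y ∧ s e ∈ Ω ∧ t e ∉ Y) ∨ (t e ∈ Y ∧ t e ∈ Ω ∧ s e ∉ Y))) :
    ∃ P u, Sol s t N es ρ w1 T φ P u := by
  -- the pieces of the edge set
  set inn : Finset E := es.filter fun e => s e ∈ Y ∧ t e ∈ Y with hinn
  set C : Finset E := (es \ Q).filter fun e => Cr s t Y e with hCd
  set o : Finset E := (es \ Q).filter fun e => s e ∉ Y ∧ t e ∉ Y with hod
  set A : Finset E := Q ∪ inn with hAd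
  have hCY : ∀ e ∈ C, Cr s t Y e := fun e he => (mem_filter.1 he).2
  have hinnY : ∀ e ∈ inn, s e ∈ Y ∧ t e ∈ Y := fun e he => (mem_filter.1 he).2
  have hoY : ∀ e ∈ o, s e ∉ Y ∧ t e ∉ Y := fun e he => (mem_filter.1 he).2
  have hAes : A ⊆ es := union_subset hS.sub (filter_subset _ _)
  have hsplit : es = A ∪ (C ∪ o) := by
    ext e
    simp only [hAd, hinn, hCd, hod, mem_union, mem_filter, mem_sdiff, Cr]
    have := @hS.sub e
    tauto
  have hdisCo : Disjoint C o := by
    rw [disjoint_left]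
    intro e h1 h2
    have h3 := hCY e h1
    have h4 := hoY e h2
    unfold Cr at h3
    tauto
  have hdisA : Disjoint A (C ∪ o) := by
    rw [disjoint_left]
    intro e h1 h2
    simp only [hAd, hinn, hCd, hod, mem_union, mem_filter, mem_sdiff, Cr] at h1 h2
    tauto
  -- `es \ P` for `P ⊆ A`
  have hPsplit : ∀ P ⊆ A, ∀ W, ct s t (es \ P) W = ct s t (A \ P) W + ct s t C W + ct s t o W := by
    intro P hP W
    have h1 : es \ P = (A \ P) ∪ (C ∪ o) := by
      have h2 : (C ∪ o) \ P = C ∪ o := by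
        rw [Finset.sdiff_eq_self_iff_disjoint]
        exact (hdisA.mono_left hP).symm
      conv_lhs => rw [hsplit]
      rw [union_sdiff_distrib, h2]
    rw [h1, ct_union (hdisA.mono_left sdiff_subset), ct_union hdisCo]
    ring
  have hAQ : A \ Q ⊆ inn := by
    intro e he
    simp only [hAd, mem_sdiff, mem_union] at he
    tauto
  have hAQY : ∀ e ∈ A \ Q, s e ∈ Y ∧ t e ∈ Y := fun e he => hinnY e (hAQ he)
  have hQA : Q ⊆ A := subset_union_left
  -- the root weights of the new instance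
  set ρ' : V → ℕ := fun v => if v ∈ Y then ρ v + cY s t Y C {v} else 0 with hρ'
  have hcY1 : ∀ W : Finset V, ∑ v ∈ W ∩ Y, cY s t Y C {v} = cY s t Y C W := by
    intro W
    unfold cY
    simp only [card_filter]
    rw [sum_comm]
    refine sum_congr rfl fun e he => ?_
    have h1 := ye_mem (hCY e he)
    simp only [mem_singleton]
    rw [sum_ite_eq (W ∩ Y) (ye s t Y e) (fun _ => 1)]
    by_cases h2 : ye s t Y e ∈ W
    · rw [if_pos (mem_inter.2 ⟨h2, h1⟩), if_pos h2]
    · rw [if_neg (fun h => h2 (mem_inter.1 h).1), if_neg h2]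
  have hρs : ∀ W : Finset V, ∑ v ∈ W, ρ' v = ∑ v ∈ W ∩ Y, ρ v + cY s t Y C W := by
    intro W
    rw [← hcY1, ← sum_add_distrib, hρ']
    rw [← sum_filter]
    exact sum_congr (by ext v; simp only [mem_filter, mem_inter]) fun _ _ => rfl
  -- the values for subsets of `Y` and for `Y`
  have hfI : ∀ W : Finset V, vl s t (es \ Q) ρ w (W ∩ Y) =
      ct s t (A \ Q) W + cY s t Y C W + ∑ v ∈ W ∩ Y, ρ v + (if w ∈ W then 1 else 0) := by
    intro W
    unfold vl
    rw [hPsplit Q hQA, (ct_inn hAQY W).1, ctC_inter hCY, (ct_outt hoY W).1]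
    have : w ∈ W ∩ Y ↔ w ∈ W := by
      rw [mem_inter]
      exact ⟨fun h => h.1, fun h => ⟨h, hwY⟩⟩
    rw [if_congr this rfl rfl]
    ring
  have hfU : ∀ W : Finset V, vl s t (es \ Q) ρ w (W ∪ Y) + cO s t Y C W =
      C.card + ct s t o W + ∑ v ∈ W \ Y, ρ v + ∑ v ∈ Y, ρ v + 1 := by
    intro W
    unfold vl
    rw [hPsplit Q hQA, (ct_inn hAQY W).2.1, (ct_outt hoY W).2.1, if_pos (mem_union_right _ hwY)]
    have h1 := ctC_union hCY W
    have h2 : ∑ v ∈ W ∪ Y, ρ v = ∑ v ∈ W \ Y, ρ v + ∑ v ∈ Y, ρ v := by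
      rw [← sum_union sdiff_disjoint, sdiff_union_self_eq_union]
    omega
  have hfD : ∀ W : Finset V, vl s t (es \ Q) ρ w (W \ Y) =
      cO s t Y C W + ct s t o W + ∑ v ∈ W \ Y, ρ v := by
    intro W
    unfold vl
    rw [hPsplit Q hQA, (ct_inn hAQY W).2.2, (ct_outt hoY W).2.2, ctC_sdiff hCY,
      if_neg (fun h => (mem_sdiff.1 h).2 hwY)]
    ring
  have hcard : C.card + ∑ v ∈ Y, ρ v = 2 := by
    have h1 := hfU ∅
    have h2 : cO s t Y C (∅ : Finset V) = 0 := by
      unfold cO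
      simp
    have h3 : ct s t o (∅ : Finset V) = 0 := by
      unfold ct Cr
      simp
    rw [empty_union, hY3, h2, h3] at h1
    simp only [empty_sdiff, sum_empty] at h1
    omega
  -- parity
  have hpQ := vl_Q_par hS.sub hS.bd ρ
  have hparQ := hS.bd.par
  -- (★)
  have hstar : ∀ Z : Finset V, vl s t A ρ' w1 Z + (if w ∈ Z then 1 else 0) =
      ct s t Q Z + (if w1 ∈ Z then 1 else 0) + vl s t (es \ Q) ρ w (Z ∩ Y) := by
    intro Z
    rw [hfI]
    unfold vl
    rw [hρs, ← ct_sdiff hQA Z]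
    ring
  have hgeneral : ∀ Z ⊆ N, (Odd (vl s t A ρ' w1 Z) ↔ Odd (vl s t es ρ w1 (Z ∩ Y))) ∧
      vl s t (es \ Q) ρ w (Z ∩ Y) ≤ vl s t A ρ' w1 Z ∧
      (w ∉ Z → vl s t (es \ Q) ρ w (Z ∩ Y) + 2 ≤ vl s t A ρ' w1 Z ∨
        vl s t A ρ' w1 Z = vl s t es ρ w1 (Z ∩ Y)) := by
    intro Z hZ
    have h1 := hstar Z
    have h2 : (ct s t Q Z : ZMod 2) = (if w1 ∈ Z then 1 else 0) + (if w ∈ Z then 1 else 0) :=
      hparQ Z
    have hp : (vl s t A ρ' w1 Z : ZMod 2) = (vl s t es ρ w1 (Z ∩ Y) : ZMod 2) := by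
      rw [← hpQ (Z ∩ Y)]
      have h3 : ((vl s t A ρ' w1 Z + (if w ∈ Z then 1 else 0) : ℕ) : ZMod 2) =
          ((ct s t Q Z + (if w1 ∈ Z then 1 else 0) + vl s t (es \ Q) ρ w (Z ∩ Y) : ℕ) : ZMod 2) := by
        rw [h1]
      push_cast at h3
      rw [h2] at h3
      have h5 : (2 : ZMod 2) = 0 := by decide
      by_cases h6 : w1 ∈ Z <;> by_cases h7 : w ∈ Z <;> simp only [h6, h7, if_true, if_false] at h3
      · linear_combination h3 + h5
      · linear_combination h3 + h5
      · linear_combination h3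
      · linear_combination h3
    refine ⟨by rw [odd_iff_zmod, odd_iff_zmod, hp], ?_, ?_⟩
    · by_cases h7 : w ∈ Z
      · rw [if_pos h7] at h1 h2
        by_cases h6 : w1 ∈ Z
        · rw [if_pos h6] at h1
          omega
        · rw [if_neg h6] at h1 h2
          have h8 : Odd (ct s t Q Z) := by
            rw [odd_iff_zmod, h2]
            norm_num
          have := h8.pos
          omega
      · rw [if_neg h7] at h1
        omega
    · intro h7
      rw [if_neg h7] at h1 h2
      by_cases h6 : w1 ∈ Z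
      · rw [if_pos h6] at h1 h2
        have h8 : Odd (ct s t Q Z) := by
          rw [odd_iff_zmod, h2]
          norm_num
        have := h8.pos
        left
        omega
      · rw [if_neg h6] at h1 h2
        have h8 : Even (ct s t Q Z) := by
          rw [even_iff_zmod, h2]
          norm_num
        rcases Nat.eq_zero_or_pos (ct s t Q Z) with h9 | h9
        · right
          have hun := hac.untouched hS.bd h6 h7 h9
          have h10 : ct s t Q (Z ∩ Y) = 0 := by
            unfold ct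
            rw [card_eq_zero, filter_eq_empty_iff]
            intro e he
            have := hun e he
            simp only [Cr, mem_inter]
            tauto
          have h11 := ct_sdiff (s := s) (t := t) hS.sub (Z ∩ Y)
          have h12 : vl s t (es \ Q) ρ w (Z ∩ Y) = vl s t es ρ w1 (Z ∩ Y) := by
            unfold vl
            rw [if_neg (fun h => h7 (mem_inter.1 h).1), if_neg (fun h => h6 (mem_inter.1 h).1)]
            omega
          omega
        · left
          obtain ⟨k, hk⟩ := h8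
          omega
  have hIY : ∀ Z ⊆ N, Z ∩ Y ⊆ N := fun Z hZ => inter_subset_left.trans hZ
  have hL3 : ∀ W ⊆ N, Odd (vl s t A ρ' w1 W) → 3 ≤ vl s t A ρ' w1 W := by
    intro W hW ho
    obtain ⟨h1, h2, _⟩ := hgeneral W hW
    exact (hS.V1 _ (hIY W hW) (h1.1 ho)).trans h2
  have hL5 : ∀ W ⊆ N, Odd (vl s t A ρ' w1 W) → Disjoint W (T ∩ Y) → 5 ≤ vl s t A ρ' w1 W := by
    intro W hW ho hd
    obtain ⟨h1, h2, h3⟩ := hgeneral W hW
    have hd' : Disjoint (W ∩ Y) T := by
      rw [disjoint_left] at hd ⊢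
      intro v hv hvT
      exact hd (mem_inter.1 hv).1 (mem_inter.2 ⟨hvT, (mem_inter.1 hv).2⟩)
    by_cases h7 : w ∈ W
    · exact (hS.V2 _ (hIY W hW) (h1.1 ho) hd' (mem_inter.2 ⟨h7, hwY⟩)).trans h2
    · rcases h3 h7 with h4 | h4
      · have := hS.V1 _ (hIY W hW) (h1.1 ho)
        omega
      · rw [h4]
        exact hI.L5 _ (hIY W hW) (h1.1 ho) hd'
  have hends : ∀ e ∈ A, s e ∈ N ∧ t e ∈ N := fun e he => hI.ends e (hAes he)
  have hsumY : ∀ W : Finset V, ∑ v ∈ W ∩ Y, ρ v + ∑ v ∈ Y \ W, ρ v = ∑ v ∈ Y, ρ v := by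
    intro W
    rw [inter_comm, ← sum_union (disjoint_sdiff_inter Y W).symm, union_comm,
      sdiff_union_inter]
  have hNW : ∀ W : Finset V, (N \ W) ∩ Y = Y \ W := by
    intro W
    ext v
    simp only [mem_inter, mem_sdiff]
    have := @hYN v
    tauto
  have hE : ∀ Ω ⊆ N, w1 ∈ Ω → Disjoint Ω (T ∩ Y) → ∃ e ∈ A, e ≠ φ ∧ Cr s t Ω e := by
    intro Ω hΩN hw1 hd
    by_contra hcon
    push Not at hcon
    have h0 : ct s t Q Ω = 0 := by
      unfold ct
      rw [card_eq_zero, filter_eq_empty_iff]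
      intro e he
      exact hcon e (hQA he) (fun h => hS.phi (h ▸ he))
    have hwΩ : w ∈ Ω := by
      by_contra h
      have h2 := hparQ Ω
      rw [h0, if_pos hw1, if_neg h] at h2
      norm_num at h2
    obtain ⟨e, he, heQ, h1⟩ := hR Ω hwΩ (by
      intro e he hne hs ht
      exact hcon e (mem_union_right _ (mem_filter.2 ⟨he, hs, ht⟩)) hne)
    have heC : e ∈ C := by
      refine mem_filter.2 ⟨mem_sdiff.2 ⟨he, heQ⟩, ?_⟩
      unfold Cr
      tauto
    have hcYpos : 0 < cY s t Y C Ω := by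
      unfold cY
      rw [card_pos]
      refine ⟨e, mem_filter.2 ⟨heC, ?_⟩⟩
      unfold ye
      rcases h1 with h1 | h1
      · rw [if_pos h1.1]; exact h1.2.1
      · rw [if_neg h1.2.2]; exact h1.2.1
    have hle1 : ct s t A Ω ≤ 1 := by
      unfold ct
      rw [card_le_one]
      intro a ha b hb
      rw [mem_filter] at ha hb
      have h2 : a = φ := by
        by_contra h
        exact hcon a ha.1 h ha.2
      have h3 : b = φ := by
        by_contra h
        exact hcon b hb.1 h hb.2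
      rw [h2, h3]
    have hv1 : vl s t A ρ' w1 Ω = ct s t A Ω + (∑ v ∈ Ω ∩ Y, ρ v + cY s t Y C Ω) + 1 := by
      unfold vl
      rw [hρs, if_pos hw1]
    have hv2 : vl s t A ρ' w1 (N \ Ω) = ct s t A Ω + (∑ v ∈ Y \ Ω, ρ v + cY s t Y C (N \ Ω)) := by
      unfold vl
      rw [hρs, if_neg (fun h => (mem_sdiff.1 h).2 hw1), ct_compl hends, hNW]
      ring
    have h2 := hsumY Ω
    have h3 := cY_compl hCY hYN Ω
    by_cases ho : Odd (vl s t A ρ' w1 Ω)
    · have := hL5 Ω hΩN ho hd
      omega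
    · rw [Nat.not_odd_iff_even] at ho
      have ho2 : Odd (vl s t A ρ' w1 (N \ Ω)) := by
        obtain ⟨k, hk⟩ := ho
        rw [Nat.odd_iff]
        omega
      have := hL3 (N \ Ω) sdiff_subset ho2
      omega
  -- the induction hypothesis
  have hcardA : A.card < es.card := by
    refine card_lt_card ⟨hAes, fun h => ?_⟩
    obtain ⟨e, he, heQ, h1⟩ := hR Y hwY (by
      intro e _ _ hs ht
      unfold Cr
      tauto)
    have h2 := h he
    rw [hAd, mem_union, hinn, mem_filter] at h2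
    tauto
  have hInst : Inst s t N A ρ' w1 (T ∩ Y) φ := by
    refine ⟨hends, hI.w1N, inter_subset_left.trans hI.TN, ?_, hL3, hL5, hE⟩
    intro h
    rw [hAd, mem_union] at h
    rcases h with h | h
    · exact absurd h hS.phi
    · have h1 := hinnY _ h
      have h2 := hI.phi (mem_filter.1 h).1
      rw [mem_inter, mem_inter]
      tauto
  obtain ⟨P, u, hP⟩ := hIH s t N A ρ' w1 (T ∩ Y) φ hcardA hInst
  have huY : u ∈ Y := (mem_inter.1 hP.uT).2
  have huN : u ∈ N := hYN huY
  refine ⟨P, u, hP.sub.trans hAes, hP.phi, (mem_inter.1 hP.uT).1, hP.bd, ?_, ?_⟩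
  · -- touch
    intro v hv
    by_cases hvY : v ∈ Y
    · exact hP.touch v (mem_inter.2 ⟨hv, hvY⟩)
    · have h1 : v ≠ u := fun h => hvY (h ▸ huY)
      rw [if_neg (fun h => h1 h.1)]
      have h2 : ct s t P {v} ≤ ct s t A {v} := ct_mono hP.sub _
      have h3 := ct_sdiff (s := s) (t := t) hQA {v}
      have h4 : ct s t Q {v} = 0 := by
        rw [hS.touch v hv, if_neg]
        rintro ⟨h5, _⟩
        exact hwT (h5 ▸ hv)
      have h5 : ct s t (A \ Q) {v} = 0 := by
        unfold ct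
        rw [card_eq_zero, filter_eq_empty_iff]
        intro e he
        have := hAQY e he
        rw [cr_singleton]
        rintro (h | h)
        · exact hvY (h.1 ▸ this.1)
        · exact hvY (h.2 ▸ this.2)
      omega
  · -- the value
    intro W hW ho
    have hval : vl s t (es \ P) ρ u W = ct s t (A \ P) W + ct s t C W + ct s t o W +
        (∑ v ∈ W ∩ Y, ρ v + ∑ v ∈ W \ Y, ρ v) + (if u ∈ W then 1 else 0) := by
      unfold vl
      rw [hPsplit P hP.sub, ← sum_union (disjoint_sdiff_inter W Y).symm, union_comm,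
        sdiff_union_inter]
    have hW1 : (vl s t es ρ w1 W : ZMod 2) =
        (vl s t es ρ w1 (W ∩ Y) : ZMod 2) + (vl s t es ρ w1 (W \ Y) : ZMod 2) := by
      rw [← vl_union_par (disjoint_sdiff_inter W Y).symm, union_comm, sdiff_union_inter]
    have hY1 : (vl s t es ρ w1 Y : ZMod 2) =
        (vl s t es ρ w1 (W ∩ Y) : ZMod 2) + (vl s t es ρ w1 (Y \ W) : ZMod 2) := by
      rw [inter_comm, ← vl_union_par (disjoint_sdiff_inter Y W).symm, union_comm,
        sdiff_union_inter]
    have h5 : (2 : ZMod 2) = 0 := by decide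
    rw [odd_iff_zmod] at ho hYo
    by_cases hX : Odd (vl s t es ρ w1 (W ∩ Y))
    · -- `W ∩ Y` odd
      have h1 := hP.val W hW ((hgeneral W hW).1.2 hX)
      have hU : Odd (vl s t es ρ w1 (W ∪ Y)) := by
        rw [odd_iff_zmod, ← sdiff_union_self_eq_union, vl_union_par sdiff_disjoint]
        rw [odd_iff_zmod] at hX
        rw [hX, ho] at hW1
        linear_combination hYo - hW1
      have h2 := hS.V1 (W ∪ Y) (union_subset hW hYN) hU
      have h3 := hfU W
      have h4 : vl s t (A \ P) ρ' u W = ct s t (A \ P) W +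
          (∑ v ∈ W ∩ Y, ρ v + cY s t Y C W) + (if u ∈ W then 1 else 0) := by
        unfold vl
        rw [hρs]
      have h6 := cY_le (s := s) (t := t) Y C W
      rw [hval]
      omega
    · -- `W ∩ Y` even
      rw [Nat.not_odd_iff_even, even_iff_zmod] at hX
      have hNWo : Odd (vl s t es ρ w1 ((N \ W) ∩ Y)) := by
        rw [hNW, odd_iff_zmod]
        rw [hX, hYo] at hY1
        linear_combination -hY1
      have hDo : Odd (vl s t es ρ w1 (W \ Y)) := by
        rw [odd_iff_zmod]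
        rw [hX, ho] at hW1
        linear_combination -hW1
      have h1 := hP.val (N \ W) sdiff_subset ((hgeneral _ sdiff_subset).1.2 hNWo)
      have h2 := hS.V1 (W \ Y) (sdiff_subset.trans hW) hDo
      have h3 := hfD W
      have h4 : vl s t (A \ P) ρ' u (N \ W) = ct s t (A \ P) W +
          (∑ v ∈ Y \ W, ρ v + cY s t Y C (N \ W)) + (if u ∈ W then 0 else 1) := by
        unfold vl
        rw [hρs, hNW, ct_compl (fun e he => hends e (mem_sdiff.1 he).1)]
        congr 1
        by_cases h7 : u ∈ W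
        · rw [if_neg (fun h => (mem_sdiff.1 h).2 h7), if_pos h7]
        · rw [if_pos (mem_sdiff.2 ⟨huN, h7⟩), if_neg h7]
      have h6 := cO_le (s := s) (t := t) Y C W
      have h7 := cY_compl hCY hYN W
      have h8 := hsumY W
      rw [hval]
      by_cases h9 : u ∈ W
      · rw [if_pos h9] at h4 ⊢
        omega
      · rw [if_neg h9] at h4 ⊢
        omega

end ThmQ
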