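import Pool.Agent.Lib.ThmQ.Forest

/-! # Theorem Q: case C -/

set_option autoImplicit false

namespace ThmQ

open Finset Classical

variable {V E : Type*} {s t : E → V}

private lemma c_congr {A : Finset E} {W W' : Finset V}
    (h : ∀ e ∈ A, (Cr s t W e ↔ Cr s t W' e)) : ct s t A W = ct s t A W' := by
  unfold ct
  congr 1
  ext e
  simp only [mem_filter]
  constructor
  · rintro ⟨h1, h2⟩
    exact ⟨h1, (h e h1).1 h2⟩
  · rintro ⟨h1, h2⟩
    exact ⟨h1, (h e h1).2 h2⟩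

private lemma c_zero {A : Finset E} {W : Finset V} (h : ∀ e ∈ A, ¬ Cr s t W e) :
    ct s t A W = 0 := by
  unfold ct
  rw [card_eq_zero, filter_eq_empty_iff]
  exact fun e he => h e he

private lemma c_pos {A : Finset E} {W : Finset V} {e : E} (he : e ∈ A) (h : Cr s t W e) :
    1 ≤ ct s t A W :=
  card_pos.2 ⟨e, mem_filter.2 ⟨he, h⟩⟩

private lemma c_notcr {A : Finset E} {W : Finset V} (h : ct s t A W = 0) {e : E} (he : e ∈ A) :
    ¬ Cr s t W e := by
  intro h1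
  have := c_pos he h1
  omega

/-- the value is additive modulo 2 -/
private lemma c_vlpar (A : Finset E) (ρ : V → ℕ) (z : V) (W : Finset V) :
    (vl s t A ρ z W : ZMod 2) =
      ∑ v ∈ W, ((ct s t A {v} : ZMod 2) + (ρ v : ZMod 2) + (if v = z then 1 else 0)) := by
  unfold vl
  push_cast
  rw [ct_parity, sum_add_distrib, sum_add_distrib]
  congr 1
  simp only [sum_ite_eq']

private lemma c_odd_union {A : Finset E} {ρ : V → ℕ} {z : V} {W Y : Finset V}
    (h1 : Odd (vl s t A ρ z W)) (h2 : Odd (vl s t A ρ z Y)) (h3 : Odd (vl s t A ρ z (W ∩ Y))) :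
    Odd (vl s t A ρ z (W ∪ Y)) := by
  rw [odd_iff_zmod, c_vlpar] at *
  have h4 := sum_union_inter (s₁ := W) (s₂ := Y)
    (f := fun v => ((ct s t A {v} : ZMod 2) + (ρ v : ZMod 2) + (if v = z then 1 else 0)))
  rw [h1, h2, h3] at h4
  have h5 : ∀ x : ZMod 2, x + 1 = 1 + 1 → x = 1 := by decide
  exact h5 _ h4

private lemma c_par_inter {A : Finset E} {ρ : V → ℕ} {z : V} (W Y : Finset V) :
    (vl s t A ρ z (W ∩ Y) : ZMod 2) + (vl s t A ρ z (W \ Y) : ZMod 2) =
      (vl s t A ρ z W : ZMod 2) := by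
  simp only [c_vlpar]
  rw [add_comm, ← sum_union]
  · rw [sdiff_union_inter]
  · rw [disjoint_left]
    intro x hx hx'
    exact (mem_sdiff.1 hx).2 (mem_inter.1 hx').2

private lemma c_odd_sdiff {A : Finset E} {ρ : V → ℕ} {z : V} {W Y : Finset V}
    (h1 : Odd (vl s t A ρ z W)) (h2 : ¬ Odd (vl s t A ρ z (W ∩ Y))) :
    Odd (vl s t A ρ z (W \ Y)) := by
  have h3 := c_par_inter (s := s) (t := t) (A := A) (ρ := ρ) (z := z) W Y
  rw [odd_iff_zmod] at *
  rw [h1] at h3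
  have h5 : ∀ x y : ZMod 2, x + y = 1 → ¬ x = 1 → y = 1 := by decide
  exact h5 _ _ h3 h2

/-- the parity of the value does not change along a state -/
private lemma c_parQ {es Q : Finset E} {w1 w : V} (ρ : V → ℕ) (hQ : Q ⊆ es)
    (hb : Bd s t Q w1 w) (W : Finset V) :
    (vl s t (es \ Q) ρ w W : ZMod 2) = (vl s t es ρ w1 W : ZMod 2) := by
  have h1 := ct_sdiff (s := s) (t := t) hQ W
  have h2 := hb.par W
  unfold vl
  rw [← h1]
  push_cast
  rw [h2]
  have h5 : ∀ a b c d : ZMod 2, a + b + d = a + (c + d) + b + c := by decide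
  exact h5 _ _ _ _

/-! crossing -/

private lemma cr_erase {Z : Finset V} {x : V} {e : E} (h1 : s e ≠ x) (h2 : t e ≠ x) :
    Cr s t (Z.erase x) e ↔ Cr s t Z e := by
  unfold Cr
  simp only [mem_erase]
  tauto

private lemma cr_compl {N W : Finset V} {e : E} (h1 : s e ∈ N) (h2 : t e ∈ N) :
    Cr s t (N \ W) e ↔ Cr s t W e := by
  unfold Cr
  simp only [mem_sdiff]
  tauto

private lemma cr_inY {Y Z W : Finset V} {e : E} (h1 : s e ∈ Y) (h2 : t e ∈ Y)
    (h : ∀ x ∈ Y, (x ∈ Z ↔ x ∈ W)) : Cr s t Z e ↔ Cr s t W e := by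
  unfold Cr
  rw [h _ h1, h _ h2]

private lemma cr_inYc {Y Z W : Finset V} {e : E} (h1 : s e ∈ Y) (h2 : t e ∈ Y)
    (h : ∀ x ∈ Y, (x ∈ Z ↔ x ∉ W)) : Cr s t Z e ↔ Cr s t W e := by
  unfold Cr
  rw [h _ h1, h _ h2]
  tauto

private lemma cr_union_out {Y W : Finset V} {e : E} (h1 : s e ∉ Y) (h2 : t e ∉ Y) :
    Cr s t (W ∪ Y) e ↔ Cr s t W e := by
  unfold Cr
  simp only [mem_union]
  tauto

private lemma cr_sdiff_out {Y W : Finset V} {e : E} (h1 : s e ∉ Y) (h2 : t e ∉ Y) :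
    Cr s t (W \ Y) e ↔ Cr s t W e := by
  unfold Cr
  simp only [mem_sdiff]
  tauto

private lemma cr_union_in {Y W : Finset V} {e : E} (h1 : s e ∈ Y) (h2 : t e ∈ Y) :
    ¬ Cr s t (W ∪ Y) e := by
  unfold Cr
  simp only [mem_union]
  tauto

private lemma cr_sdiff_in {Y W : Finset V} {e : E} (h1 : s e ∈ Y) (h2 : t e ∈ Y) :
    ¬ Cr s t (W \ Y) e := by
  unfold Cr
  simp only [mem_sdiff]
  tauto

/-! the four parts of the edge set -/

private noncomputable def pA (s t : E → V) (es : Finset E) (Y : Finset V) : Finset E :=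
  es.filter fun e => s e ∈ Y ∧ t e ∈ Y

private noncomputable def pB (s t : E → V) (Q : Finset E) (Y : Finset V) : Finset E :=
  Q.filter fun e => ¬ (s e ∈ Y ∧ t e ∈ Y)

private noncomputable def pC (s t : E → V) (es Q : Finset E) (Y : Finset V) : Finset E :=
  (es \ Q).filter (Cr s t Y)

private noncomputable def pO (s t : E → V) (es Q : Finset E) (Y : Finset V) : Finset E :=
  (es \ Q).filter fun e => s e ∉ Y ∧ t e ∉ Y

private lemma mem_pA {es : Finset E} {Y : Finset V} {e : E} :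
    e ∈ pA s t es Y ↔ e ∈ es ∧ s e ∈ Y ∧ t e ∈ Y := by
  unfold pA
  rw [mem_filter]

private lemma mem_pB {Q : Finset E} {Y : Finset V} {e : E} :
    e ∈ pB s t Q Y ↔ e ∈ Q ∧ ¬ (s e ∈ Y ∧ t e ∈ Y) := by
  unfold pB
  rw [mem_filter]

private lemma mem_pC {es Q : Finset E} {Y : Finset V} {e : E} :
    e ∈ pC s t es Q Y ↔ e ∈ es ∧ e ∉ Q ∧ Cr s t Y e := by
  unfold pC
  rw [mem_filter, mem_sdiff, and_assoc]

private lemma mem_pO {es Q : Finset E} {Y : Finset V} {e : E} :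
    e ∈ pO s t es Q Y ↔ e ∈ es ∧ e ∉ Q ∧ s e ∉ Y ∧ t e ∉ Y := by
  unfold pO
  rw [mem_filter, mem_sdiff, and_assoc]

private lemma parts {es Q : Finset E} (hQ : Q ⊆ es) (Y : Finset V) :
    es = (pA s t es Y ∪ pB s t Q Y) ∪ (pC s t es Q Y ∪ pO s t es Q Y) := by
  ext e
  simp only [mem_union, mem_pA, mem_pB, mem_pC, mem_pO, Cr]
  have := @hQ e
  by_cases h1 : s e ∈ Y <;> by_cases h2 : t e ∈ Y <;> by_cases h3 : e ∈ Q <;>
    simp only [h1, h2, h3] at this ⊢ <;> tauto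

private lemma parts_ct {es Q : Finset E} (hQ : Q ⊆ es) (Y : Finset V) (P : Finset E)
    (W : Finset V) : ct s t (es \ P) W = ct s t (pA s t es Y \ P) W + ct s t (pB s t Q Y \ P) W +
      (ct s t (pC s t es Q Y \ P) W + ct s t (pO s t es Q Y \ P) W) := by
  conv_lhs => rw [parts (s := s) (t := t) hQ Y]
  rw [union_sdiff_distrib, union_sdiff_distrib, union_sdiff_distrib, ct_union, ct_union, ct_union]
  · rw [disjoint_left]
    intro e h1 h2
    have h3 := (mem_pC.1 (mem_sdiff.1 h1).1).2.2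
    have h4 := (mem_pO.1 (mem_sdiff.1 h2).1).2.2
    unfold Cr at h3
    tauto
  · rw [disjoint_left]
    intro e h1 h2
    exact (mem_pB.1 (mem_sdiff.1 h2).1).2 (mem_pA.1 (mem_sdiff.1 h1).1).2
  · rw [disjoint_left]
    intro e h1 h2
    rcases mem_union.1 h1 with h1 | h1 <;> rcases mem_union.1 h2 with h2 | h2
    · have h3 := (mem_pA.1 (mem_sdiff.1 h1).1).2
      have h4 := (mem_pC.1 (mem_sdiff.1 h2).1).2.2
      unfold Cr at h4
      tauto
    · have h3 := (mem_pA.1 (mem_sdiff.1 h1).1).2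
      have h4 := (mem_pO.1 (mem_sdiff.1 h2).1).2.2
      tauto
    · exact (mem_pC.1 (mem_sdiff.1 h2).1).2.1 (mem_pB.1 (mem_sdiff.1 h1).1).1
    · exact (mem_pO.1 (mem_sdiff.1 h2).1).2.1 (mem_pB.1 (mem_sdiff.1 h1).1).1

/-- inner end -/
private noncomputable def inn (s t : E → V) (Y : Finset V) (e : E) : V :=
  if s e ∈ Y then s e else t e

/-- outer end -/
private noncomputable def out (s t : E → V) (Y : Finset V) (e : E) : V :=
  if s e ∈ Y then t e else s e

private lemma io {Y : Finset V} {e : E} (h : Cr s t Y e) : inn s t Y e ∈ Y ∧ out s t Y e ∉ Y ∧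
    ∀ W : Finset V, (Cr s t W e ↔ (inn s t Y e ∈ W ∧ out s t Y e ∉ W) ∨
      (inn s t Y e ∉ W ∧ out s t Y e ∈ W)) := by
  unfold inn out
  rcases h with ⟨h1, h2⟩ | ⟨h1, h2⟩
  · rw [if_pos h1, if_pos h1]
    exact ⟨h1, h2, fun W => Iff.rfl⟩
  · rw [if_neg h1, if_neg h1]
    exact ⟨h2, h1, fun W => by unfold Cr; tauto⟩

private lemma in_le {Y : Finset V} {A : Finset E} (hA : ∀ e ∈ A, Cr s t Y e) (W : Finset V) :
    (A.filter fun e => inn s t Y e ∈ W).card ≤
      ct s t A W + (A.filter fun e => out s t Y e ∈ W).card := by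
  unfold ct
  refine le_trans (card_le_card
    (t := A.filter (Cr s t W) ∪ A.filter fun e => out s t Y e ∈ W) ?_) (card_union_le _ _)
  intro e he
  obtain ⟨h1, h2⟩ := mem_filter.1 he
  rw [mem_union, mem_filter, mem_filter]
  have h3 := (io (hA e h1)).2.2 W
  by_cases h4 : out s t Y e ∈ W
  · exact Or.inr ⟨h1, h4⟩
  · exact Or.inl ⟨h1, h3.2 (Or.inl ⟨h2, h4⟩)⟩

private lemma out_le {Y : Finset V} {A : Finset E} (hA : ∀ e ∈ A, Cr s t Y e) (W : Finset V) :
    (A.filter fun e => out s t Y e ∈ W).card ≤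
      ct s t A W + (A.filter fun e => inn s t Y e ∈ W).card := by
  unfold ct
  refine le_trans (card_le_card
    (t := A.filter (Cr s t W) ∪ A.filter fun e => inn s t Y e ∈ W) ?_) (card_union_le _ _)
  intro e he
  obtain ⟨h1, h2⟩ := mem_filter.1 he
  rw [mem_union, mem_filter, mem_filter]
  have h3 := (io (hA e h1)).2.2 W
  by_cases h4 : inn s t Y e ∈ W
  · exact Or.inr ⟨h1, h4⟩
  · exact Or.inl ⟨h1, h3.2 (Or.inr ⟨h4, h2⟩)⟩

/-- crossing edges of `Z ⊆ Y`-type sets: all of them go out -/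
private lemma ct_C_in {Y Z : Finset V} {A : Finset E} (hA : ∀ e ∈ A, Cr s t Y e)
    (hZ : ∀ e ∈ A, out s t Y e ∉ Z) :
    ct s t A Z = (A.filter fun e => inn s t Y e ∈ Z).card := by
  unfold ct
  congr 1
  ext e
  rw [mem_filter, mem_filter]
  constructor
  · rintro ⟨h1, h2⟩
    rcases ((io (hA e h1)).2.2 Z).1 h2 with h3 | h3
    · exact ⟨h1, h3.1⟩
    · exact absurd h3.2 (hZ e h1)
  · rintro ⟨h1, h2⟩
    exact ⟨h1, ((io (hA e h1)).2.2 Z).2 (Or.inl ⟨h2, hZ e h1⟩)⟩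

private lemma ct_C_union {Y W : Finset V} {A : Finset E} (hA : ∀ e ∈ A, Cr s t Y e) :
    ct s t A (W ∪ Y) + (A.filter fun e => out s t Y e ∈ W).card = A.card := by
  unfold ct
  rw [← card_filter_add_card_filter_not (s := A) (p := fun e => out s t Y e ∈ W), add_comm]
  congr 1
  congr 1
  ext e
  rw [mem_filter, mem_filter]
  constructor
  · rintro ⟨h1, h2⟩
    obtain ⟨h3, h4, h5⟩ := io (hA e h1)
    refine ⟨h1, fun h6 => ?_⟩
    rcases (h5 _).1 h2 with h7 | h7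
    · exact h7.2 (mem_union_left _ h6)
    · exact h7.1 (mem_union_right _ h3)
  · rintro ⟨h1, h2⟩
    obtain ⟨h3, h4, h5⟩ := io (hA e h1)
    refine ⟨h1, (h5 _).2 (Or.inl ⟨mem_union_right _ h3, fun h6 => ?_⟩)⟩
    rcases mem_union.1 h6 with h6 | h6
    · exact h2 h6
    · exact h4 h6

private lemma ct_C_sdiff {Y W : Finset V} {A : Finset E} (hA : ∀ e ∈ A, Cr s t Y e) :
    ct s t A (W \ Y) = (A.filter fun e => out s t Y e ∈ W).card := by
  unfold ct
  congr 1
  ext e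
  rw [mem_filter, mem_filter]
  constructor
  · rintro ⟨h1, h2⟩
    obtain ⟨h3, h4, h5⟩ := io (hA e h1)
    rcases (h5 _).1 h2 with h7 | h7
    · exact absurd h3 (mem_sdiff.1 h7.1).2
    · exact ⟨h1, (mem_sdiff.1 h7.2).1⟩
  · rintro ⟨h1, h2⟩
    obtain ⟨h3, h4, h5⟩ := io (hA e h1)
    exact ⟨h1, (h5 _).2 (Or.inr ⟨fun h6 => (mem_sdiff.1 h6).2 h3, mem_sdiff.2 ⟨h2, h4⟩⟩)⟩

/-- the values of the sets `X ∪ Y` and `X \ Y` -/
private lemma vl_union {es Q : Finset E} {ρ : V → ℕ} {w : V} {Y W : Finset V} (hQ : Q ⊆ es)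
    (hwY : w ∉ Y) :
    vl s t (es \ Q) ρ w (W ∪ Y) + ((pC s t es Q Y).filter fun e => out s t Y e ∈ W).card =
      (pC s t es Q Y).card + ct s t (pO s t es Q Y) W + ∑ x ∈ Y, ρ x + ∑ x ∈ W \ Y, ρ x +
        (if w ∈ W then 1 else 0) := by
  have hC : ∀ e ∈ pC s t es Q Y, Cr s t Y e := fun e he => (mem_pC.1 he).2.2
  have h1 := parts_ct (s := s) (t := t) hQ Y Q (W ∪ Y)
  have h2 := ct_C_union (W := W) hC
  have h3 : ct s t (pA s t es Y \ Q) (W ∪ Y) = 0 :=
    c_zero fun e he => cr_union_in (mem_pA.1 (mem_sdiff.1 he).1).2.1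
      (mem_pA.1 (mem_sdiff.1 he).1).2.2
  have h4 : pB s t Q Y \ Q = ∅ := sdiff_eq_empty_iff_subset.2 fun e he => (mem_pB.1 he).1
  have h5 : pC s t es Q Y \ Q = pC s t es Q Y := by
    rw [Finset.sdiff_eq_self_iff_disjoint, disjoint_left]
    exact fun e he => (mem_pC.1 he).2.1
  have h6 : pO s t es Q Y \ Q = pO s t es Q Y := by
    rw [Finset.sdiff_eq_self_iff_disjoint, disjoint_left]
    exact fun e he => (mem_pO.1 he).2.1
  have h7 : ct s t (pO s t es Q Y) (W ∪ Y) = ct s t (pO s t es Q Y) W :=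
    c_congr fun e he => cr_union_out (mem_pO.1 he).2.2.1 (mem_pO.1 he).2.2.2
  rw [h3, h4, h5, h6, h7, ct_empty] at h1
  have h8 : ∑ x ∈ W ∪ Y, ρ x = ∑ x ∈ Y, ρ x + ∑ x ∈ W \ Y, ρ x := by
    rw [add_comm, ← sum_union, sdiff_union_self_eq_union]
    exact sdiff_disjoint
  have h9 : (if w ∈ W ∪ Y then 1 else 0) = (if w ∈ W then 1 else 0) := by
    by_cases h : w ∈ W
    · rw [if_pos h, if_pos (mem_union_left _ h)]
    · rw [if_neg h, if_neg]
      intro h'
      rcases mem_union.1 h' with h' | h'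
      · exact h h'
      · exact hwY h'
  unfold vl
  rw [h1, h8, h9]
  omega

private lemma vl_sdiff {es Q : Finset E} {ρ : V → ℕ} {w : V} {Y W : Finset V} (hQ : Q ⊆ es)
    (hwY : w ∉ Y) :
    vl s t (es \ Q) ρ w (W \ Y) = ((pC s t es Q Y).filter fun e => out s t Y e ∈ W).card +
      ct s t (pO s t es Q Y) W + ∑ x ∈ W \ Y, ρ x + (if w ∈ W then 1 else 0) := by
  have hC : ∀ e ∈ pC s t es Q Y, Cr s t Y e := fun e he => (mem_pC.1 he).2.2
  have h1 := parts_ct (s := s) (t := t) hQ Y Q (W \ Y)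
  have h2 := ct_C_sdiff (W := W) hC
  have h3 : ct s t (pA s t es Y \ Q) (W \ Y) = 0 :=
    c_zero fun e he => cr_sdiff_in (mem_pA.1 (mem_sdiff.1 he).1).2.1
      (mem_pA.1 (mem_sdiff.1 he).1).2.2
  have h4 : pB s t Q Y \ Q = ∅ := sdiff_eq_empty_iff_subset.2 fun e he => (mem_pB.1 he).1
  have h5 : pC s t es Q Y \ Q = pC s t es Q Y := by
    rw [Finset.sdiff_eq_self_iff_disjoint, disjoint_left]
    exact fun e he => (mem_pC.1 he).2.1
  have h6 : pO s t es Q Y \ Q = pO s t es Q Y := by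
    rw [Finset.sdiff_eq_self_iff_disjoint, disjoint_left]
    exact fun e he => (mem_pO.1 he).2.1
  have h7 : ct s t (pO s t es Q Y) (W \ Y) = ct s t (pO s t es Q Y) W :=
    c_congr fun e he => cr_sdiff_out (mem_pO.1 he).2.2.1 (mem_pO.1 he).2.2.2
  rw [h3, h4, h5, h6, h7, ct_empty, h2] at h1
  have h9 : (if w ∈ W \ Y then 1 else 0) = (if w ∈ W then 1 else 0) := by
    by_cases h : w ∈ W
    · rw [if_pos h, if_pos (mem_sdiff.2 ⟨h, hwY⟩)]
    · rw [if_neg h, if_neg]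
      exact fun h' => h (mem_sdiff.1 h').1
  unfold vl
  rw [h1, h9]
  omega

/-- the value of a subset `X` of `Y` -/
private lemma vl_inY {es Q : Finset E} {ρ : V → ℕ} {w : V} {Y X : Finset V} (hQ : Q ⊆ es)
    (hwY : w ∉ Y) (hX : X ⊆ Y) :
    vl s t (es \ Q) ρ w X = ct s t (pA s t es Y \ Q) X +
      ((pC s t es Q Y).filter fun e => inn s t Y e ∈ X).card + ∑ x ∈ X, ρ x := by
  have hC : ∀ e ∈ pC s t es Q Y, Cr s t Y e := fun e he => (mem_pC.1 he).2.2
  have h1 := parts_ct (s := s) (t := t) hQ Y Q X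
  have h2 := ct_C_in (Z := X) hC (fun e he h => (io (hC e he)).2.1 (hX h))
  have h4 : pB s t Q Y \ Q = ∅ := sdiff_eq_empty_iff_subset.2 fun e he => (mem_pB.1 he).1
  have h5 : pC s t es Q Y \ Q = pC s t es Q Y := by
    rw [Finset.sdiff_eq_self_iff_disjoint, disjoint_left]
    exact fun e he => (mem_pC.1 he).2.1
  have h7 : ct s t (pO s t es Q Y \ Q) X = 0 := c_zero fun e he h => by
    have h8 := (mem_pO.1 (mem_sdiff.1 he).1).2.2
    rcases h with h | h
    · exact h8.1 (hX h.1)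
    · exact h8.2 (hX h.2)
  rw [h4, h5, h7, ct_empty, h2] at h1
  unfold vl
  rw [h1, if_neg (fun h => hwY (hX h))]
  omega

/-- the new root weights -/
private noncomputable def rho2 (s t : E → V) (ρ : V → ℕ) (C' : Finset E) (Y : Finset V)
    (y w0 : V) : V → ℕ := fun x => (if x ∈ Y then ρ x else 0) +
  (C'.filter fun e => inn s t Y e = x).card + (if x = y then 1 else 0) + (if x = w0 then 2 else 0)

private lemma sum_rho2 (ρ : V → ℕ) (C' : Finset E) (Y Z : Finset V) (y w0 : V) :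
    ∑ x ∈ Z, rho2 s t ρ C' Y y w0 x = ∑ x ∈ Z ∩ Y, ρ x +
      (C'.filter fun e => inn s t Y e ∈ Z).card + (if y ∈ Z then 1 else 0) +
        (if w0 ∈ Z then 2 else 0) := by
  unfold rho2
  rw [sum_add_distrib, sum_add_distrib, sum_add_distrib, sum_ite_mem, sum_ite_eq', sum_ite_eq']
  congr 3
  simp only [card_filter]
  rw [sum_comm]
  refine sum_congr rfl fun e _ => ?_
  rw [sum_ite_eq]

private lemma F1 {es Q : Finset E} {ρ : V → ℕ} {Y Z : Finset V} {e2 g : E} {y w0 w1 : V}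
    (C' : Finset E) (hgB : g ∈ pB s t Q Y) (hgA : g ∉ pA s t es Y) (he2A : e2 ∉ pA s t es Y)
    (he2Q : e2 ∉ Q) (hg : Cr s t Z g ↔ y ∈ Z) (hQ : Q ⊆ es) :
    vl s t (insert e2 (pA s t es Y ∪ (pB s t Q Y).erase g)) (rho2 s t ρ C' Y y w0) w1 Z =
      ct s t (pA s t es Y \ Q) Z + ct s t Q Z + (if Cr s t Z e2 then 1 else 0) +
        ∑ x ∈ Z ∩ Y, ρ x + (C'.filter fun e => inn s t Y e ∈ Z).card +
          (if w0 ∈ Z then 2 else 0) + (if w1 ∈ Z then 1 else 0) := by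
  have h1 : e2 ∉ pA s t es Y ∪ (pB s t Q Y).erase g := by
    intro h
    rcases mem_union.1 h with h | h
    · exact he2A h
    · exact he2Q (mem_pB.1 (mem_erase.1 h).2).1
  have h2 : Disjoint (pA s t es Y) ((pB s t Q Y).erase g) := by
    rw [disjoint_left]
    intro e h1 h2
    exact (mem_pB.1 (mem_erase.1 h2).2).2 (mem_pA.1 h1).2
  have h3 : ct s t (pB s t Q Y) Z = ct s t ((pB s t Q Y).erase g) Z +
      (if Cr s t Z g then 1 else 0) := by
    conv_lhs => rw [← insert_erase hgB]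
    exact ct_insert (notMem_erase _ _) Z
  have h4 : ct s t Q Z = ct s t (pA s t es Y ∩ Q) Z + ct s t (pB s t Q Y) Z := by
    rw [← ct_union]
    · congr 1
      ext e
      rw [mem_union, mem_inter, mem_pA, mem_pB]
      have := @hQ e
      tauto
    · rw [disjoint_left]
      intro e h1 h2
      exact (mem_pB.1 h2).2 (mem_pA.1 (mem_inter.1 h1).1).2
  have h5 : ct s t (pA s t es Y) Z = ct s t (pA s t es Y \ Q) Z +
      ct s t (pA s t es Y ∩ Q) Z := by
    rw [← ct_union, sdiff_union_inter]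
    rw [disjoint_left]
    intro e h1 h2
    exact (mem_sdiff.1 h1).2 (mem_inter.1 h2).2
  have h6 : (if Cr s t Z g then 1 else 0) = (if y ∈ Z then 1 else 0 : ℕ) := by
    by_cases h : y ∈ Z
    · rw [if_pos h, if_pos (hg.2 h)]
    · rw [if_neg h, if_neg (fun h' => h (hg.1 h'))]
  unfold vl
  rw [ct_insert h1, ct_union h2, sum_rho2]
  omega

private lemma F2 {es Q P : Finset E} {ρ : V → ℕ} {Y Z : Finset V} {e2 g : E} {y w0 : V}
    (C' : Finset E) (hgB : g ∈ pB s t Q Y) (hgA : g ∉ pA s t es Y) (hgP : g ∉ P)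
    (he2P : e2 ∈ P) (hg : Cr s t Z g ↔ y ∈ Z) :
    vl s t ((insert e2 (pA s t es Y ∪ (pB s t Q Y).erase g)) \ P)
      (rho2 s t ρ C' Y y w0) w0 Z =
      ct s t (pA s t es Y \ P) Z + ct s t (pB s t Q Y \ P) Z +
        ∑ x ∈ Z ∩ Y, ρ x + (C'.filter fun e => inn s t Y e ∈ Z).card +
          (if w0 ∈ Z then 2 else 0) + (if w0 ∈ Z then 1 else 0) := by
  have h1 : (insert e2 (pA s t es Y ∪ (pB s t Q Y).erase g)) \ P =
      (pA s t es Y \ P) ∪ ((pB s t Q Y \ P).erase g) := by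
    ext e
    simp only [mem_sdiff, mem_insert, mem_union, mem_erase]
    constructor
    · rintro ⟨h | h | h, h'⟩
      · exact absurd (h ▸ he2P) h'
      · exact Or.inl ⟨h, h'⟩
      · exact Or.inr ⟨h.1, h.2, h'⟩
    · rintro (h | h)
      · exact ⟨Or.inr (Or.inl h.1), h.2⟩
      · exact ⟨Or.inr (Or.inr ⟨h.1, h.2.1⟩), h.2.2⟩
  have h2 : Disjoint (pA s t es Y \ P) ((pB s t Q Y \ P).erase g) := by
    rw [disjoint_left]
    intro e h1 h2
    exact (mem_pB.1 (mem_sdiff.1 (mem_erase.1 h2).2).1).2 (mem_pA.1 (mem_sdiff.1 h1).1).2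
  have h3 : ct s t (pB s t Q Y \ P) Z = ct s t ((pB s t Q Y \ P).erase g) Z +
      (if Cr s t Z g then 1 else 0) := by
    conv_lhs => rw [← insert_erase (mem_sdiff.2 ⟨hgB, hgP⟩)]
    exact ct_insert (notMem_erase _ _) Z
  have h6 : (if Cr s t Z g then 1 else 0) = (if y ∈ Z then 1 else 0 : ℕ) := by
    by_cases h : y ∈ Z
    · rw [if_pos h, if_pos (hg.2 h)]
    · rw [if_neg h, if_neg (fun h' => h (hg.1 h'))]
  unfold vl
  rw [h1, ct_union h2, sum_rho2]
  omega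

/-- the data of case C -/
private structure CX (s t : E → V) (N : Finset V) (es Q P : Finset E) (Y : Finset V) (ρ : V → ℕ)
    (e2 g : E) (y w w0 : V) : Prop where
  hQ : Q ⊆ es
  hYN : Y ⊆ N
  ends : ∀ e ∈ es, s e ∈ N ∧ t e ∈ N
  hwY : w ∉ Y
  hw0Y : w0 ∉ Y
  hww : w0 ≠ w
  yw : y ≠ w
  yw0 : y ≠ w0
  yN : y ∈ N
  gB : g ∈ pB s t Q Y
  gA : g ∉ pA s t es Y
  gcr : ∀ Z : Finset V, Cr s t Z g ↔ (w ∈ Z ∧ y ∉ Z) ∨ (w ∉ Z ∧ y ∈ Z)
  Qg : ∀ e ∈ Q, e ≠ g → s e ≠ w ∧ t e ≠ w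
  Q0 : ∀ e ∈ Q, s e ≠ w0 ∧ t e ≠ w0
  e2C : e2 ∈ pC s t es Q Y
  e2o : out s t Y e2 = w0
  gP : g ∉ P
  e2P : e2 ∈ P
  Psub : P ⊆ insert e2 (pA s t es Y ∪ (pB s t Q Y).erase g)
  Y3 : vl s t (es \ Q) ρ w Y = 3

section

variable {N : Finset V} {es Q P : Finset E} {Y : Finset V} {ρ : V → ℕ} {e2 g : E} {y w w0 : V}

private lemma CX.card (X : CX s t N es Q P Y ρ e2 g y w w0) :
    ((pC s t es Q Y).erase e2).card + ∑ x ∈ Y, ρ x = 2 := by
  have h1 := vl_union (s := s) (t := t) (W := ∅) (ρ := ρ) X.hQ X.hwY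
  have h2 := X.Y3
  have h3 := card_erase_add_one X.e2C
  rw [empty_union, X.Y3] at h1
  simp only [notMem_empty, filter_false, card_empty, if_false, empty_sdiff, sum_empty] at h1
  have h4 : ct s t (pO s t es Q Y) ∅ = 0 := c_zero fun e _ h => by
    rcases h with h | h
    · exact notMem_empty _ h.1
    · exact notMem_empty _ h.2
  omega

private lemma CX.esP (X : CX s t N es Q P Y ρ e2 g y w w0) (W : Finset V) :
    ct s t (es \ P) W = ct s t (pA s t es Y \ P) W + ct s t (pB s t Q Y \ P) W +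
      (ct s t ((pC s t es Q Y).erase e2) W + ct s t (pO s t es Q Y) W) := by
  rw [parts_ct X.hQ Y P W]
  have h1 : pC s t es Q Y \ P = (pC s t es Q Y).erase e2 := by
    ext e
    rw [mem_sdiff, mem_erase]
    constructor
    · rintro ⟨h1, h2⟩
      exact ⟨fun h => h2 (h ▸ X.e2P), h1⟩
    · rintro ⟨h1, h2⟩
      refine ⟨h2, fun h3 => ?_⟩
      have h4 := mem_pC.1 h2
      rcases mem_insert.1 (X.Psub h3) with h5 | h5
      · exact h1 h5
      · rcases mem_union.1 h5 with h6 | h6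
        · have h7 := (mem_pA.1 h6).2
          have h8 := h4.2.2
          unfold Cr at h8
          tauto
        · exact h4.2.1 (mem_pB.1 (mem_erase.1 h6).2).1
  have h2 : pO s t es Q Y \ P = pO s t es Q Y := by
    rw [Finset.sdiff_eq_self_iff_disjoint, disjoint_left]
    intro e h1 h3
    have h4 := mem_pO.1 h1
    rcases mem_insert.1 (X.Psub h3) with h5 | h5
    · have h8 := (mem_pC.1 X.e2C).2.2
      rw [← h5] at h8
      unfold Cr at h8
      tauto
    · rcases mem_union.1 h5 with h6 | h6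
      · exact h4.2.2.1 (mem_pA.1 h6).2.1
      · exact h4.2.1 (mem_pB.1 (mem_erase.1 h6).2).1
  rw [h1, h2]

private lemma CX.outC (X : CX s t N es Q P Y ρ e2 g y w w0) (W : Finset V) :
    ((pC s t es Q Y).filter fun e => out s t Y e ∈ W).card =
      (((pC s t es Q Y).erase e2).filter fun e => out s t Y e ∈ W).card +
        (if w0 ∈ W then 1 else 0) := by
  conv_lhs => rw [← insert_erase X.e2C]
  rw [filter_insert, X.e2o]
  split_ifs with h
  · rw [card_insert_of_notMem]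
    intro h2
    exact notMem_erase _ _ (mem_filter.1 h2).1
  · rfl

private lemma ct_le_erase (A : Finset E) (g : E) (Z : Finset V) :
    ct s t A Z ≤ ct s t (A.erase g) Z + 1 := by
  unfold ct
  rw [filter_erase]
  exact Nat.le_add_of_sub_le pred_card_le_card_erase

private lemma CX.ca (X : CX s t N es Q P Y ρ e2 g y w w0) (W : Finset V)
    (h : 3 ≤ ct s t (pA s t es Y \ P) ((W.erase w).erase w0) +
      ct s t (pB s t Q Y \ P) ((W.erase w).erase w0) +
        ∑ x ∈ ((W.erase w).erase w0) ∩ Y, ρ x +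
          (((pC s t es Q Y).erase e2).filter
            fun e => inn s t Y e ∈ (W.erase w).erase w0).card) :
    vl s t (es \ Q) ρ w (W ∪ Y) + 1 + (if w0 ∈ W then 1 else 0) ≤
      vl s t (es \ P) ρ w0 W + 2 * (if w ∈ W then 1 else 0) + (if w0 ∈ W then 0 else 1) := by
  have hYx : ∀ x ∈ Y, (x ∈ (W.erase w).erase w0 ↔ x ∈ W) := by
    intro x hx
    rw [mem_erase, mem_erase]
    exact ⟨fun h => h.2.2, fun h => ⟨fun h' => X.hw0Y (h' ▸ hx), fun h' => X.hwY (h' ▸ hx), h⟩⟩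
  have h1 : ct s t (pA s t es Y \ P) ((W.erase w).erase w0) = ct s t (pA s t es Y \ P) W :=
    c_congr fun e he => cr_inY (mem_pA.1 (mem_sdiff.1 he).1).2.1
      (mem_pA.1 (mem_sdiff.1 he).1).2.2 hYx
  have h2 : ((W.erase w).erase w0) ∩ Y = W ∩ Y := by
    ext x
    rw [mem_inter, mem_inter]
    constructor
    · rintro ⟨a, b⟩
      exact ⟨(hYx x b).1 a, b⟩
    · rintro ⟨a, b⟩
      exact ⟨(hYx x b).2 a, b⟩
  have hC : ∀ e ∈ (pC s t es Q Y).erase e2, Cr s t Y e :=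
    fun e he => (mem_pC.1 (mem_erase.1 he).2).2.2
  have h3 : (((pC s t es Q Y).erase e2).filter
      fun e => inn s t Y e ∈ (W.erase w).erase w0) =
      (((pC s t es Q Y).erase e2).filter fun e => inn s t Y e ∈ W) :=
    filter_congr fun e he => hYx _ (io (hC e he)).1
  have h4 : ct s t (pB s t Q Y \ P) ((W.erase w).erase w0) ≤ ct s t (pB s t Q Y \ P) W +
      (if w ∈ W then 1 else 0) := by
    by_cases hw : w ∈ W
    · rw [if_pos hw]
      refine le_trans (ct_le_erase _ g _) ?_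
      have h5 : ct s t ((pB s t Q Y \ P).erase g) ((W.erase w).erase w0) =
          ct s t ((pB s t Q Y \ P).erase g) W := c_congr fun e he => by
        have h6 := mem_erase.1 he
        have h7 := (mem_pB.1 (mem_sdiff.1 h6.2).1).1
        rw [cr_erase (X.Q0 e h7).1 (X.Q0 e h7).2, cr_erase (X.Qg e h7 h6.1).1 (X.Qg e h7 h6.1).2]
      rw [h5]
      exact Nat.add_le_add_right (ct_mono (erase_subset _ _) W) 1
    · rw [if_neg hw, erase_eq_of_notMem hw, add_zero]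
      refine le_of_eq (c_congr fun e he => ?_)
      have h7 := (mem_pB.1 (mem_sdiff.1 he).1).1
      rw [cr_erase (X.Q0 e h7).1 (X.Q0 e h7).2]
  rw [h1, h2, h3] at h
  have h5 := in_le hC W
  have h6 := vl_union (s := s) (t := t) (W := W) (ρ := ρ) X.hQ X.hwY
  rw [X.outC W, ← card_erase_add_one X.e2C] at h6
  have h7 := X.card
  have h8 := X.esP W
  have h9 : ∑ x ∈ W, ρ x = ∑ x ∈ W ∩ Y, ρ x + ∑ x ∈ W \ Y, ρ x := by
    rw [sum_inter_add_sum_sdiff]
  unfold vl at h6 ⊢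
  rw [h8, h9]
  split_ifs at * <;> omega

private lemma CX.cb (X : CX s t N es Q P Y ρ e2 g y w w0) {W : Finset V} (hW : W ⊆ N)
    (h : 3 ≤ ct s t (pA s t es Y \ P) (((N \ W).erase w).erase w0) +
      ct s t (pB s t Q Y \ P) (((N \ W).erase w).erase w0) +
        ∑ x ∈ (((N \ W).erase w).erase w0) ∩ Y, ρ x +
          (((pC s t es Q Y).erase e2).filter
            fun e => inn s t Y e ∈ ((N \ W).erase w).erase w0).card) :
    vl s t (es \ Q) ρ w (W \ Y) ≤ vl s t (es \ P) ρ w0 W := by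
  have hYx : ∀ x ∈ Y, (x ∈ ((N \ W).erase w).erase w0 ↔ x ∉ W) := by
    intro x hx
    rw [mem_erase, mem_erase, mem_sdiff]
    exact ⟨fun h => h.2.2.2, fun h => ⟨fun h' => X.hw0Y (h' ▸ hx), fun h' => X.hwY (h' ▸ hx),
      X.hYN hx, h⟩⟩
  have h1 : ct s t (pA s t es Y \ P) (((N \ W).erase w).erase w0) =
      ct s t (pA s t es Y \ P) W :=
    c_congr fun e he => cr_inYc (mem_pA.1 (mem_sdiff.1 he).1).2.1
      (mem_pA.1 (mem_sdiff.1 he).1).2.2 hYx
  have h2 : (((N \ W).erase w).erase w0) ∩ Y = Y \ W := by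
    ext x
    rw [mem_inter, mem_sdiff]
    constructor
    · rintro ⟨a, b⟩
      exact ⟨b, (hYx x b).1 a⟩
    · rintro ⟨a, b⟩
      exact ⟨(hYx x a).2 b, a⟩
  have hC : ∀ e ∈ (pC s t es Q Y).erase e2, Cr s t Y e :=
    fun e he => (mem_pC.1 (mem_erase.1 he).2).2.2
  have h3 : (((pC s t es Q Y).erase e2).filter
      fun e => inn s t Y e ∈ ((N \ W).erase w).erase w0) =
      (((pC s t es Q Y).erase e2).filter fun e => ¬ inn s t Y e ∈ W) :=
    filter_congr fun e he => hYx _ (io (hC e he)).1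
  have h4 : ct s t (pB s t Q Y \ P) (((N \ W).erase w).erase w0) ≤
      ct s t (pB s t Q Y \ P) W + (if w ∈ W then 0 else 1) := by
    have hbe : ∀ e ∈ pB s t Q Y \ P, e ∈ Q := fun e he => (mem_pB.1 (mem_sdiff.1 he).1).1
    by_cases hw : w ∈ W
    · rw [if_pos hw, add_zero, erase_eq_of_notMem (s := N \ W) (a := w)
        (fun h => (mem_sdiff.1 h).2 hw)]
      refine le_of_eq (c_congr fun e he => ?_)
      have h7 := hbe e he
      rw [cr_erase (X.Q0 e h7).1 (X.Q0 e h7).2,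
        cr_compl (X.ends e (X.hQ h7)).1 (X.ends e (X.hQ h7)).2]
    · rw [if_neg hw]
      refine le_trans (ct_le_erase _ g _) ?_
      have h5 : ct s t ((pB s t Q Y \ P).erase g) (((N \ W).erase w).erase w0) =
          ct s t ((pB s t Q Y \ P).erase g) W := c_congr fun e he => by
        have h6 := mem_erase.1 he
        have h7 := hbe e h6.2
        rw [cr_erase (X.Q0 e h7).1 (X.Q0 e h7).2, cr_erase (X.Qg e h7 h6.1).1 (X.Qg e h7 h6.1).2,
          cr_compl (X.ends e (X.hQ h7)).1 (X.ends e (X.hQ h7)).2]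
      rw [h5]
      exact Nat.add_le_add_right (ct_mono (erase_subset _ _) W) 1
  rw [h1, h2, h3] at h
  have h5 := out_le hC W
  have h6 := vl_sdiff (s := s) (t := t) (W := W) (ρ := ρ) X.hQ X.hwY
  rw [X.outC W] at h6
  have h7 := X.card
  have h8 := X.esP W
  have h9 : ∑ x ∈ W, ρ x = ∑ x ∈ W ∩ Y, ρ x + ∑ x ∈ W \ Y, ρ x := by
    rw [sum_inter_add_sum_sdiff]
  have h10 : ∑ x ∈ Y, ρ x = ∑ x ∈ W ∩ Y, ρ x + ∑ x ∈ Y \ W, ρ x := by
    rw [inter_comm, sum_inter_add_sum_sdiff]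
  have h11 := card_filter_add_card_filter_not (s := (pC s t es Q Y).erase e2)
    (p := fun e => inn s t Y e ∈ W)
  rw [h6]
  unfold vl
  rw [h8, h9]
  split_ifs at * <;> omega

end

theorem caseC {N : Finset V} {es : Finset E} {ρ : V → ℕ} {w1 : V} {T : Finset V} {φ : E}
    (hI : Inst s t N es ρ w1 T φ) (hIH : IH V E es.card) {Q : Finset E} {w : V}
    (hS : St s t N es ρ w1 T φ Q w) (hac : Acyc s t Q) (hwT : w ∉ T) {Y : Finset V} (hYN : Y ⊆ N)
    (hYo : Odd (vl s t es ρ w1 Y)) (hYT : Disjoint Y T) (hwY : w ∉ Y)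
    (hY3 : vl s t (es \ Q) ρ w Y = 3) {e2 : E} {v w0 : V} (he2 : e2 ∈ es) (he2Q : e2 ∉ Q)
    (he2φ : e2 ≠ φ) (hJ : Jn s t e2 v w0) (hv : v ∈ Y) (hw0 : w0 ∉ Y) (hw0w : w0 ≠ w)
    (hw0Q : ct s t Q {w0} = 0)
    (hA : ∀ W ⊆ N, Odd (vl s t es ρ w1 W) → w ∈ W → w0 ∉ W → 5 ≤ vl s t (es \ Q) ρ w W)
    (hC : ∀ W ⊆ N, Odd (vl s t es ρ w1 W) → Disjoint W T → w ∉ W → w0 ∈ W →
      5 ≤ vl s t (es \ Q) ρ w W) :
    ∃ Q0, St s t N es ρ w1 T φ Q0 w0 := by
  -- basic facts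
  have hw0N : w0 ∈ N := by
    rcases hJ with ⟨-, h⟩ | ⟨h, -⟩
    · rw [← h]; exact (hI.ends e2 he2).2
    · rw [← h]; exact (hI.ends e2 he2).1
  have hvw0 : v ≠ w0 := fun h => hw0 (h ▸ hv)
  have hvw : v ≠ w := fun h => hwY (h ▸ hv)
  have hw1w : w ≠ w1 := by
    intro h
    have hQ0 : Q = ∅ := by
      refine hac Q (Subset.refl _) ?_
      intro x
      rw [hS.bd x, h]
      split_ifs <;> decide
    have h5 := hI.L5 Y hYN hYo hYT
    rw [hQ0, sdiff_empty, h] at hY3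
    omega
  have hone := hac.one hS.bd hw1w
  obtain ⟨g, hg⟩ := card_eq_one.1 hone
  have hgm : g ∈ Q ∧ Cr s t {w} g := by
    have : g ∈ Q.filter (Cr s t {w}) := by rw [hg]; exact mem_singleton_self _
    exact mem_filter.1 this
  have hgu : ∀ e ∈ Q, Cr s t {w} e → e = g := by
    intro e he h
    have : e ∈ Q.filter (Cr s t {w}) := mem_filter.2 ⟨he, h⟩
    rw [hg, mem_singleton] at this
    exact this
  have hloop : ∀ e ∈ Q, s e ≠ t e := by
    intro e he h
    have := hac {e} (singleton_subset_iff.2 he) (by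
      intro x
      have h1 : ct s t {e} {x} = 0 := by
        apply c_zero
        intro e' he' hc
        rw [mem_singleton] at he'
        subst he'
        rw [cr_singleton, h] at hc
        tauto
      rw [h1]
      rfl)
    exact absurd this (singleton_ne_empty _)
  have hQw : ∀ e ∈ Q, e ≠ g → s e ≠ w ∧ t e ≠ w := by
    intro e he hne
    have h1 := hloop e he
    have h2 : ¬ Cr s t {w} e := fun h => hne (hgu e he h)
    rw [cr_singleton] at h2
    constructor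
    · intro h3
      exact h2 (Or.inl ⟨h3, fun h4 => h1 (h3.trans h4.symm)⟩)
    · intro h3
      exact h2 (Or.inr ⟨fun h4 => h1 (h4.trans h3.symm), h3⟩)
  have hQw0 : ∀ e ∈ Q, s e ≠ w0 ∧ t e ≠ w0 := by
    intro e he
    have h1 := hloop e he
    have h2 : ¬ Cr s t {w0} e := c_notcr hw0Q he
    rw [cr_singleton] at h2
    constructor
    · intro h3
      exact h2 (Or.inl ⟨h3, fun h4 => h1 (h3.trans h4.symm)⟩)
    · intro h3
      exact h2 (Or.inr ⟨fun h4 => h1 (h4.trans h3.symm), h3⟩)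
  obtain ⟨y, hgy, hyw⟩ : ∃ y, Jn s t g w y ∧ y ≠ w := by
    rcases (cr_singleton.1 hgm.2) with ⟨h1, h2⟩ | ⟨h1, h2⟩
    · exact ⟨t g, Or.inl ⟨h1, rfl⟩, h2⟩
    · exact ⟨s g, Or.inr ⟨rfl, h2⟩, h1⟩
  have hyw0 : y ≠ w0 := by
    rcases hgy with ⟨-, h⟩ | ⟨h, -⟩
    · rw [← h]; exact (hQw0 g hgm.1).2
    · rw [← h]; exact (hQw0 g hgm.1).1
  have hyN : y ∈ N := by
    rcases hgy with ⟨-, h⟩ | ⟨h, -⟩
    · rw [← h]; exact (hI.ends g (hS.sub hgm.1)).2
    · rw [← h]; exact (hI.ends g (hS.sub hgm.1)).1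
  have hgcr : ∀ Z : Finset V, Cr s t Z g ↔ (w ∈ Z ∧ y ∉ Z) ∨ (w ∉ Z ∧ y ∈ Z) := by
    intro Z
    unfold Cr
    rcases hgy with ⟨h1, h2⟩ | ⟨h1, h2⟩
    · rw [h1, h2]
    · rw [h1, h2, or_comm, and_comm, @and_comm (y ∈ Z)]
  have he2cr : ∀ Z : Finset V, Cr s t Z e2 ↔ (v ∈ Z ∧ w0 ∉ Z) ∨ (v ∉ Z ∧ w0 ∈ Z) := by
    intro Z
    unfold Cr
    rcases hJ with ⟨h1, h2⟩ | ⟨h1, h2⟩
    · rw [h1, h2]
    · rw [h1, h2, or_comm, and_comm, @and_comm (w0 ∈ Z)]
  have hw1w0 : w1 ≠ w0 := by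
    intro h
    have h1 := hS.bd w1
    rw [if_pos rfl, if_neg (fun h => hw1w h.symm), h, hw0Q] at h1
    simp at h1
  have he2C : e2 ∈ pC s t es Q Y :=
    mem_pC.2 ⟨he2, he2Q, (he2cr Y).2 (Or.inl ⟨hv, hw0⟩)⟩
  have he2io : inn s t Y e2 = v ∧ out s t Y e2 = w0 := by
    unfold inn out
    rcases hJ with ⟨h1, h2⟩ | ⟨h1, h2⟩
    · rw [h1, h2, if_pos hv, if_pos hv]
      exact ⟨rfl, rfl⟩
    · rw [h1, h2, if_neg hw0, if_neg hw0]
      exact ⟨rfl, rfl⟩
  have hgA : g ∉ pA s t es Y := by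
    intro h
    have h1 := (mem_pA.1 h).2
    rcases hgy with ⟨h2, -⟩ | ⟨-, h2⟩
    · exact hwY (h2 ▸ h1.1)
    · exact hwY (h2 ▸ h1.2)
  have hgB : g ∈ pB s t Q Y :=
    mem_pB.2 ⟨hgm.1, fun h => hgA (mem_pA.2 ⟨hS.sub hgm.1, h⟩)⟩
  have he2A : e2 ∉ pA s t es Y := by
    intro h
    have h1 := (mem_pA.1 h).2
    rcases hJ with ⟨-, h2⟩ | ⟨h2, -⟩
    · exact hw0 (h2 ▸ h1.2)
    · exact hw0 (h2 ▸ h1.1)
  -- parity
  have hpar : ∀ X : Finset V, Odd (vl s t (es \ Q) ρ w X) ↔ Odd (vl s t es ρ w1 X) := by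
    intro X
    rw [odd_iff_zmod, odd_iff_zmod, c_parQ ρ hS.sub hS.bd X]
  have heven : ∀ Z : Finset V, w ∉ Z → Even (ct s t Q Z + if w1 ∈ Z then 1 else 0) := by
    intro Z hZ
    rw [even_iff_zmod]
    push_cast
    rw [hS.bd.par Z, if_neg hZ]
    split_ifs <;> decide
  -- the new instance
  set es2 : Finset E := insert e2 (pA s t es Y ∪ (pB s t Q Y).erase g) with hes2
  set C' : Finset E := (pC s t es Q Y).erase e2 with hC'
  set ρ2 : V → ℕ := rho2 s t ρ C' Y y w0 with hρ2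
  have hes2es : es2 ⊆ es.erase g := by
    intro e he
    rw [mem_erase]
    rcases mem_insert.1 he with h | h
    · exact ⟨fun h' => he2Q (h ▸ h' ▸ hgm.1), h ▸ he2⟩
    · rcases mem_union.1 h with h | h
      · exact ⟨fun h' => hgA (h' ▸ h), (mem_pA.1 h).1⟩
      · exact ⟨(mem_erase.1 h).1, hS.sub (mem_pB.1 (mem_erase.1 h).2).1⟩
  have hges2 : g ∉ es2 := fun h => (mem_erase.1 (hes2es h)).1 rfl
  have hcard : es2.card < es.card :=
    lt_of_le_of_lt (card_le_card hes2es) (card_erase_lt_of_mem (hS.sub hgm.1))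
  have hgcr' : ∀ Z : Finset V, w ∉ Z → (Cr s t Z g ↔ y ∈ Z) := by
    intro Z hZ
    rw [hgcr Z]
    constructor
    · rintro (h | h)
      · exact absurd h.1 hZ
      · exact h.2
    · exact fun h => Or.inr ⟨hZ, h⟩
  have hF1 : ∀ Z : Finset V, w ∉ Z → vl s t es2 ρ2 w1 Z = ct s t (pA s t es Y \ Q) Z +
      ct s t Q Z + (if Cr s t Z e2 then 1 else 0) + ∑ x ∈ Z ∩ Y, ρ x +
        (C'.filter fun e => inn s t Y e ∈ Z).card + (if w0 ∈ Z then 2 else 0) +
          (if w1 ∈ Z then 1 else 0) := fun Z hZ =>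
    F1 C' hgB hgA he2A he2Q (hgcr' Z hZ) hS.sub
  have hCm : ∀ e ∈ pC s t es Q Y, Cr s t Y e := fun e he => (mem_pC.1 he).2.2
  -- (***)
  have hstar : ∀ Z : Finset V, w ∉ Z → w0 ∉ Z → vl s t es2 ρ2 w1 Z =
      vl s t (es \ Q) ρ w (Z ∩ Y) + (ct s t Q Z + if w1 ∈ Z then 1 else 0) := by
    intro Z hZ hZ0
    have h1 := hF1 Z hZ
    have h2 := vl_inY (s := s) (t := t) (ρ := ρ) hS.sub hwY (inter_subset_right (s₁ := Z) (s₂ := Y))
    have h3 : ct s t (pA s t es Y \ Q) (Z ∩ Y) = ct s t (pA s t es Y \ Q) Z :=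
      c_congr fun e he => cr_inY (mem_pA.1 (mem_sdiff.1 he).1).2.1
        (mem_pA.1 (mem_sdiff.1 he).1).2.2 fun x hx => by
          rw [mem_inter]
          exact ⟨fun h => h.1, fun h => ⟨h, hx⟩⟩
    have h4 : ((pC s t es Q Y).filter fun e => inn s t Y e ∈ Z ∩ Y) =
        (pC s t es Q Y).filter fun e => inn s t Y e ∈ Z :=
      filter_congr fun e he => by
        rw [mem_inter]
        exact ⟨fun h => h.1, fun h => ⟨h, (io (hCm e he)).1⟩⟩
    have h5 : ((pC s t es Q Y).filter fun e => inn s t Y e ∈ Z).card =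
        (C'.filter fun e => inn s t Y e ∈ Z).card + (if v ∈ Z then 1 else 0) := by
      conv_lhs => rw [← insert_erase he2C]
      rw [filter_insert, he2io.1]
      split_ifs with h
      · rw [card_insert_of_notMem]
        intro h2
        exact notMem_erase _ _ (mem_filter.1 h2).1
      · rfl
    have h6 : (if Cr s t Z e2 then 1 else 0) = (if v ∈ Z then 1 else 0 : ℕ) := by
      by_cases h : v ∈ Z
      · rw [if_pos h, if_pos ((he2cr Z).2 (Or.inl ⟨h, hZ0⟩))]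
      · rw [if_neg h, if_neg]
        intro h'
        rcases (he2cr Z).1 h' with h'' | h''
        · exact h h''.1
        · exact hZ0 h''.2
    rw [h3, h4, h5] at h2
    rw [h6, if_neg hZ0] at h1
    omega
  have hL5 : ∀ Z ⊆ N.erase w, w0 ∉ Z → Odd (vl s t es2 ρ2 w1 Z) → 5 ≤ vl s t es2 ρ2 w1 Z := by
    intro Z hZ hZ0 hodd
    have hwZ : w ∉ Z := fun h => (mem_erase.1 (hZ h)).1 rfl
    have h1 := hstar Z hwZ hZ0
    have h2 := heven Z hwZ
    have h3 : Odd (vl s t (es \ Q) ρ w (Z ∩ Y)) := by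
      rw [h1] at hodd
      exact (Nat.odd_add.1 hodd).2 h2
    have hZN : Z ∩ Y ⊆ N := fun x hx => hYN (mem_inter.1 hx).2
    have h4 := hS.V1 (Z ∩ Y) hZN ((hpar _).1 h3)
    by_cases h5 : 2 ≤ ct s t Q Z + if w1 ∈ Z then 1 else 0
    · omega
    · have h6 : (ct s t Q Z + if w1 ∈ Z then 1 else 0) = 0 := by
        obtain ⟨k, hk⟩ := h2
        omega
      have h7 : ct s t Q Z = 0 := by omega
      have h8 : w1 ∉ Z := by
        intro h
        rw [if_pos h] at h6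
        omega
      have h9 := hac.untouched hS.bd h8 hwZ h7
      have h10 : ct s t Q (Z ∩ Y) = 0 := c_zero fun e he h => by
        rcases h with h | h
        · exact (h9 e he).1 (mem_inter.1 h.1).1
        · exact (h9 e he).2 (mem_inter.1 h.2).1
      have h11 := ct_sdiff (s := s) (t := t) hS.sub (Z ∩ Y)
      have h12 := hI.L5 (Z ∩ Y) hZN ((hpar _).1 h3) (by
        rw [disjoint_left]
        intro x hx hx'
        exact (disjoint_left.1 hYT) (mem_inter.1 hx).2 hx')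
      unfold vl at h1 h12 ⊢
      rw [if_neg (fun h => h8 (mem_inter.1 h).1)] at h12
      rw [if_neg (fun h => hwZ (mem_inter.1 h).1)] at h1
      omega
  have hL3 : ∀ Z ⊆ N.erase w, Odd (vl s t es2 ρ2 w1 Z) → 3 ≤ vl s t es2 ρ2 w1 Z := by
    intro Z hZ hodd
    by_cases hZ0 : w0 ∈ Z
    · have hwZ : w ∉ Z := fun h => (mem_erase.1 (hZ h)).1 rfl
      have hwX : w ∉ Z.erase w0 := fun h => hwZ (mem_erase.1 h).2
      have h1 := hF1 Z hwZ
      have h2 := hF1 (Z.erase w0) hwX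
      have h3 : ct s t (pA s t es Y \ Q) (Z.erase w0) = ct s t (pA s t es Y \ Q) Z :=
        c_congr fun e he => cr_inY (mem_pA.1 (mem_sdiff.1 he).1).2.1
          (mem_pA.1 (mem_sdiff.1 he).1).2.2 fun x hx => by
            rw [mem_erase]
            exact ⟨fun h => h.2, fun h => ⟨fun h' => hw0 (h' ▸ hx), h⟩⟩
      have h4 : ct s t Q (Z.erase w0) = ct s t Q Z :=
        c_congr fun e he => cr_erase (hQw0 e he).1 (hQw0 e he).2
      have h5 : Z.erase w0 ∩ Y = Z ∩ Y := by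
        ext x
        rw [mem_inter, mem_inter, mem_erase]
        exact ⟨fun h => ⟨h.1.2, h.2⟩, fun h => ⟨⟨fun h' => hw0 (h' ▸ h.2), h.1⟩, h.2⟩⟩
      have h6 : (C'.filter fun e => inn s t Y e ∈ Z.erase w0) =
          C'.filter fun e => inn s t Y e ∈ Z :=
        filter_congr fun e he => by
          have h7 := (io (hCm e (mem_erase.1 he).2)).1
          rw [mem_erase]
          exact ⟨fun h => h.2, fun h => ⟨fun h' => hw0 (h' ▸ h7), h⟩⟩
      have h7 : (if w1 ∈ Z.erase w0 then 1 else 0) = (if w1 ∈ Z then 1 else 0 : ℕ) := by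
        by_cases h : w1 ∈ Z
        · rw [if_pos h, if_pos (mem_erase.2 ⟨hw1w0, h⟩)]
        · rw [if_neg h, if_neg (fun h' => h (mem_erase.1 h').2)]
      rw [h3, h4, h5, h6, h7, if_neg (notMem_erase w0 Z)] at h2
      rw [if_pos hZ0] at h1
      by_cases hvZ : v ∈ Z
      · have h8 : Cr s t (Z.erase w0) e2 :=
          (he2cr _).2 (Or.inl ⟨mem_erase.2 ⟨hvw0, hvZ⟩, notMem_erase _ _⟩)
        have h9 : ¬ Cr s t Z e2 := by
          rw [he2cr]
          rintro (h | h)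
          · exact h.2 hZ0
          · exact h.1 hvZ
        rw [if_pos h8] at h2
        rw [if_neg h9] at h1
        have h10 : 1 ≤ vl s t es2 ρ2 w1 (Z.erase w0) := by
          have := c_pos (s := s) (t := t) (A := es2) (mem_insert_self _ _) h8
          unfold vl
          omega
        obtain ⟨k, hk⟩ := hodd
        omega
      · have h9 : Cr s t Z e2 := (he2cr Z).2 (Or.inr ⟨hvZ, hZ0⟩)
        rw [if_pos h9] at h1
        omega
    · have := hL5 Z hZ hZ0 hodd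
      omega
  have hvU : v ∈ (N.erase w).erase w0 := mem_erase.2 ⟨hvw0, mem_erase.2 ⟨hvw, hYN hv⟩⟩
  have hE : ∀ Ω ⊆ N.erase w, w1 ∈ Ω → Disjoint Ω {w0} → ∃ e ∈ es2, e ≠ g ∧ Cr s t Ω e := by
    intro Ω hΩ hw1Ω hdis
    by_contra hcon
    push Not at hcon
    have hno : ∀ e ∈ es2, ¬ Cr s t Ω e := fun e he => hcon e he fun h => hges2 (h ▸ he)
    have hw0Ω : w0 ∉ Ω := fun h => (disjoint_left.1 hdis) h (mem_singleton_self _)
    have hΩU : Ω ⊆ (N.erase w).erase w0 :=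
      fun x hx => mem_erase.2 ⟨fun h => hw0Ω (h ▸ hx), hΩ hx⟩
    have hvΩ : v ∉ Ω := fun h => hno e2 (mem_insert_self _ _) ((he2cr Ω).2 (Or.inl ⟨h, hw0Ω⟩))
    have hXN : ((N.erase w).erase w0) \ Ω ⊆ N.erase w :=
      fun x hx => (mem_erase.1 (mem_sdiff.1 hx).1).2
    have hw0X : w0 ∉ ((N.erase w).erase w0) \ Ω :=
      fun h => (mem_erase.1 (mem_sdiff.1 h).1).1 rfl
    have hwU : w ∉ (N.erase w).erase w0 := fun h => (mem_erase.1 (mem_erase.1 h).2).1 rfl
    have hU := hstar _ hwU (notMem_erase w0 (N.erase w))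
    have hUY : ((N.erase w).erase w0) ∩ Y = Y := by
      rw [inter_eq_right]
      exact fun x hx => mem_erase.2 ⟨fun h => hw0 (h ▸ hx), mem_erase.2
        ⟨fun h => hwY (h ▸ hx), hYN hx⟩⟩
    have hQU : ct s t Q ((N.erase w).erase w0) = 1 := by
      have h1 : ct s t Q ((N.erase w).erase w0) = ct s t Q (N.erase w) :=
        c_congr fun e he => cr_erase (hQw0 e he).1 (hQw0 e he).2
      rw [h1, erase_eq, ct_compl (fun e he => hI.ends e (hS.sub he)), hone]
    rw [hUY, hY3, hQU, if_pos (hΩU hw1Ω)] at hU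
    have hcX : ct s t es2 (((N.erase w).erase w0) \ Ω) = ct s t es2 ((N.erase w).erase w0) := by
      refine c_congr fun e he => ?_
      have h1 := hno e he
      have h2 := @hΩU (s e)
      have h3 := @hΩU (t e)
      unfold Cr at h1 ⊢
      rw [mem_sdiff, mem_sdiff]
      clear hcon hno hU hUY hQU
      by_cases h4 : s e ∈ Ω <;> by_cases h5 : t e ∈ Ω
      · simp only [h4, h5, h2 h4, h3 h5, not_true, and_false, false_and, not_false_iff, and_true,
          true_and, or_false]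
      · exact absurd (Or.inl ⟨h4, h5⟩) h1
      · exact absurd (Or.inr ⟨h4, h5⟩) h1
      · simp only [h4, h5, not_false_iff, and_true]
    have hcΩ : ct s t es2 Ω = 0 := c_zero hno
    have hsum : ∑ x ∈ ((N.erase w).erase w0) \ Ω, ρ2 x + ∑ x ∈ Ω, ρ2 x =
        ∑ x ∈ (N.erase w).erase w0, ρ2 x := sum_sdiff hΩU
    have hX1 : 1 ≤ ct s t es2 (((N.erase w).erase w0) \ Ω) :=
      c_pos (mem_insert_self _ _) ((he2cr _).2 (Or.inl ⟨mem_sdiff.2 ⟨hvU, hvΩ⟩, hw0X⟩))
    have hadd : vl s t es2 ρ2 w1 Ω + vl s t es2 ρ2 w1 (((N.erase w).erase w0) \ Ω) = 5 := by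
      rw [show (5 : ℕ) = 3 + (1 + 1) from rfl, ← hU]
      unfold vl
      rw [hcΩ, hcX, if_pos hw1Ω, if_neg (fun h => (mem_sdiff.1 h).2 hw1Ω), if_pos (hΩU hw1Ω)]
      omega
    have hpos1 : 1 ≤ vl s t es2 ρ2 w1 Ω := by
      unfold vl
      rw [if_pos hw1Ω]
      omega
    have hpos2 : 1 ≤ vl s t es2 ρ2 w1 (((N.erase w).erase w0) \ Ω) := by
      unfold vl
      omega
    rcases Nat.even_or_odd (vl s t es2 ρ2 w1 Ω) with he | ho
    · have ho2 : Odd (vl s t es2 ρ2 w1 (((N.erase w).erase w0) \ Ω)) := by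
        obtain ⟨k, hk⟩ := he
        exact ⟨2 - k, by omega⟩
      have := hL5 _ hXN hw0X ho2
      omega
    · have := hL5 Ω hΩ hw0Ω ho
      omega
  have hInst : Inst s t (N.erase w) es2 ρ2 w1 {w0} g := by
    refine ⟨?_, mem_erase.2 ⟨fun h => hw1w h.symm, hI.w1N⟩, ?_, fun h => absurd h hges2, hL3, ?_,
      hE⟩
    · intro e he
      rcases mem_insert.1 he with h | h
      · rw [h]
        rcases hJ with ⟨h1, h2⟩ | ⟨h1, h2⟩
        · rw [h1, h2]
          exact ⟨mem_erase.2 ⟨hvw, hYN hv⟩, mem_erase.2 ⟨hw0w, hw0N⟩⟩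
        · rw [h1, h2]
          exact ⟨mem_erase.2 ⟨hw0w, hw0N⟩, mem_erase.2 ⟨hvw, hYN hv⟩⟩
      · rcases mem_union.1 h with h | h
        · have h1 := (mem_pA.1 h).2
          exact ⟨mem_erase.2 ⟨fun h => hwY (h ▸ h1.1), hYN h1.1⟩,
            mem_erase.2 ⟨fun h => hwY (h ▸ h1.2), hYN h1.2⟩⟩
        · have h1 := mem_erase.1 h
          have h2 := (mem_pB.1 h1.2).1
          have h3 := hI.ends e (hS.sub h2)
          exact ⟨mem_erase.2 ⟨(hQw e h2 h1.1).1, h3.1⟩, mem_erase.2 ⟨(hQw e h2 h1.1).2, h3.2⟩⟩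
    · rw [singleton_subset_iff]
      exact mem_erase.2 ⟨hw0w, hw0N⟩
    · intro Z hZ ho hd
      exact hL5 Z hZ (fun h => (disjoint_left.1 hd) h (mem_singleton_self _)) ho
  obtain ⟨P, u, hP⟩ := hIH s t (N.erase w) es2 ρ2 w1 {w0} g hcard hInst
  obtain rfl : u = w0 := mem_singleton.1 hP.uT
  have hPt := hP.touch u (mem_singleton_self _)
  rw [if_pos ⟨rfl, fun h => hw1w0 h.symm⟩] at hPt
  have hQP : ∀ e ∈ P, e = e2 ∨ e ∈ pA s t es Y ∨ e ∈ Q := by
    intro e he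
    rcases mem_insert.1 (hP.sub he) with h | h
    · exact Or.inl h
    · rcases mem_union.1 h with h | h
      · exact Or.inr (Or.inl h)
      · exact Or.inr (Or.inr (mem_pB.1 (mem_erase.1 h).2).1)
  have he2P : e2 ∈ P := by
    obtain ⟨e, he⟩ := card_pos.1 (show 0 < (P.filter (Cr s t {u})).card by
      have : (P.filter (Cr s t {u})).card = 1 := hPt
      omega)
    obtain ⟨h1, h2⟩ := mem_filter.1 he
    rw [cr_singleton] at h2
    rcases hQP e h1 with h | h | h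
    · rwa [← h]
    · have h3 := (mem_pA.1 h).2
      rcases h2 with h2 | h2
      · exact absurd (h2.1 ▸ h3.1) hw0
      · exact absurd (h2.2 ▸ h3.2) hw0
    · rcases h2 with h2 | h2
      · exact absurd h2.1 (hQw0 e h).1
      · exact absurd h2.2 (hQw0 e h).2
  have hgP : g ∉ P := hP.phi
  have hX : CX s t N es Q P Y ρ e2 g y w u :=
    ⟨hS.sub, hYN, hI.ends, hwY, hw0, hw0w, hyw, hyw0, hyN, hgB, hgA, hgcr, hQw, hQw0, he2C,
      he2io.2, hgP, he2P, hP.sub, hY3⟩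
  -- the values
  have hmain : ∀ W ⊆ N, Odd (vl s t es ρ w1 W) →
      (Odd (vl s t es ρ w1 (W ∩ Y)) ∧
        vl s t (es \ Q) ρ w (W ∪ Y) + 1 + (if u ∈ W then 1 else 0) ≤
        vl s t (es \ P) ρ u W + 2 * (if w ∈ W then 1 else 0) + (if u ∈ W then 0 else 1)) ∨
      (¬ Odd (vl s t es ρ w1 (W ∩ Y)) ∧
        vl s t (es \ Q) ρ w (W \ Y) ≤ vl s t (es \ P) ρ u W) := by
    intro W hW ho
    have hval : ∀ Z ⊆ N.erase w, u ∉ Z → Odd (vl s t es ρ w1 (Z ∩ Y)) →
        3 ≤ ct s t (pA s t es Y \ P) Z + ct s t (pB s t Q Y \ P) Z +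
          ∑ x ∈ Z ∩ Y, ρ x + (C'.filter fun e => inn s t Y e ∈ Z).card := by
      intro Z hZ hu hZo
      have hwZ : w ∉ Z := fun h => (mem_erase.1 (hZ h)).1 rfl
      have h1 : Odd (vl s t es2 ρ2 w1 Z) := by
        rw [hstar Z hwZ hu]
        exact ((hpar _).2 hZo).add_even (heven Z hwZ)
      have h2 := hP.val Z hZ h1
      have h3 := F2 (ρ := ρ) (w0 := u) C' hgB hgA hgP he2P (hgcr' Z hwZ)
      rw [h3, if_neg hu, if_neg hu] at h2
      omega
    by_cases hWY : Odd (vl s t es ρ w1 (W ∩ Y))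
    · left
      refine ⟨hWY, hX.ca W ?_⟩
      have hZ : (W.erase w).erase u ⊆ N.erase w := fun x hx => by
        have h1 := mem_erase.1 (mem_erase.1 hx).2
        exact mem_erase.2 ⟨h1.1, hW h1.2⟩
      have hZY : ((W.erase w).erase u) ∩ Y = W ∩ Y := by
        ext x
        rw [mem_inter, mem_inter, mem_erase, mem_erase]
        exact ⟨fun h => ⟨h.1.2.2, h.2⟩,
          fun h => ⟨⟨fun h' => hw0 (h' ▸ h.2), fun h' => hwY (h' ▸ h.2), h.1⟩, h.2⟩⟩
      exact hval _ hZ (notMem_erase _ _) (by rw [hZY]; exact hWY)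
    · right
      refine ⟨hWY, hX.cb hW ?_⟩
      have hZ : ((N \ W).erase w).erase u ⊆ N.erase w := fun x hx => by
        have h1 := mem_erase.1 (mem_erase.1 hx).2
        exact mem_erase.2 ⟨h1.1, (mem_sdiff.1 h1.2).1⟩
      have hZY : (((N \ W).erase w).erase u) ∩ Y = Y \ (W ∩ Y) := by
        ext x
        rw [mem_inter, mem_sdiff, mem_erase, mem_erase, mem_sdiff, mem_inter]
        exact ⟨fun h => ⟨h.2, fun h' => h.1.2.2.2 h'.1⟩,
          fun h => ⟨⟨fun h' => hw0 (h' ▸ h.1), fun h' => hwY (h' ▸ h.1), hYN h.1,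
            fun h' => h.2 ⟨h', h.1⟩⟩, h.1⟩⟩
      refine hval _ hZ (notMem_erase _ _) ?_
      rw [hZY]
      refine c_odd_sdiff hYo ?_
      rwa [inter_comm W Y, ← inter_assoc, inter_self, inter_comm]
  refine ⟨P, ⟨fun e he => (mem_erase.1 (hes2es (hP.sub he))).2, ?_, hw0N, hP.bd, ?_, ?_, ?_⟩⟩
  · intro h
    rcases hQP φ h with h1 | h1 | h1
    · exact he2φ h1.symm
    · have h2 := mem_pA.1 h1
      rcases hI.phi h2.1 with h3 | h3
      · exact (disjoint_left.1 hYT) h2.2.1 h3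
      · exact (disjoint_left.1 hYT) h2.2.2 h3
    · exact hS.phi h1
  · intro x hx
    by_cases hxu : x = u
    · rw [hxu, hPt, if_pos ⟨rfl, fun h => hw1w0 h.symm⟩]
    · rw [if_neg (fun h => hxu h.1)]
      refine c_zero fun e he h => ?_
      rcases hQP e he with h1 | h1 | h1
      · rw [h1, he2cr] at h
        have hxY : x ∉ Y := fun h' => (disjoint_left.1 hYT) h' hx
        rcases h with h | h
        · exact hxY (mem_singleton.1 h.1 ▸ hv)
        · exact hxu (mem_singleton.1 h.2).symm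
      · have hxY : x ∉ Y := fun h' => (disjoint_left.1 hYT) h' hx
        have h2 := (mem_pA.1 h1).2
        rw [cr_singleton] at h
        rcases h with h | h
        · exact hxY (h.1 ▸ h2.1)
        · exact hxY (h.2 ▸ h2.2)
      · have h2 := hS.touch x hx
        rw [if_neg (fun h : x = w ∧ w ≠ w1 => hwT (h.1 ▸ hx))] at h2
        exact c_notcr h2 h1 h
  · intro W hW ho
    rcases hmain W hW ho with ⟨h1, h2⟩ | ⟨h1, h2⟩
    · have hWY : Odd (vl s t es ρ w1 (W ∪ Y)) := c_odd_union ho hYo h1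
      have h3 := hS.V1 (W ∪ Y) (union_subset hW hYN) hWY
      by_cases hw : w ∈ W
      · by_cases hu : u ∈ W
        · rw [if_pos hw, if_pos hu, if_pos hu] at h2
          omega
        · have h4 := hA (W ∪ Y) (union_subset hW hYN) hWY (mem_union_left _ hw)
            (fun h => (mem_union.1 h).elim hu hw0)
          rw [if_pos hw, if_neg hu, if_neg hu] at h2
          omega
      · rw [if_neg hw] at h2
        split_ifs at h2 <;> omega
    · have h3 := hS.V1 (W \ Y) (fun x hx => hW (mem_sdiff.1 hx).1) (c_odd_sdiff ho h1)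
      omega
  · intro W hW ho hd hu
    rcases hmain W hW ho with ⟨h1, h2⟩ | ⟨h1, h2⟩
    · have hWY : Odd (vl s t es ρ w1 (W ∪ Y)) := c_odd_union ho hYo h1
      rw [if_pos hu, if_pos hu] at h2
      by_cases hw : w ∈ W
      · have h4 := hS.V2 (W ∪ Y) (union_subset hW hYN) hWY (disjoint_union_left.2 ⟨hd, hYT⟩)
          (mem_union_left _ hw)
        rw [if_pos hw] at h2
        omega
      · have h3 := hS.V1 (W ∪ Y) (union_subset hW hYN) hWY
        rw [if_neg hw] at h2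
        omega
    · have hsub : W \ Y ⊆ N := fun x hx => hW (mem_sdiff.1 hx).1
      have hd' : Disjoint (W \ Y) T := disjoint_of_subset_left sdiff_subset hd
      by_cases hw : w ∈ W
      · have h4 := hS.V2 (W \ Y) hsub (c_odd_sdiff ho h1) hd' (mem_sdiff.2 ⟨hw, hwY⟩)
        omega
      · have h4 := hC (W \ Y) hsub (c_odd_sdiff ho h1) hd' (fun h => hw (mem_sdiff.1 h).1)
          (mem_sdiff.2 ⟨hu, hw0⟩)
        omega

end ThmQ
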