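import Pool.Agent.Lib.ThmQ.Main

/-! # Theorem Q in the dart form -/

set_option autoImplicit false

namespace ThmQ

open Finset Classical

variable {V D : Type*}

/-- number of darts of `A` leaving `W` -/
noncomputable def dct (al : D → D) (nd : D → V) (A : Finset D) (W : Finset V) : ℕ :=
  (A.filter fun d => nd d ∈ W ∧ nd (al d) ∉ W).card

/-- value: darts of `A` leaving `W`, root edges at `W`, token at `z` -/
noncomputable def dv (al : D → D) (nd : D → V) (A : Finset D) (ρ : V → ℕ) (z : V)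
    (W : Finset V) : ℕ :=
  dct al nd A W + ∑ v ∈ W, ρ v + (if z ∈ W then 1 else 0)

/-- hypotheses of Theorem Q for darts. `al` is a fixed point free involution of `ds` (the inner
edges), `nd d` is the node of `d`, `ρ` counts the root edges other than the start edge (at `w1`);
the edge of the dart `φ` is forbidden (`φ ∉ ds`: nothing is forbidden) -/
structure DInst (al : D → D) (nd : D → V) (N : Finset V) (ds : Finset D) (ρ : V → ℕ) (w1 : V)
    (T : Finset V) (φ : D) : Prop where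
  al_mem : ∀ d ∈ ds, al d ∈ ds
  al_al : ∀ d ∈ ds, al (al d) = d
  al_ne : ∀ d ∈ ds, al d ≠ d
  nd_mem : ∀ d ∈ ds, nd d ∈ N
  w1N : w1 ∈ N
  TN : T ⊆ N
  phi : φ ∈ ds → nd φ ∈ T ∨ nd (al φ) ∈ T
  L3 : ∀ W ⊆ N, Odd (dv al nd ds ρ w1 W) → 3 ≤ dv al nd ds ρ w1 W
  L5 : ∀ W ⊆ N, Odd (dv al nd ds ρ w1 W) → Disjoint W T → 5 ≤ dv al nd ds ρ w1 W
  E : ∀ Ω ⊆ N, w1 ∈ Ω → Disjoint Ω T → ∃ d ∈ ds, d ≠ φ ∧ al d ≠ φ ∧ nd d ∈ Ω ∧ nd (al d) ∉ Ω

/-- conclusion of Theorem Q for darts -/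
structure DSol (al : D → D) (nd : D → V) (N : Finset V) (ds : Finset D) (ρ : V → ℕ) (w1 : V)
    (T : Finset V) (φ : D) (P : Finset D) (u : V) : Prop where
  sub : P ⊆ ds
  clo : ∀ d ∈ P, al d ∈ P
  phi : φ ∉ P
  uT : u ∈ T
  bd : ∀ v, (dct al nd P {v} : ZMod 2) = (if v = w1 then 1 else 0) + (if v = u then 1 else 0)
  touch : ∀ v ∈ T, dct al nd P {v} = if v = u ∧ u ≠ w1 then 1 else 0
  val : ∀ W ⊆ N, Odd (dv al nd ds ρ w1 W) → 3 ≤ dv al nd (ds \ P) ρ u W
  acyc : ∀ B ⊆ P, (∀ d ∈ B, al d ∈ B) → (∀ v, (dct al nd B {v} : ZMod 2) = 0) → B = ∅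

/-- one dart of each edge -/
theorem exists_rep {ds : Finset D} {al : D → D} (h1 : ∀ d ∈ ds, al d ∈ ds) (h2 : ∀ d ∈ ds, al (al d) = d)
    (h3 : ∀ d ∈ ds, al d ≠ d) : ∃ R ⊆ ds, ∀ d ∈ ds, (d ∈ R ∨ al d ∈ R) ∧ ¬ (d ∈ R ∧ al d ∈ R) := by
  refine ⟨ds.filter fun d => WellOrderingRel d (al d), filter_subset _ _, ?_⟩
  intro d hd
  have h4 := h1 d hd
  rw [mem_filter, mem_filter, h2 d hd]
  constructor
  · rcases trichotomous_of WellOrderingRel d (al d) with h | h | h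
    · exact Or.inl ⟨hd, h⟩
    · exact absurd h.symm (h3 d hd)
    · exact Or.inr ⟨h4, h⟩
  · rintro ⟨⟨_, h5⟩, ⟨_, h6⟩⟩
    exact asymm_of WellOrderingRel h5 h6

/-- counting crossing edges by representatives -/
theorem ct_rep {ds R : Finset D} {al : D → D} {nd : D → V} (h1 : ∀ d ∈ ds, al d ∈ ds)
    (h2 : ∀ d ∈ ds, al (al d) = d)
    (hR : R ⊆ ds) (hR' : ∀ d ∈ ds, (d ∈ R ∨ al d ∈ R) ∧ ¬ (d ∈ R ∧ al d ∈ R))
    {A : Finset D} (hA : A ⊆ ds) (hAc : ∀ d ∈ A, al d ∈ A) (W : Finset V) :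
    ct nd (fun d => nd (al d)) (A ∩ R) W = dct al nd A W := by
  unfold ct dct
  refine card_bij' (fun d _ => if nd d ∈ W then d else al d) (fun d _ => if d ∈ R then d else al d)
    ?_ ?_ ?_ ?_
  · intro d hd
    rw [mem_filter, mem_inter] at hd
    obtain ⟨⟨hdA, hdR⟩, hc⟩ := hd
    have hds := hA hdA
    rcases hc with ⟨h4, h5⟩ | ⟨h4, h5⟩
    · rw [if_pos h4, mem_filter]
      exact ⟨hdA, h4, h5⟩
    · rw [if_neg h4, mem_filter]
      refine ⟨hAc d hdA, h5, ?_⟩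
      rw [h2 d hds]
      exact h4
  · intro d hd
    rw [mem_filter] at hd
    obtain ⟨hdA, h4, h5⟩ := hd
    have hds := hA hdA
    by_cases h6 : d ∈ R
    · rw [if_pos h6, mem_filter, mem_inter]
      exact ⟨⟨hdA, h6⟩, Or.inl ⟨h4, h5⟩⟩
    · rw [if_neg h6, mem_filter, mem_inter]
      have h7 : al d ∈ R := ((hR' d hds).1).resolve_left h6
      refine ⟨⟨hAc d hdA, h7⟩, Or.inr ⟨h5, ?_⟩⟩
      show nd (al (al d)) ∈ W
      rw [h2 d hds]
      exact h4
  · intro d hd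
    rw [mem_filter, mem_inter] at hd
    obtain ⟨⟨hdA, hdR⟩, hc⟩ := hd
    have hds := hA hdA
    by_cases h4 : nd d ∈ W
    · rw [if_pos h4, if_pos hdR]
    · rw [if_neg h4]
      have h6 : al d ∉ R := fun h => (hR' d hds).2 ⟨hdR, h⟩
      rw [if_neg h6, h2 d hds]
  · intro d hd
    rw [mem_filter] at hd
    obtain ⟨hdA, h4, h5⟩ := hd
    have hds := hA hdA
    by_cases h6 : d ∈ R
    · rw [if_pos h6, if_pos h4]
    · rw [if_neg h6, if_neg h5, h2 d hds]

theorem main_dart {al : D → D} {nd : D → V} {N : Finset V} {ds : Finset D} {ρ : V → ℕ} {w1 : V}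
    {T : Finset V} {φ : D} (hI : DInst al nd N ds ρ w1 T φ) :
    ∃ P u, DSol al nd N ds ρ w1 T φ P u := by
  obtain ⟨R, hRs, hR⟩ := exists_rep hI.al_mem hI.al_al hI.al_ne
  have hct : ∀ A ⊆ ds, (∀ d ∈ A, al d ∈ A) → ∀ W,
      ct nd (fun d => nd (al d)) (A ∩ R) W = dct al nd A W :=
    fun A hA hAc W => ct_rep hI.al_mem hI.al_al hRs hR hA hAc W
  have hctds : ∀ W, ct nd (fun d => nd (al d)) R W = dct al nd ds W := by
    intro W
    rw [← hct ds (Subset.refl _) hI.al_mem W, inter_eq_right.2 hRs]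
  have hvl : ∀ z W, vl nd (fun d => nd (al d)) R ρ z W = dv al nd ds ρ z W := by
    intro z W
    unfold vl dv
    rw [hctds]
  -- the representative of `φ`
  obtain ⟨φ', hφ⟩ : ∃ φ' : D, (φ' = φ ∧ (φ ∈ R ∨ φ ∉ ds)) ∨ (φ' = al φ ∧ φ ∈ ds ∧ φ ∉ R) := by
    by_cases h1 : φ ∈ ds
    · by_cases h2 : φ ∈ R
      · exact ⟨φ, Or.inl ⟨rfl, Or.inl h2⟩⟩
      · exact ⟨al φ, Or.inr ⟨rfl, h1, h2⟩⟩
    · exact ⟨φ, Or.inl ⟨rfl, Or.inr h1⟩⟩
  have hInst : Inst nd (fun d => nd (al d)) N R ρ w1 T φ' := by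
    refine ⟨fun e he => ⟨hI.nd_mem e (hRs he), hI.nd_mem _ (hI.al_mem e (hRs he))⟩, hI.w1N, hI.TN,
      ?_, ?_, ?_, ?_⟩
    · intro h
      rcases hφ with ⟨h1, _⟩ | ⟨h1, h2, _⟩
      · rw [h1] at h ⊢
        exact hI.phi (hRs h)
      · rw [h1]
        have h4 := hI.phi h2
        show nd (al φ) ∈ T ∨ nd (al (al φ)) ∈ T
        rw [hI.al_al φ h2]
        exact h4.symm
    · intro W hW ho
      rw [hvl] at ho ⊢
      exact hI.L3 W hW ho
    · intro W hW ho hd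
      rw [hvl] at ho ⊢
      exact hI.L5 W hW ho hd
    · intro Ω hΩ hw hd
      obtain ⟨d, hds, h1, h2, h3, h4⟩ := hI.E Ω hΩ hw hd
      rcases (hR d hds).1 with h5 | h5
      · refine ⟨d, h5, ?_, Or.inl ⟨h3, h4⟩⟩
        rcases hφ with ⟨h6, _⟩ | ⟨h6, h7, _⟩
        · rw [h6]; exact h1
        · rw [h6]
          intro h8
          apply h2
          rw [h8, hI.al_al φ h7]
      · refine ⟨al d, h5, ?_, Or.inr ⟨h4, ?_⟩⟩
        · rcases hφ with ⟨h6, _⟩ | ⟨h6, h7, _⟩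
          · rw [h6]; exact h2
          · rw [h6]
            intro h8
            apply h1
            rw [← hI.al_al d hds, h8, hI.al_al φ h7]
        · show nd (al (al d)) ∈ Ω
          rw [hI.al_al d hds]
          exact h3
  obtain ⟨P, u, hP, hac⟩ := main hInst
  have hPR : P ⊆ R := hP.sub
  have hPds : P ⊆ ds := hPR.trans hRs
  set P' : Finset D := P ∪ P.image al with hP'
  have hP'ds : P' ⊆ ds := by
    rw [hP']
    refine union_subset hPds ?_
    intro d hd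
    obtain ⟨e, he, rfl⟩ := mem_image.1 hd
    exact hI.al_mem e (hPds he)
  have hP'c : ∀ d ∈ P', al d ∈ P' := by
    intro d hd
    rw [hP', mem_union] at hd ⊢
    rcases hd with hd | hd
    · exact Or.inr (mem_image_of_mem _ hd)
    · obtain ⟨e, he, rfl⟩ := mem_image.1 hd
      rw [hI.al_al e (hPds he)]
      exact Or.inl he
  have hP'R : P' ∩ R = P := by
    ext d
    rw [mem_inter, hP', mem_union]
    constructor
    · rintro ⟨h | h, h2⟩
      · exact h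
      · obtain ⟨e, he, rfl⟩ := mem_image.1 h
        exact absurd ⟨hPR he, h2⟩ (hR e (hPds he)).2
    · intro h
      exact ⟨Or.inl h, hPR h⟩
  have hdc : ∀ W, dct al nd P' W = ct nd (fun d => nd (al d)) P W := by
    intro W
    rw [← hct P' hP'ds hP'c W, hP'R]
  refine ⟨P', u, hP'ds, hP'c, ?_, hP.uT, ?_, ?_, ?_, ?_⟩
  · intro h
    rw [hP', mem_union] at h
    rcases h with h | h
    · rcases hφ with ⟨h6, _⟩ | ⟨_, _, h8⟩
      · exact hP.phi (h6 ▸ h)
      · exact h8 (hPR h)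
    · obtain ⟨e, he, hee⟩ := mem_image.1 h
      rcases hφ with ⟨_, h7⟩ | ⟨h6, h7, h8⟩
      · rcases h7 with h7 | h7
        · rw [← hee] at h7
          exact (hR e (hPds he)).2 ⟨hPR he, h7⟩
        · exact h7 (hee ▸ hI.al_mem e (hPds he))
      · apply hP.phi
        rw [h6, ← hee, hI.al_al e (hPds he)]
        exact he
  · intro v
    rw [hdc]
    exact hP.bd v
  · intro v hv
    rw [hdc]
    exact hP.touch v hv
  · intro W hW ho
    have h1 := hP.val W hW (by rw [hvl]; exact ho)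
    have h2 : (ds \ P') ∩ R = R \ P := by
      ext d
      rw [mem_inter, mem_sdiff, mem_sdiff]
      constructor
      · rintro ⟨⟨_, h3⟩, h4⟩
        exact ⟨h4, fun h5 => h3 (by rw [hP', mem_union]; exact Or.inl h5)⟩
      · rintro ⟨h3, h4⟩
        refine ⟨⟨hRs h3, fun h5 => h4 ?_⟩, h3⟩
        rw [← hP'R]
        exact mem_inter.2 ⟨h5, h3⟩
    have h3 : ∀ d ∈ ds \ P', al d ∈ ds \ P' := by
      intro d hd
      rw [mem_sdiff] at hd ⊢
      refine ⟨hI.al_mem d hd.1, fun h => hd.2 ?_⟩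
      have := hP'c _ h
      rwa [hI.al_al d hd.1] at this
    unfold dv
    rw [← hct (ds \ P') sdiff_subset h3 W, h2]
    exact h1
  · intro B hB hBc hev
    have h1 : B ∩ R = ∅ := by
      refine hac (B ∩ R) ?_ ?_
      · intro d hd
        rw [← hP'R]
        exact inter_subset_inter_right hB hd
      · intro v
        rw [hct B (hB.trans hP'ds) hBc]
        exact hev v
    rw [eq_empty_iff_forall_notMem]
    intro d hd
    rcases (hR d (hP'ds (hB hd))).1 with h2 | h2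
    · exact (eq_empty_iff_forall_notMem.1 h1) d (mem_inter.2 ⟨hd, h2⟩)
    · exact (eq_empty_iff_forall_notMem.1 h1) (al d) (mem_inter.2 ⟨hBc d hd, h2⟩)

end ThmQ
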