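import Mathlib

/-!
# Theorem Q (S5, MP_c95763_co, page pent84.md, section 2): definitions

Set form, proof by helper96 (no trails, no links, end points never change; induction on the number
of edges). The root edges are given by a function `ρ : V → ℕ` (they are never used, except the
start edge `e1` at `w1`, which is not counted in `ρ`). A trail from the root to `w` is given by the
set `Q` of its inner edges: all degrees even except at `w1` and `w` (`Bd s t Q w1 w`). The value
`f_Q(W)` of the page is `vl s t (es \ Q) ρ w W`, and `d(W) = vl s t es ρ w1 W`. A set `W` is odd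
iff `d(W)` is odd.
-/

set_option autoImplicit false

namespace ThmQ

open Finset Classical

variable {V E : Type*}

/-- the edge `e` crosses `W` -/
def Cr (s t : E → V) (W : Finset V) (e : E) : Prop :=
  (s e ∈ W ∧ t e ∉ W) ∨ (s e ∉ W ∧ t e ∈ W)

/-- the number of edges of `A` crossing `W` -/
noncomputable def ct (s t : E → V) (A : Finset E) (W : Finset V) : ℕ :=
  (A.filter (Cr s t W)).card

/-- the value of `W`: edges of `A` crossing `W`, root edges at `W`, and the token at `z` -/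
noncomputable def vl (s t : E → V) (A : Finset E) (ρ : V → ℕ) (z : V) (W : Finset V) : ℕ :=
  ct s t A W + ∑ v ∈ W, ρ v + (if z ∈ W then 1 else 0)

/-- the boundary of the edge set `A` modulo 2 is `{p} + {q}` -/
def Bd (s t : E → V) (A : Finset E) (p q : V) : Prop :=
  ∀ v, (ct s t A {v} : ZMod 2) = (if v = p then 1 else 0) + (if v = q then 1 else 0)

/-- all degrees of `A` are even -/
def Ev (s t : E → V) (A : Finset E) : Prop := ∀ v, (ct s t A {v} : ZMod 2) = 0

/-- no nonempty subset with even degrees: `A` is a forest -/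
def Acyc (s t : E → V) (A : Finset E) : Prop := ∀ B ⊆ A, Ev s t B → B = ∅

/-- `e` joins `v` and `v'` -/
def Jn (s t : E → V) (e : E) (v v' : V) : Prop := (s e = v ∧ t e = v') ∨ (s e = v' ∧ t e = v)

/-- the hypotheses of Theorem Q (`φ ∉ es` means that nothing is forbidden) -/
structure Inst (s t : E → V) (N : Finset V) (es : Finset E) (ρ : V → ℕ) (w1 : V) (T : Finset V)
    (φ : E) : Prop where
  ends : ∀ e ∈ es, s e ∈ N ∧ t e ∈ N
  w1N : w1 ∈ N
  TN : T ⊆ N
  phi : φ ∈ es → s φ ∈ T ∨ t φ ∈ T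
  L3 : ∀ W ⊆ N, Odd (vl s t es ρ w1 W) → 3 ≤ vl s t es ρ w1 W
  L5 : ∀ W ⊆ N, Odd (vl s t es ρ w1 W) → Disjoint W T → 5 ≤ vl s t es ρ w1 W
  E : ∀ Ω ⊆ N, w1 ∈ Ω → Disjoint Ω T → ∃ e ∈ es, e ≠ φ ∧ Cr s t Ω e

/-- the conclusion of Theorem Q: `P` = the inner edges of the trail, from `w1` to `u ∈ T`; `T` is
touched only in `u`, by one edge (by no edge if `u = w1`) -/
structure Sol (s t : E → V) (N : Finset V) (es : Finset E) (ρ : V → ℕ) (w1 : V) (T : Finset V)
    (φ : E) (P : Finset E) (u : V) : Prop where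
  sub : P ⊆ es
  phi : φ ∉ P
  uT : u ∈ T
  bd : Bd s t P w1 u
  touch : ∀ v ∈ T, ct s t P {v} = if v = u ∧ u ≠ w1 then 1 else 0
  val : ∀ W ⊆ N, Odd (vl s t es ρ w1 W) → 3 ≤ vl s t (es \ P) ρ u W

/-- states `(Q, w)` (without the path `R`) -/
structure St (s t : E → V) (N : Finset V) (es : Finset E) (ρ : V → ℕ) (w1 : V) (T : Finset V)
    (φ : E) (Q : Finset E) (w : V) : Prop where
  sub : Q ⊆ es
  phi : φ ∉ Q
  wN : w ∈ N
  bd : Bd s t Q w1 w
  touch : ∀ v ∈ T, ct s t Q {v} = if v = w ∧ w ≠ w1 then 1 else 0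
  V1 : ∀ W ⊆ N, Odd (vl s t es ρ w1 W) → 3 ≤ vl s t (es \ Q) ρ w W
  V2 : ∀ W ⊆ N, Odd (vl s t es ρ w1 W) → Disjoint W T → w ∈ W → 5 ≤ vl s t (es \ Q) ρ w W

/-- induction hypothesis: the theorem for fewer than `n` edges -/
def IH (V E : Type*) (n : ℕ) : Prop :=
  ∀ (s t : E → V) (N : Finset V) (es : Finset E) (ρ : V → ℕ) (w1 : V) (T : Finset V) (φ : E),
    es.card < n → Inst s t N es ρ w1 T φ → ∃ P u, Sol s t N es ρ w1 T φ P u

end ThmQ
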