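import Pool.Agent.Lib.ThmQ.Basic

/-! # Theorem Q: forests with boundary `{p} + {q}` -/

set_option autoImplicit false

namespace ThmQ

open Finset Classical

variable {V E : Type*} {s t : E → V}

/-- one edge modulo 2 -/
private lemma cr_zmod (e : E) (v : V) : ((if Cr s t {v} e then 1 else 0 : ℕ) : ZMod 2) =
    (if v = s e then 1 else 0) + (if v = t e then 1 else 0) := by
  have h := ct_parity (s := s) (t := t) {e} {v}
  by_cases h2 : v = s e
  · by_cases h3 : v = t e
    · have : ¬ Cr s t {v} e := by
        rw [cr_singleton, ← h2, ← h3]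
        simp
      rw [if_neg this, if_pos h2, if_pos h3]
      norm_num
      decide
    · have : Cr s t {v} e := by
        rw [cr_singleton, ← h2]
        left
        exact ⟨rfl, fun h => h3 h.symm⟩
      rw [if_pos this, if_pos h2, if_neg h3]
      norm_num
  · by_cases h3 : v = t e
    · have : Cr s t {v} e := by
        rw [cr_singleton, ← h3]
        right
        exact ⟨fun h => h2 h.symm, rfl⟩
      rw [if_pos this, if_neg h2, if_pos h3]
      norm_num
    · have : ¬ Cr s t {v} e := by
        rw [cr_singleton]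
        rintro (h | h)
        · exact h2 h.1.symm
        · exact h3 h.2.symm
      rw [if_neg this, if_neg h2, if_neg h3]
      norm_num

/-- an edge of a forest is not a loop -/
theorem Acyc.noloop {A : Finset E} (ha : Acyc s t A) {e : E} (he : e ∈ A) : s e ≠ t e := by
  intro h
  have h1 : ({e} : Finset E) = ∅ := by
    refine ha {e} (singleton_subset_iff.2 he) fun v => ?_
    rw [ct_eq_sum, sum_singleton, cr_zmod, ← h]
    split_ifs
    · decide
    · simp
  exact singleton_ne_empty e h1

/-- (i): a forest with boundary `{p} + {q}` which does not cross `W` does not touch `W` -/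
theorem Acyc.untouched {A : Finset E} {p q : V} (ha : Acyc s t A) (hb : Bd s t A p q)
    {W : Finset V} (hp : p ∉ W) (hq : q ∉ W) (h0 : ct s t A W = 0) :
    ∀ e ∈ A, s e ∉ W ∧ t e ∉ W := by
  have hnc : ∀ e ∈ A, ¬ Cr s t W e := by
    intro e he hc
    have : e ∈ A.filter (Cr s t W) := mem_filter.2 ⟨he, hc⟩
    rw [card_eq_zero.1 h0] at this
    exact notMem_empty _ this
  have hB : (A.filter fun e => s e ∈ W) = ∅ := by
    refine ha _ (filter_subset _ _) fun v => ?_
    by_cases hv : v ∈ W
    · have h1 : ct s t (A.filter fun e => s e ∈ W) {v} = ct s t A {v} := by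
        unfold ct
        congr 1
        ext e
        rw [mem_filter, mem_filter, mem_filter]
        constructor
        · rintro ⟨⟨h1, -⟩, h2⟩
          exact ⟨h1, h2⟩
        · rintro ⟨h1, h2⟩
          refine ⟨⟨h1, ?_⟩, h2⟩
          rw [cr_singleton] at h2
          rcases h2 with h2 | h2
          · rw [h2.1]
            exact hv
          · by_contra h3
            exact hnc e h1 (Or.inr ⟨h3, by rw [h2.2]; exact hv⟩)
      rw [h1, hb v, if_neg (fun e => hp (by rw [← e]; exact hv)),
        if_neg (fun e => hq (by rw [← e]; exact hv)), add_zero]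
    · have h1 : ct s t (A.filter fun e => s e ∈ W) {v} = 0 := by
        unfold ct
        rw [card_eq_zero, filter_eq_empty_iff]
        intro e he hc
        rw [mem_filter] at he
        rw [cr_singleton] at hc
        rcases hc with hc | hc
        · exact hv (by rw [← hc.1]; exact he.2)
        · exact hnc e he.1 (Or.inl ⟨he.2, by rw [hc.2]; exact hv⟩)
      rw [h1, Nat.cast_zero]
  intro e he
  have h1 : s e ∉ W := fun h => by
    have : e ∈ A.filter fun e => s e ∈ W := mem_filter.2 ⟨he, h⟩
    rw [hB] at this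
    exact notMem_empty _ this
  exact ⟨h1, fun h => hnc e he (Or.inr ⟨h1, h⟩)⟩

/-- boundary of the empty set -/
private lemma bd_empty (p : V) : Bd s t (∅ : Finset E) p p := by
  intro v
  rw [ct_empty, Nat.cast_zero]
  split_ifs
  · decide
  · simp

/-- toggling an edge -/
private lemma Bd.tog {D : Finset E} {p x y : V} (h : Bd s t D p x) {e : E}
    (he : (s e = x ∧ t e = y) ∨ (s e = y ∧ t e = x)) :
    ∃ D' ⊆ insert e D, Bd s t D' p y := by
  have hz : ∀ v, ((if Cr s t {v} e then 1 else 0 : ℕ) : ZMod 2) =
      (if v = x then 1 else 0) + (if v = y then 1 else 0) := by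
    intro v
    rw [cr_zmod]
    rcases he with ⟨rfl, rfl⟩ | ⟨rfl, rfl⟩
    · rfl
    · rw [add_comm]
  have two : ∀ a : ZMod 2, a + a = 0 := by decide
  by_cases hD : e ∈ D
  · refine ⟨D.erase e, (erase_subset _ _).trans (subset_insert _ _), fun v => ?_⟩
    have h1 := ct_insert (s := s) (t := t) (notMem_erase e D) {v}
    rw [insert_erase hD] at h1
    have h2 := h v
    rw [h1, Nat.cast_add, hz v] at h2
    calc (ct s t (D.erase e) {v} : ZMod 2) =
          ((ct s t (D.erase e) {v} : ZMod 2) + ((if v = x then 1 else 0) + (if v = y then 1 else 0)))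
            + ((if v = x then 1 else 0) + (if v = y then 1 else 0)) := by
          rw [add_assoc, two, add_zero]
      _ = _ := by
          rw [h2]
          have : ∀ a b c : ZMod 2, a + b + (b + c) = a + c := by decide
          exact this _ _ _
  · refine ⟨insert e D, Subset.refl _, fun v => ?_⟩
    rw [ct_insert hD, Nat.cast_add, hz v, h v]
    have : ∀ a b c : ZMod 2, a + b + (b + c) = a + c := by decide
    exact this _ _ _

/-- (ii): a vertex touched by a forest with boundary `{p} + {q}` is joined to `p` -/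
theorem Acyc.part_to {A : Finset E} {p q : V} (ha : Acyc s t A) (hb : Bd s t A p q)
    {v : V} (hv : ct s t A {v} ≠ 0) : ∃ D ⊆ A, Bd s t D p v := by
  by_contra hn
  have hclo : ∀ e ∈ A, ∀ x y : V, ((s e = x ∧ t e = y) ∨ (s e = y ∧ t e = x)) →
      (∃ D ⊆ A, Bd s t D p x) → ∃ D ⊆ A, Bd s t D p y := by
    rintro e he x y hxy ⟨D, hD, hbd⟩
    obtain ⟨D', h1, h2⟩ := hbd.tog hxy
    exact ⟨D', h1.trans (insert_subset he hD), h2⟩
  have hB : (A.filter fun e => ¬ ∃ D ⊆ A, Bd s t D p (s e)) = ∅ := by
    refine ha _ (filter_subset _ _) fun x => ?_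
    by_cases hx : ∃ D ⊆ A, Bd s t D p x
    · have h1 : ct s t (A.filter fun e => ¬ ∃ D ⊆ A, Bd s t D p (s e)) {x} = 0 := by
        unfold ct
        rw [card_eq_zero, filter_eq_empty_iff]
        intro e he hc
        rw [mem_filter] at he
        rw [cr_singleton] at hc
        rcases hc with hc | hc
        · exact he.2 (by rw [hc.1]; exact hx)
        · exact he.2 (hclo e he.1 x (s e) (Or.inr ⟨rfl, hc.2⟩) hx)
      rw [h1, Nat.cast_zero]
    · have h1 : ct s t (A.filter fun e => ¬ ∃ D ⊆ A, Bd s t D p (s e)) {x} = ct s t A {x} := by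
        unfold ct
        congr 1
        ext e
        rw [mem_filter, mem_filter, mem_filter]
        constructor
        · rintro ⟨⟨h1, -⟩, h2⟩
          exact ⟨h1, h2⟩
        · rintro ⟨h1, h2⟩
          refine ⟨⟨h1, fun h3 => hx ?_⟩, h2⟩
          rw [cr_singleton] at h2
          rcases h2 with h2 | h2
          · rw [h2.1] at h3
            exact h3
          · exact hclo e h1 (s e) x (Or.inl ⟨rfl, h2.2⟩) h3
      have hp : x ≠ p := fun e => hx ⟨∅, empty_subset _, by rw [e]; exact bd_empty p⟩
      have hq : x ≠ q := fun e => hx ⟨A, Subset.refl _, by rw [e]; exact hb⟩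
      rw [h1, hb x, if_neg hp, if_neg hq, add_zero]
  apply hv
  unfold ct
  rw [card_eq_zero, filter_eq_empty_iff]
  intro e he hc
  have h1 : ∃ D ⊆ A, Bd s t D p (s e) := by
    by_contra h2
    have : e ∈ A.filter fun e => ¬ ∃ D ⊆ A, Bd s t D p (s e) := mem_filter.2 ⟨he, h2⟩
    rw [hB] at this
    exact notMem_empty _ this
  rw [cr_singleton] at hc
  rcases hc with hc | hc
  · rw [hc.1] at h1
    exact hn h1
  · exact hn (hclo e he (s e) v (Or.inl ⟨rfl, hc.2⟩) h1)

/-- if all degrees except one are even, all are even -/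
private lemma ev_of_but {B : Finset E} {q : V}
    (h : ∀ x, x ≠ q → (ct s t B {x} : ZMod 2) = 0) : Ev s t B := by
  intro v
  by_cases hv : v = q
  · rw [hv]
    have h1 := ct_parity (s := s) (t := t) B (insert q (B.image s ∪ B.image t))
    have h2 : ct s t B (insert q (B.image s ∪ B.image t)) = 0 := by
      unfold ct
      rw [card_eq_zero, filter_eq_empty_iff]
      intro e he hc
      have m1 : s e ∈ insert q (B.image s ∪ B.image t) :=
        mem_insert_of_mem (mem_union_left _ (mem_image_of_mem _ he))
      have m2 : t e ∈ insert q (B.image s ∪ B.image t) :=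
        mem_insert_of_mem (mem_union_right _ (mem_image_of_mem _ he))
      rcases hc with hc | hc
      · exact hc.2 m2
      · exact hc.1 m1
    rw [h2, Nat.cast_zero, ← sum_erase_add _ _ (mem_insert_self q _),
      sum_eq_zero (fun x hx => h x (mem_erase.1 hx).1), zero_add] at h1
    exact h1.symm
  · exact h v hv

/-- sum of two sets with the same first end -/
private lemma bd_add {D1 D2 : Finset E} {p x y : V} (h1 : Bd s t D1 p x) (h2 : Bd s t D2 p y) :
    ∃ D ⊆ D1 ∪ D2, ∀ v, (ct s t D {v} : ZMod 2) = (if v = x then 1 else 0) + (if v = y then 1 else 0) := by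
  refine ⟨(D1 \ D2) ∪ (D2 \ D1), union_subset_union sdiff_subset sdiff_subset, fun v => ?_⟩
  have hd : Disjoint (D1 \ D2) (D2 \ D1) := by
    rw [disjoint_left]
    intro e he he'
    exact (mem_sdiff.1 he').2 (mem_sdiff.1 he).1
  have e1 : ct s t (D1 \ D2) {v} + ct s t (D1 ∩ D2) {v} = ct s t D1 {v} := by
    have := ct_sdiff (s := s) (t := t) (A := D1) (B := D1 ∩ D2) inter_subset_left {v}
    rwa [sdiff_inter_self_left] at this
  have e2 : ct s t (D2 \ D1) {v} + ct s t (D1 ∩ D2) {v} = ct s t D2 {v} := by
    have := ct_sdiff (s := s) (t := t) (A := D2) (B := D2 ∩ D1) inter_subset_left {v}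
    rw [sdiff_inter_self_left, inter_comm] at this
    exact this
  have f1 := h1 v
  have f2 := h2 v
  rw [← e1, Nat.cast_add] at f1
  rw [← e2, Nat.cast_add] at f2
  rw [ct_union hd, Nat.cast_add]
  have key : ∀ a b c P X Y : ZMod 2, a + c = P + X → b + c = P + Y → a + b = X + Y := by decide
  exact key _ _ _ _ _ _ f1 f2

/-- (iii): there is exactly one edge at the end `q` -/
theorem Acyc.one {A : Finset E} {p q : V} (ha : Acyc s t A) (hb : Bd s t A p q)
    (hpq : q ≠ p) : ct s t A {q} = 1 := by
  -- vertices joined to `p` without edges at `q`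
  let J : V → Prop := fun x => ∃ D ⊆ A.filter (fun e => ¬ Cr s t {q} e), Bd s t D p x
  have hJp : J p := ⟨∅, empty_subset _, bd_empty p⟩
  have hclo : ∀ e ∈ A, ¬ Cr s t {q} e → ∀ x y : V,
      ((s e = x ∧ t e = y) ∨ (s e = y ∧ t e = x)) → J x → J y := by
    rintro e he hq x y hxy ⟨D, hD, hbd⟩
    obtain ⟨D', h1, h2⟩ := hbd.tog hxy
    exact ⟨D', h1.trans (insert_subset (mem_filter.2 ⟨he, hq⟩) hD), h2⟩
  have hnq : ∀ e ∈ A, s e = q ∨ t e = q → Cr s t {q} e := by
    intro e he h
    rw [cr_singleton]
    have hl := ha.noloop he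
    rcases h with h | h
    · exact Or.inl ⟨h, fun h' => hl (by rw [h, h'])⟩
    · exact Or.inr ⟨fun h' => hl (by rw [h, h']), h⟩
  -- all edges at `q` go to vertices with `J`
  have hB : (A.filter fun e => (s e ≠ q ∧ ¬ J (s e)) ∨ (t e ≠ q ∧ ¬ J (t e))) = ∅ := by
    refine ha _ (filter_subset _ _) (ev_of_but (q := q) fun x hxq => ?_)
    by_cases hx : J x
    · have h1 : ct s t (A.filter fun e => (s e ≠ q ∧ ¬ J (s e)) ∨ (t e ≠ q ∧ ¬ J (t e))) {x} = 0 := by
        unfold ct
        rw [card_eq_zero, filter_eq_empty_iff]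
        intro e he hc
        rw [mem_filter] at he
        rw [cr_singleton] at hc
        have hcr : ¬ Cr s t {q} e → False := by
          intro h2
          rcases he.2 with h3 | h3
          · rcases hc with hc | hc
            · exact h3.2 (by rw [hc.1]; exact hx)
            · exact h3.2 (hclo e he.1 h2 x (s e) (Or.inr ⟨rfl, hc.2⟩) hx)
          · rcases hc with hc | hc
            · exact h3.2 (hclo e he.1 h2 x (t e) (Or.inl ⟨hc.1, rfl⟩) hx)
            · exact h3.2 (by rw [hc.2]; exact hx)
        apply hcr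
        rw [cr_singleton]
        rintro (h2 | h2)
        · -- `s e = q`, so `t e = x`
          have h4 : t e = x := by
            rcases hc with hc | hc
            · exact absurd (hc.1.symm.trans h2.1) hxq
            · exact hc.2
          rcases he.2 with h3 | h3
          · exact h3.1 h2.1
          · exact h3.2 (by rw [h4]; exact hx)
        · have h4 : s e = x := by
            rcases hc with hc | hc
            · exact hc.1
            · exact absurd (hc.2.symm.trans h2.2) hxq
          rcases he.2 with h3 | h3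
          · exact h3.2 (by rw [h4]; exact hx)
          · exact h3.1 h2.2
      rw [h1, Nat.cast_zero]
    · have h1 : ct s t (A.filter fun e => (s e ≠ q ∧ ¬ J (s e)) ∨ (t e ≠ q ∧ ¬ J (t e))) {x} =
          ct s t A {x} := by
        unfold ct
        congr 1
        ext e
        rw [mem_filter, mem_filter, mem_filter]
        constructor
        · rintro ⟨⟨h1, -⟩, h2⟩
          exact ⟨h1, h2⟩
        · rintro ⟨h1, h2⟩
          refine ⟨⟨h1, ?_⟩, h2⟩
          rw [cr_singleton] at h2
          rcases h2 with h2 | h2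
          · exact Or.inl ⟨by rw [h2.1]; exact hxq, by rw [h2.1]; exact hx⟩
          · exact Or.inr ⟨by rw [h2.2]; exact hxq, by rw [h2.2]; exact hx⟩
      have hp : x ≠ p := fun e => hx (by rw [e]; exact hJp)
      rw [h1, hb x, if_neg hp, if_neg hxq, add_zero]
  have hall : ∀ e ∈ A, (s e = q ∨ J (s e)) ∧ (t e = q ∨ J (t e)) := by
    intro e he
    by_contra h1
    have : e ∈ A.filter fun e => (s e ≠ q ∧ ¬ J (s e)) ∨ (t e ≠ q ∧ ¬ J (t e)) := by
      refine mem_filter.2 ⟨he, ?_⟩
      by_contra h2
      apply h1
      push Not at h2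
      constructor
      · by_cases h3 : s e = q
        · exact Or.inl h3
        · exact Or.inr (h2.1 h3)
      · by_cases h3 : t e = q
        · exact Or.inl h3
        · exact Or.inr (h2.2 h3)
    rw [hB] at this
    exact notMem_empty _ this
  -- at most one edge at `q`
  have hle : ct s t A {q} ≤ 1 := by
    unfold ct
    rw [card_le_one]
    intro e he f hf
    rw [mem_filter] at he hf
    by_contra hef
    -- the other ends
    have oth : ∀ e ∈ A, Cr s t {q} e →
        ∃ y, J y ∧ ((s e = q ∧ t e = y) ∨ (s e = y ∧ t e = q)) := by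
      intro e he hc
      rw [cr_singleton] at hc
      rcases hc with hc | hc
      · exact ⟨t e, (hall e he).2.resolve_left hc.2, Or.inl ⟨hc.1, rfl⟩⟩
      · exact ⟨s e, (hall e he).1.resolve_left hc.1, Or.inr ⟨rfl, hc.2⟩⟩
    obtain ⟨x, ⟨D1, hD1, b1⟩, hx⟩ := oth e he.1 he.2
    obtain ⟨y, ⟨D2, hD2, b2⟩, hy⟩ := oth f hf.1 hf.2
    obtain ⟨D, hD, hbd⟩ := bd_add b1 b2
    have hDA : D ⊆ A.filter fun e => ¬ Cr s t {q} e := hD.trans (union_subset hD1 hD2)
    have heD : e ∉ D := fun h => (mem_filter.1 (hDA h)).2 he.2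
    have hfD : f ∉ D := fun h => (mem_filter.1 (hDA h)).2 hf.2
    have hemp : insert e (insert f D) = ∅ := by
      refine ha _ (insert_subset he.1 (insert_subset hf.1 (hDA.trans (filter_subset _ _))))
        fun v => ?_
      have heD' : e ∉ insert f D := by
        rw [mem_insert]
        exact fun h => h.elim hef heD
      rw [ct_insert heD', ct_insert hfD, Nat.cast_add, Nat.cast_add, hbd v, cr_zmod, cr_zmod]
      have k1 : (if v = s e then (1 : ZMod 2) else 0) + (if v = t e then 1 else 0) =
          (if v = q then 1 else 0) + (if v = x then 1 else 0) := by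
        rcases hx with ⟨a1, a2⟩ | ⟨a1, a2⟩
        · rw [a1, a2]
        · rw [a1, a2, add_comm]
      have k2 : (if v = s f then (1 : ZMod 2) else 0) + (if v = t f then 1 else 0) =
          (if v = q then 1 else 0) + (if v = y then 1 else 0) := by
        rcases hy with ⟨a1, a2⟩ | ⟨a1, a2⟩
        · rw [a1, a2]
        · rw [a1, a2, add_comm]
      rw [k1, k2]
      have : ∀ X Y Q : ZMod 2, X + Y + (Q + Y) + (Q + X) = 0 := by decide
      exact this _ _ _
    exact insert_ne_empty _ _ hemp
  have hodd := hb q
  rw [if_neg hpq, if_pos rfl, zero_add] at hodd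
  rcases Nat.le_one_iff_eq_zero_or_eq_one.1 hle with h | h
  · rw [h, Nat.cast_zero] at hodd
    exact absurd hodd (by decide)
  · exact h

end ThmQ
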