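import Pool.Agent.Lib.ThmQ.CaseA
import Pool.Agent.Lib.ThmQ.CaseC

/-! # Theorem Q -/

set_option autoImplicit false

namespace ThmQ

open Finset Classical

variable {V E : Type*} {s t : E → V}

/-- `v` reaches `T` by a walk of `k` edges of `es - φ` -/
def Rch (s t : E → V) (es : Finset E) (T : Finset V) (φ : E) : ℕ → V → Prop
  | 0, v => v ∈ T
  | k + 1, v => ∃ e ∈ es, e ≠ φ ∧ ∃ v', Jn s t e v v' ∧ Rch s t es T φ k v'

theorem Rch.path {es : Finset E} {T : Finset V} {φ : E} : ∀ {k : ℕ} {w : V},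
    Rch s t es T φ k w → ∃ v : ℕ → V, v 0 = w ∧
      (∀ i < k, ∃ e ∈ es, e ≠ φ ∧ Jn s t e (v i) (v (i + 1))) ∧
      ∀ i ≤ k, Rch s t es T φ (k - i) (v i) := by
  intro k
  induction k with
  | zero =>
    intro w h
    refine ⟨fun _ => w, rfl, fun i hi => absurd hi (Nat.not_lt_zero i), fun i hi => ?_⟩
    obtain rfl : i = 0 := by omega
    exact h
  | succ k ih =>
    intro w h
    have h' := h
    obtain ⟨e, he, heφ, v', hJ, hR⟩ := h
    obtain ⟨v, hv0, hv1, hv2⟩ := ih hR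
    refine ⟨fun i => Nat.casesOn i w v, rfl, fun i hi => ?_, fun i hi => ?_⟩
    · cases i with
      | zero =>
        refine ⟨e, he, heφ, ?_⟩
        show Jn s t e w (v 0)
        rw [hv0]
        exact hJ
      | succ i => exact hv1 i (by omega)
    · cases i with
      | zero => exact h'
      | succ i =>
        have := hv2 i (by omega)
        show Rch s t es T φ (k + 1 - (i + 1)) (v i)
        rwa [show k + 1 - (i + 1) = k - i by omega]

/-- the path from `w1` to `T` -/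
theorem Inst.reach {N : Finset V} {es : Finset E} {ρ : V → ℕ} {w1 : V} {T : Finset V} {φ : E}
    (hI : Inst s t N es ρ w1 T φ) : ∃ k, Rch s t es T φ k w1 := by
  by_contra hn
  have hn' : ∀ k, ¬ Rch s t es T φ k w1 := fun k h => hn ⟨k, h⟩
  obtain ⟨e, he, heφ, hc⟩ := hI.E (N.filter fun v => ∀ k, ¬ Rch s t es T φ k v) (filter_subset _ _)
    (mem_filter.2 ⟨hI.w1N, hn'⟩) (by
      rw [disjoint_left]
      intro v hv hvT
      exact (mem_filter.1 hv).2 0 hvT)
  have key : ∀ x y : V, x ∈ (N.filter fun v => ∀ k, ¬ Rch s t es T φ k v) →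
      y ∉ (N.filter fun v => ∀ k, ¬ Rch s t es T φ k v) → y ∈ N → Jn s t e x y → False := by
    intro x y hx hy hyN hJ
    have hy2 : ∃ k, Rch s t es T φ k y := by
      by_contra h
      exact hy (mem_filter.2 ⟨hyN, fun k hk => h ⟨k, hk⟩⟩)
    obtain ⟨k, hk⟩ := hy2
    exact (mem_filter.1 hx).2 (k + 1) ⟨e, he, heφ, y, hJ, hk⟩
  have hends := hI.ends e he
  rcases hc with ⟨h1, h2⟩ | ⟨h1, h2⟩
  · exact key _ _ h1 h2 hends.2 (Or.inl ⟨rfl, rfl⟩)
  · exact key _ _ h2 h1 hends.1 (Or.inr ⟨rfl, rfl⟩)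

lemma two_z : ∀ a : ZMod 2, a + a = 0 := by decide

/-- the initial state -/
theorem St.init {N : Finset V} {es : Finset E} {ρ : V → ℕ} {w1 : V} {T : Finset V} {φ : E}
    (hI : Inst s t N es ρ w1 T φ) : St s t N es ρ w1 T φ ∅ w1 where
  sub := empty_subset _
  phi := notMem_empty _
  wN := hI.w1N
  bd := by
    intro v
    rw [ct_empty, Nat.cast_zero, two_z]
  touch := by
    intro v _
    rw [ct_empty, if_neg]
    rintro ⟨_, h⟩
    exact h rfl
  V1 := by
    intro W hW ho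
    rw [sdiff_empty]
    exact hI.L3 W hW ho
  V2 := by
    intro W hW ho hT _
    rw [sdiff_empty]
    exact hI.L5 W hW ho hT

/-- removing an even subset -/
theorem vl_drop {es Q B : Finset E} (ρ : V → ℕ) (w : V) (W : Finset V) :
    vl s t (es \ Q) ρ w W ≤ vl s t (es \ (Q \ B)) ρ w W := by
  unfold vl
  have h : ct s t (es \ Q) W ≤ ct s t (es \ (Q \ B)) W :=
    ct_mono (sdiff_subset_sdiff (Subset.refl _) sdiff_subset) W
  omega

theorem bd_drop {Q B : Finset E} {w1 w : V} (hb : Bd s t Q w1 w) (hB : B ⊆ Q) (hE : Ev s t B) :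
    Bd s t (Q \ B) w1 w := by
  intro v
  have h1 := ct_sdiff (s := s) (t := t) hB {v}
  have h2 := hb v
  rw [← h1] at h2
  push_cast at h2
  rwa [hE v, add_zero] at h2

theorem touch_drop {Q B : Finset E} (hB : B ⊆ Q) (hE : Ev s t B) {v : V} {c : Prop}
    [Decidable c] (h : ct s t Q {v} = if c then 1 else 0) : ct s t (Q \ B) {v} = if c then 1 else 0 := by
  have h1 := ct_sdiff (s := s) (t := t) hB {v}
  have h2 : Even (ct s t B {v}) := even_iff_zmod.2 (hE v)
  have h3 : ct s t Q {v} ≤ 1 := by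
    rw [h]
    split_ifs <;> omega
  obtain ⟨k, hk⟩ := h2
  rw [← h]
  omega

theorem St.drop {N : Finset V} {es : Finset E} {ρ : V → ℕ} {w1 : V} {T : Finset V} {φ : E}
    {Q B : Finset E} {w : V} (h : St s t N es ρ w1 T φ Q w) (hB : B ⊆ Q) (hE : Ev s t B) :
    St s t N es ρ w1 T φ (Q \ B) w where
  sub := sdiff_subset.trans h.sub
  phi := fun hf => h.phi (mem_sdiff.1 hf).1
  wN := h.wN
  bd := bd_drop h.bd hB hE
  touch := fun v hv => touch_drop hB hE (h.touch v hv)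
  V1 := fun W hW ho => (h.V1 W hW ho).trans (vl_drop ρ w W)
  V2 := fun W hW ho hT hw => (h.V2 W hW ho hT hw).trans (vl_drop ρ w W)

theorem Sol.drop {N : Finset V} {es : Finset E} {ρ : V → ℕ} {w1 : V} {T : Finset V} {φ : E}
    {P B : Finset E} {u : V} (h : Sol s t N es ρ w1 T φ P u) (hB : B ⊆ P) (hE : Ev s t B) :
    Sol s t N es ρ w1 T φ (P \ B) u where
  sub := sdiff_subset.trans h.sub
  phi := fun hf => h.phi (mem_sdiff.1 hf).1
  uT := h.uT
  bd := bd_drop h.bd hB hE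
  touch := fun v hv => touch_drop hB hE (h.touch v hv)
  val := fun W hW ho => (h.val W hW ho).trans (vl_drop ρ u W)

/-- the comparison of a state with a part of it ending at `x` -/
theorem vl_part {es Q D : Finset E} {w1 w x : V} (hQ : Q ⊆ es) (hD : D ⊆ Q)
    (hb : Bd s t Q w1 w) (hbD : Bd s t D w1 x) (ρ : V → ℕ) (W : Finset V) :
    vl s t (es \ Q) ρ w W ≤ vl s t (es \ D) ρ x W ∧
      (x ∈ W → w ∉ W → vl s t (es \ Q) ρ w W + 2 ≤ vl s t (es \ D) ρ x W) := by
  have h1 : es \ D = (es \ Q) ∪ (Q \ D) := by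
    ext e
    simp only [mem_union, mem_sdiff]
    have h2 := @hQ e
    have h3 := @hD e
    tauto
  have h2 : Disjoint (es \ Q) (Q \ D) := by
    rw [disjoint_left]
    intro e h3 h4
    exact (mem_sdiff.1 h3).2 (mem_sdiff.1 h4).1
  have h3 : ct s t (es \ D) W = ct s t (es \ Q) W + ct s t (Q \ D) W := by
    rw [h1, ct_union h2]
  have h4 : (ct s t (Q \ D) W : ZMod 2) = (if w ∈ W then 1 else 0) + (if x ∈ W then 1 else 0) := by
    have h5 := ct_sdiff (s := s) (t := t) hD W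
    have h6 := hb.par W
    have h7 := hbD.par W
    rw [← h5] at h6
    push_cast at h6
    rw [h7] at h6
    generalize (ct s t (Q \ D) W : ZMod 2) = a at h6 ⊢
    split_ifs at h6 ⊢ <;> revert h6 <;> revert a <;> decide
  unfold vl
  rw [h3]
  by_cases hw : w ∈ W <;> by_cases hx : x ∈ W
  · rw [if_pos hw, if_pos hx]
    exact ⟨by omega, fun _ h => absurd hw h⟩
  · rw [if_pos hw, if_neg hx] at h4 ⊢
    rw [add_zero] at h4
    have h5 := odd_iff_zmod.2 h4
    have h6 := h5.pos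
    exact ⟨by omega, fun h => absurd h hx⟩
  · rw [if_neg hw, if_pos hx] at h4 ⊢
    rw [zero_add] at h4
    have h5 := odd_iff_zmod.2 h4
    have h6 := h5.pos
    exact ⟨by omega, fun _ _ => by omega⟩
  · rw [if_neg hw, if_neg hx]
    exact ⟨by omega, fun h => absurd h hx⟩

/-- one step: adding an edge `e` from `w` to `w'` -/
theorem vl_step {es Q : Finset E} {w w' : V} {e : E} (he : e ∈ es) (heQ : e ∉ Q)
    (hJ : Jn s t e w w') (ρ : V → ℕ) (W : Finset V) :
    vl s t (es \ insert e Q) ρ w' W + (if w ∈ W ∧ w' ∉ W then 2 else 0) =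
      vl s t (es \ Q) ρ w W := by
  have h1 : es \ Q = insert e (es \ insert e Q) := by
    ext x
    simp only [mem_insert, mem_sdiff]
    by_cases hx : x = e
    · subst hx
      tauto
    · tauto
  have h2 : e ∉ es \ insert e Q := by
    simp
  have h3 : ct s t (es \ Q) W = ct s t (es \ insert e Q) W + if Cr s t W e then 1 else 0 := by
    conv_lhs => rw [h1, ct_insert h2]
  have h4 : Cr s t W e ↔ (w ∈ W ∧ w' ∉ W) ∨ (w ∉ W ∧ w' ∈ W) := by
    unfold Cr
    rcases hJ with ⟨rfl, rfl⟩ | ⟨rfl, rfl⟩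
    · rfl
    · tauto
  unfold vl
  rw [h3, if_congr h4 rfl rfl]
  by_cases hw : w ∈ W <;> by_cases hw' : w' ∈ W <;> simp [hw, hw'] <;> omega

theorem cr_jn {e : E} {w w' : V} (hJ : Jn s t e w w') (hne : w ≠ w') (v : V) :
    ((if Cr s t {v} e then 1 else 0 : ℕ) : ZMod 2) =
      (if v = w then 1 else 0) + (if v = w' then 1 else 0) := by
  have h4 : Cr s t {v} e ↔ (v = w ∨ v = w') := by
    rw [cr_singleton]
    rcases hJ with ⟨rfl, rfl⟩ | ⟨rfl, rfl⟩
    · constructor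
      · rintro (h | h)
        · exact Or.inl h.1.symm
        · exact Or.inr h.2.symm
      · rintro (rfl | rfl)
        · exact Or.inl ⟨rfl, fun h => hne h.symm⟩
        · exact Or.inr ⟨hne, rfl⟩
    · constructor
      · rintro (h | h)
        · exact Or.inr h.1.symm
        · exact Or.inl h.2.symm
      · rintro (rfl | rfl)
        · exact Or.inr ⟨fun h => hne h.symm, rfl⟩
        · exact Or.inl ⟨rfl, hne⟩
  rw [if_congr h4 rfl rfl]
  by_cases h5 : v = w
  · have h6 : v ≠ w' := fun h => hne (h5.symm.trans h)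
    simp [h5, hne]
  · by_cases h6 : v = w'
    · simp [h6, hne.symm]
    · simp [h5, h6]

/-- THEOREM Q, induction step -/
theorem step {N : Finset V} {es : Finset E} {ρ : V → ℕ} {w1 : V} {T : Finset V} {φ : E}
    (hI : Inst s t N es ρ w1 T φ) (hIH : IH V E es.card) : ∃ P u, Sol s t N es ρ w1 T φ P u := by
  by_contra hno
  -- the shortest state
  have hex : ∃ m, ∃ Q w, St s t N es ρ w1 T φ Q w ∧ Rch s t es T φ m w := by
    obtain ⟨k, hk⟩ := hI.reach
    exact ⟨k, ∅, w1, St.init hI, hk⟩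
  obtain ⟨m, ⟨Qm, w, hSm, hRm⟩, hmin⟩ : ∃ m, (∃ Q w, St s t N es ρ w1 T φ Q w ∧
      Rch s t es T φ m w) ∧ ∀ k < m, ¬ ∃ Q w, St s t N es ρ w1 T φ Q w ∧ Rch s t es T φ k w :=
    ⟨Nat.find hex, Nat.find_spec hex, fun k hk => Nat.find_min hex hk⟩
  have hmin' : ∀ Q x k, k < m → St s t N es ρ w1 T φ Q x → Rch s t es T φ k x → False :=
    fun Q x k hk h1 h2 => hmin k hk ⟨Q, x, h1, h2⟩
  -- a forest
  have hexQ : ∃ c, ∃ Q, St s t N es ρ w1 T φ Q w ∧ Q.card = c := ⟨_, Qm, hSm, rfl⟩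
  obtain ⟨Q, hS, hac⟩ : ∃ Q, St s t N es ρ w1 T φ Q w ∧ Acyc s t Q := by
    obtain ⟨Q, hQ, hQc⟩ := Nat.find_spec hexQ
    refine ⟨Q, hQ, fun B hB hE => ?_⟩
    by_contra hne
    have h1 : (Q \ B).card < Q.card := by
      refine card_lt_card ⟨sdiff_subset, fun h => ?_⟩
      obtain ⟨e, he⟩ := nonempty_iff_ne_empty.2 hne
      exact (mem_sdiff.1 (h (hB he))).2 he
    exact Nat.find_min hexQ (hQc ▸ h1) ⟨Q \ B, hQ.drop hB hE, rfl⟩
  -- `w ∉ T`
  have hwT : w ∉ T := by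
    intro hw
    exact hno ⟨Q, w, hS.sub, hS.phi, hw, hS.bd, hS.touch, hS.V1⟩
  have hm : 0 < m := by
    rcases Nat.eq_zero_or_pos m with h | h
    · subst h
      exact absurd hRm hwT
    · exact h
  have hw1T : w1 ∉ T := fun h => hmin' ∅ w1 0 hm (St.init hI) h
  have hQT : ∀ v ∈ T, ct s t Q {v} = 0 := by
    intro v hv
    rw [hS.touch v hv, if_neg]
    rintro ⟨rfl, _⟩
    exact hwT hv
  -- the path
  obtain ⟨v, hv0, hve, hvR⟩ := hRm.path
  have hvN : ∀ i, 1 ≤ i → i ≤ m → v i ∈ N := by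
    intro i h1 h2
    obtain ⟨e, he, _, hJ⟩ := hve (i - 1) (by omega)
    rw [show i - 1 + 1 = i by omega] at hJ
    have := hI.ends e he
    rcases hJ with ⟨_, h⟩ | ⟨h, _⟩
    · rw [← h]; exact this.2
    · rw [← h]; exact this.1
  have hvw : ∀ i, 1 ≤ i → i ≤ m → v i ≠ w := by
    intro i h1 h2 h
    have := hvR i h2
    rw [h] at this
    exact hmin' Q w (m - i) (by omega) hS this
  have hvQ : ∀ i, 1 ≤ i → i ≤ m → ct s t Q {v i} = 0 := by
    intro i h1 h2
    by_contra h3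
    have h4 : v i ∉ T := fun h => h3 (hQT _ h)
    obtain ⟨D, hD, hDb⟩ := hac.part_to hS.bd h3
    refine hmin' D (v i) (m - i) (by omega) ?_ (hvR i h2)
    refine ⟨hD.trans hS.sub, fun h => hS.phi (hD h), hvN i h1 h2, hDb, fun x hx => ?_,
      fun W hW ho => ?_, fun W hW ho hT hvW => ?_⟩
    · rw [if_neg]
      · have h5 := ct_mono (s := s) (t := t) hD {x}
        have h6 := hQT x hx
        omega
      · rintro ⟨rfl, _⟩
        exact h4 hx
    · exact (hS.V1 W hW ho).trans (vl_part hS.sub hD hS.bd hDb ρ W).1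
    · by_cases hwW : w ∈ W
      · exact (hS.V2 W hW ho hT hwW).trans (vl_part hS.sub hD hS.bd hDb ρ W).1
      · have h5 := (vl_part hS.sub hD hS.bd hDb ρ W).2 hvW hwW
        have h6 := hS.V1 W hW ho
        omega
  -- edges of the path are not in `Q`
  have heQ : ∀ i < m, ∀ e, Jn s t e (v i) (v (i + 1)) → e ∉ Q := by
    intro i hi e hJ he
    have h1 := hvQ (i + 1) (by omega) (by omega)
    have h2 := hac.noloop he
    have h3 : e ∈ Q.filter (Cr s t {v (i + 1)}) := by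
      refine mem_filter.2 ⟨he, ?_⟩
      rw [cr_singleton]
      rcases hJ with ⟨h4, h5⟩ | ⟨h4, h5⟩
      · exact Or.inr ⟨fun h => h2 (h.trans h5.symm), h5⟩
      · exact Or.inl ⟨h4, fun h => h2 (h4.trans h.symm)⟩
    rw [card_eq_zero.1 h1] at h3
    exact notMem_empty _ h3
  -- parity
  have hodd : ∀ W, Odd (vl s t es ρ w1 W) → Odd (vl s t (es \ Q) ρ w W) := by
    intro W h
    rw [odd_iff_zmod] at h ⊢
    rw [vl_Q_par hS.sub hS.bd, h]
  have hge5 : ∀ W ⊆ N, Odd (vl s t es ρ w1 W) → vl s t (es \ Q) ρ w W ≠ 3 →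
      5 ≤ vl s t (es \ Q) ρ w W := by
    intro W hW ho hne
    have h1 := hS.V1 W hW ho
    have h2 := hodd W ho
    obtain ⟨k, hk⟩ := h2
    omega
  -- no case A
  have hA : ∀ W ⊆ N, Odd (vl s t es ρ w1 W) → w ∈ W → (∃ j ≤ m, v j ∉ W) →
      5 ≤ vl s t (es \ Q) ρ w W := by
    intro Y hY ho hwY hj
    refine hge5 Y hY ho fun h3 => hno ?_
    refine caseA hI hIH hS hac hwT hY ho hwY h3 fun Ω hwΩ hΩ => ?_
    obtain ⟨j, ⟨hjm, hjY⟩, hjmin⟩ : ∃ j, (j ≤ m ∧ v j ∉ Y) ∧ ∀ k < j, ¬ (k ≤ m ∧ v k ∉ Y) :=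
      ⟨Nat.find hj, Nat.find_spec hj, fun k hk => Nat.find_min hj hk⟩
    have hin : ∀ i < j, v i ∈ Y := by
      intro i hi
      by_contra h
      exact hjmin i hi ⟨by omega, h⟩
    have hj0 : 0 < j := by
      rcases Nat.eq_zero_or_pos j with h | h
      · subst h
        rw [hv0] at hjY
        exact absurd hwY hjY
      · exact h
    have hinΩ : ∀ i < j, v i ∈ Ω := by
      intro i
      induction i with
      | zero =>
        intro _
        rw [hv0]
        exact hwΩ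
      | succ i ih =>
        intro hi
        have h1 := ih (by omega)
        obtain ⟨e, he, heφ, hJ⟩ := hve i (by omega)
        have h2 := hin i (by omega)
        have h4 := hin (i + 1) hi
        by_contra h5
        rcases hJ with ⟨h6, h7⟩ | ⟨h6, h7⟩
        · refine hΩ e he heφ (h6 ▸ h2) (h7 ▸ h4) (Or.inl ⟨h6 ▸ h1, h7 ▸ h5⟩)
        · refine hΩ e he heφ (h6 ▸ h4) (h7 ▸ h2) (Or.inr ⟨h6 ▸ h5, h7 ▸ h1⟩)
    obtain ⟨e, he, heφ, hJ⟩ := hve (j - 1) (by omega)
    have hJ' := hJ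
    have h1 := heQ (j - 1) (by omega) e hJ
    have h2 := hin (j - 1) (by omega)
    have h4 := hinΩ (j - 1) (by omega)
    rw [show j - 1 + 1 = j by omega] at hJ'
    refine ⟨e, he, h1, ?_⟩
    rcases hJ' with ⟨h6, h7⟩ | ⟨h6, h7⟩
    · exact Or.inl ⟨h6 ▸ h2, h6 ▸ h4, h7 ▸ hjY⟩
    · exact Or.inr ⟨h7 ▸ h2, h7 ▸ h4, h6 ▸ hjY⟩
  -- the step
  obtain ⟨e, he, heφ, hJ⟩ := hve 0 hm
  have heQ0 := heQ 0 hm e hJ
  rw [hv0, zero_add] at hJ
  have hne : w ≠ v 1 := fun h => hvw 1 le_rfl hm h.symm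
  have hstep := fun W => vl_step (s := s) (t := t) he heQ0 hJ ρ W
  have hb' : Bd s t (insert e Q) w1 (v 1) := by
    intro x
    rw [ct_insert heQ0]
    push_cast [hS.bd x]
    have h1 := cr_jn hJ hne x
    push_cast at h1
    rw [h1]
    have h2 := two_z (if x = w then 1 else 0)
    linear_combination h2
  have htouch' : ∀ x ∈ T, ct s t (insert e Q) {x} = if x = v 1 ∧ v 1 ≠ w1 then 1 else 0 := by
    intro x hx
    rw [ct_insert heQ0, hQT x hx, zero_add]
    have h1 : Cr s t {x} e ↔ x = v 1 ∧ v 1 ≠ w1 := by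
      have hxw : x ≠ w := fun h => hwT (h ▸ hx)
      have hxw1 : x ≠ w1 := fun h => hw1T (h ▸ hx)
      rw [cr_singleton]
      constructor
      · intro h
        have h2 : x = v 1 := by
          rcases hJ with ⟨h3, h4⟩ | ⟨h3, h4⟩ <;> rcases h with ⟨h5, h6⟩ | ⟨h5, h6⟩
          · exact absurd (h5.symm.trans h3) hxw
          · exact h6.symm.trans h4
          · exact h5.symm.trans h3
          · exact absurd (h6.symm.trans h4) hxw
        exact ⟨h2, fun h => hxw1 (h2.trans h)⟩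
      · rintro ⟨rfl, _⟩
        rcases hJ with ⟨h3, h4⟩ | ⟨h3, h4⟩
        · exact Or.inr ⟨fun h => hne (h3.symm.trans h), h4⟩
        · exact Or.inl ⟨h3, fun h => hne (h4.symm.trans h)⟩
    rw [if_congr h1 rfl rfl]
  have hV1' : ∀ W ⊆ N, Odd (vl s t es ρ w1 W) → 3 ≤ vl s t (es \ insert e Q) ρ (v 1) W := by
    intro W hW ho
    have h1 := hstep W
    by_cases h2 : w ∈ W ∧ v 1 ∉ W
    · rw [if_pos h2] at h1
      have h3 := hA W hW ho h2.1 ⟨1, hm, h2.2⟩
      omega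
    · rw [if_neg h2] at h1
      have h3 := hS.V1 W hW ho
      omega
  have hphi' : φ ∉ insert e Q := by
    rw [mem_insert]
    rintro (h | h)
    · exact heφ h.symm
    · exact hS.phi h
  have hsub' : insert e Q ⊆ es := insert_subset he hS.sub
  have hv1T : v 1 ∉ T := fun h => hno ⟨insert e Q, v 1, hsub', hphi', h, hb', htouch', hV1'⟩
  -- V2 fails
  obtain ⟨Z, hZN, hZo, hZT, hZ1, hZ5⟩ : ∃ Z ⊆ N, Odd (vl s t es ρ w1 Z) ∧ Disjoint Z T ∧
      v 1 ∈ Z ∧ vl s t (es \ insert e Q) ρ (v 1) Z < 5 := by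
    by_contra hn
    refine hmin' (insert e Q) (v 1) (m - 1) (by omega) ?_ (hvR 1 hm)
    refine ⟨hsub', hphi', hvN 1 le_rfl hm, hb', htouch', hV1', fun W hW ho hT h1 => ?_⟩
    by_contra h2
    exact hn ⟨W, hW, ho, hT, h1, by omega⟩
  have hZw : w ∉ Z := by
    intro h
    have h1 := hstep Z
    rw [if_neg (fun h2 => h2.2 hZ1)] at h1
    have h2 := hS.V2 Z hZN hZo hZT h
    omega
  have hZ3 : vl s t (es \ Q) ρ w Z = 3 := by
    have h1 := hstep Z
    rw [if_neg (fun h2 => hZw h2.1)] at h1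
    by_contra h2
    have h3 := hge5 Z hZN hZo h2
    omega
  -- the last candidate
  let Cd : ℕ → Prop := fun j => j ≤ m ∧ ∃ Y ⊆ N, Odd (vl s t es ρ w1 Y) ∧ Disjoint Y T ∧
    w ∉ Y ∧ vl s t (es \ Q) ρ w Y = 3 ∧ v j ∈ Y
  have hC1 : Cd 1 := ⟨hm, Z, hZN, hZo, hZT, hZw, hZ3, hZ1⟩
  obtain ⟨j, hj, hjmax⟩ : ∃ j, Cd j ∧ ∀ i, j < i → ¬ Cd i := by
    have hb : ∀ i, Cd i → i ≤ m := fun i h => h.1
    refine ⟨Nat.findGreatest Cd m, Nat.findGreatest_spec (P := Cd) hm hC1, fun i hi hCi => ?_⟩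
    exact Nat.findGreatest_is_greatest hi (hb i hCi) hCi
  obtain ⟨hjm, Y, hYN, hYo, hYT, hYw, hY3, hjY⟩ := hj
  have hj1 : 1 ≤ j := by
    by_contra h
    exact hjmax 1 (by omega) hC1
  have hjm' : j < m := by
    rcases Nat.lt_or_ge j m with h | h
    · exact h
    · have h1 : j = m := by omega
      subst h1
      have h2 := hvR j le_rfl
      rw [Nat.sub_self] at h2
      exact absurd h2 (disjoint_left.1 hYT hjY)
  have hnext : ∀ W ⊆ N, Odd (vl s t es ρ w1 W) → Disjoint W T → w ∉ W → v (j + 1) ∈ W →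
      5 ≤ vl s t (es \ Q) ρ w W := by
    intro W hW ho hT hw h0
    refine hge5 W hW ho fun h3 => ?_
    exact hjmax (j + 1) (by omega) ⟨by omega, W, hW, ho, hT, hw, h3, h0⟩
  have hw0Y : v (j + 1) ∉ Y := by
    intro h
    have := hnext Y hYN hYo hYT hYw h
    omega
  obtain ⟨e2, he2, he2φ, hJ2⟩ := hve j hjm'
  obtain ⟨Q0, hQ0⟩ := caseC hI hIH hS hac hwT hYN hYo hYT hYw hY3 he2 (heQ j hjm' e2 hJ2) he2φ
    hJ2 hjY hw0Y (hvw (j + 1) (by omega) (by omega)) (hvQ (j + 1) (by omega) (by omega))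
    (fun W hW ho hwW hw0W => hA W hW ho hwW ⟨j + 1, by omega, hw0W⟩) hnext
  exact hmin' Q0 (v (j + 1)) (m - (j + 1)) (by omega) hQ0 (hvR (j + 1) (by omega))

theorem allIH (V E : Type*) : ∀ n, IH V E n := by
  intro n
  induction n with
  | zero =>
    intro s t N es ρ w1 T φ h
    exact absurd h (Nat.not_lt_zero _)
  | succ n ih =>
    intro s t N es ρ w1 T φ h hI
    refine step hI ?_
    intro s' t' N' es' ρ' w1' T' φ' h' hI'
    exact ih s' t' N' es' ρ' w1' T' φ' (by omega) hI'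

/-- THEOREM Q, with `P` a forest -/
theorem main {N : Finset V} {es : Finset E} {ρ : V → ℕ} {w1 : V} {T : Finset V} {φ : E}
    (hI : Inst s t N es ρ w1 T φ) : ∃ P u, Sol s t N es ρ w1 T φ P u ∧ Acyc s t P := by
  have h0 : ∃ c, ∃ P u, Sol s t N es ρ w1 T φ P u ∧ P.card = c := by
    obtain ⟨P, u, h⟩ := step hI (allIH V E es.card)
    exact ⟨_, P, u, h, rfl⟩
  obtain ⟨P, u, hP, hPc⟩ := Nat.find_spec h0
  refine ⟨P, u, hP, fun B hB hE => ?_⟩
  by_contra hne
  have h1 : (P \ B).card < P.card := by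
    refine card_lt_card ⟨sdiff_subset, fun h => ?_⟩
    obtain ⟨e, he⟩ := nonempty_iff_ne_empty.2 hne
    exact (mem_sdiff.1 (h (hB he))).2 he
  exact Nat.find_min h0 (hPc ▸ h1) ⟨P \ B, u, hP.drop hB hE, rfl⟩

end ThmQ
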